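import Pool.Agent.P.MP_318c20_al.Helly

namespace Pool.Agent.P.MP_318c20_al

open Set Filter Topology

variable {m : ℕ} (D : ZMod m → Bool)

noncomputable def ray (w : Pl) (p v : ℝ × ℝ) (t : ℝ) : Sp D := e D w (p + t • v)

theorem isRay_ray (w : Pl) (p : ℝ × ℝ) {v : ℝ × ℝ} (hv : ‖v‖ = 1) : IsRay (ray D w p v) := by
  refine ⟨fun s t _ _ => ?_, (str_line D w p v).mono (subset_univ _) (convex_Ici 0)⟩
  rw [ray, ray, dist_e, dist_add_left, dist_eq_norm, ← sub_smul, norm_smul, hv, mul_one,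
    Real.norm_eq_abs]

open Classical in
noncomputable def un (v : ℝ × ℝ) : ℝ × ℝ := if v = 0 then (1, 0) else ‖v‖⁻¹ • v

theorem norm_un (v : ℝ × ℝ) : ‖un v‖ = 1 := by
  unfold un
  split_ifs with h
  · simp
  · exact norm_smul_inv_norm (𝕜 := ℝ) h

theorem un_of_norm {v : ℝ × ℝ} (hv : ‖v‖ = 1) : un v = v := by
  have : v ≠ 0 := by rintro rfl; simp at hv
  simp [un, this, hv]

theorem un_cont : ContinuousOn un {v | v ≠ 0} := by
  refine ContinuousOn.congr (f := fun v : ℝ × ℝ => ‖v‖⁻¹ • v) ?_ fun v hv => if_neg hv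
  exact (continuous_norm.continuousOn.inv₀ fun v hv => norm_ne_zero_iff.2 hv).smul continuousOn_id

variable (o : Sp D)

noncomputable def dp (w : Pl) (v : ℝ × ℝ) : Bd o := cls o (isRay_ray D w 0 (norm_un v))

theorem cls_ray (w : Pl) (p : ℝ × ℝ) {v : ℝ × ℝ} (hv : ‖v‖ = 1) :
    cls o (isRay_ray D w p hv) = dp D o w v := by
  refine cls_eq_cls _ _ (D := dist p 0) fun T => ⟨T, le_rfl, ?_⟩
  rw [ray, ray, dist_e, un_of_norm hv, dist_add_right]

theorem dp_un (w : Pl) (v : ℝ × ℝ) : dp D o w (un v) = dp D o w v := by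
  rw [← cls_ray D o w 0 (norm_un v)]; rfl

theorem dp_inj {w : Pl} {v v' : ℝ × ℝ} (h : dp D o w v = dp D o w v') : un v = un v' := by
  by_contra hne
  have hp : 0 < ‖un v - un v'‖ := norm_pos_iff.2 (sub_ne_zero.2 hne)
  set C := dist o (ray D w 0 (un v) 0) + dist o (ray D w 0 (un v') 0) with hC
  have hC0 : 0 ≤ C := by positivity
  have := dist_le_of_cls_eq _ _ h (t := C / ‖un v - un v'‖ + 1) (by positivity)
  rw [← hC, ray, ray, dist_e, dist_add_left, dist_eq_norm, ← smul_sub, norm_smul,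
    Real.norm_eq_abs, abs_of_nonneg (by positivity), add_mul, div_mul_cancel₀ _ hp.ne'] at this
  linarith

theorem dp_cont (w : Pl) : ContinuousOn (dp D o w) {v | v ≠ 0} := by
  intro v0 hv0
  refine tendsto_cls (D := dist o (e D w 0) + 1) _ (Eventually.of_forall fun v => by simp [ray])
    fun T => ⟨max T 0, le_max_left _ _, ?_⟩
  have h1 := cls_dist o (isRay_ray D w 0 (norm_un v0)) (le_max_right T 0)
  have hc : ContinuousWithinAt (fun v => ray D w 0 (un v) (max T 0)) {v | v ≠ 0} v0 :=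
    (isometry_e D w).continuous.continuousAt.comp_continuousWithinAt
      (continuousWithinAt_const.add ((un_cont v0 hv0).const_smul (max T 0)))
  filter_upwards [Metric.tendsto_nhds.1 hc 1 one_pos] with v hv
  have := dist_triangle_right (ray D w 0 (un v) (max T 0)) ((dp D o w v0).pt (max T 0))
    (ray D w 0 (un v0) (max T 0))
  simp only [ray, zero_smul, add_zero] at h1 hv this ⊢
  change dist ((dp D o w v0).pt _) _ ≤ _ at h1
  linarith

noncomputable def dv (w : Pl) (j b : Bool) : ℝ × ℝ := sg b • sw j (kap D w j, 1)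

theorem abs_sg (b : Bool) : |sg b| = 1 := by cases b <;> simp [sg]

theorem norm_dv (w : Pl) (j b : Bool) : ‖dv D w j b‖ = 1 := by
  rw [dv, norm_smul, Real.norm_eq_abs, abs_sg, one_mul, ← dist_zero_right,
    show (0 : ℝ × ℝ) = sw j 0 by cases j <;> rfl, dist_sw]
  rcases kap_cases D w j with h | h <;> simp [h]

theorem Lam_ray (w : Pl) (l : Step) (b : Bool) (s t : ℝ) :
    Lam D w l (s + sg b * t) = ray D w (lp D w l s) (dv D w l.1 b) t := by
  rw [ray, dv, smul_smul, lp, ← nc_add, Lam, N]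
  congr 2
  simp only [Prod.smul_mk, smul_eq_mul, Prod.mk_add_mk, Prod.mk.injEq]
  constructor <;> ring

noncomputable def pole (w : Pl) (j b : Bool) : Bd o := dp D o w (dv D w j b)

theorem pole_eq (w : Pl) (l : Step) (b : Bool) (s : ℝ) :
    pole D o w l.1 b = cls o (isRay_ray D w (lp D w l s) (norm_dv D w l.1 b)) :=
  (cls_ray D o w _ (norm_dv D w l.1 b)).symm

theorem pole_nb (w : Pl) (l : Step) (b : Bool) : pole D o (nb w l) l.1 b = pole D o w l.1 b := by
  rw [pole_eq D o w l b 0]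
  refine (pole_eq D o (nb w l) (bl w l) b (0 + cs w l)).trans
    (cls_eq_cls _ _ (D := 0) fun T => ⟨T, le_rfl, ?_⟩)
  rw [← Lam_ray, ← Lam_ray, Lam_glue D w l, add_right_comm, dist_self]

theorem dv_inj {w : Pl} {j b j' b' : Bool} (h : dv D w j b = dv D w j' b') : j = j' ∧ b = b' := by
  rcases dl_cases D w with hd | hd <;> cases j <;> cases b <;> cases j' <;> cases b' <;>
    simp [dv, sg, sw, kap, hd] at h ⊢ <;> linarith

theorem pole_inj {w : Pl} {j b j' b' : Bool} (h : pole D o w j b = pole D o w j' b') :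
    j = j' ∧ b = b' := by
  have := dp_inj D o h
  rw [un_of_norm (norm_dv D w j b), un_of_norm (norm_dv D w j' b')] at this
  exact dv_inj D this

/-! ### sides -/

def side (w : Pl) (l : Step) : Set (Sp D) := {x | ∃ g ∈ Far w l, ∃ v, x = e D g v}

theorem side_union (w : Pl) (l : Step) : side D w l ∪ side D (nb w l) (bl w l) = univ := by
  refine eq_univ_of_forall fun x => ?_
  obtain ⟨g, v, rfl⟩ := exists_e D x
  by_cases h : g ∈ Far w l
  · exact Or.inl ⟨g, h, v, rfl⟩
  · exact Or.inr ⟨g, (far_back w l g).2 h, v, rfl⟩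

theorem mem_side_or (w : Pl) (l : Step) (x : Sp D) :
    x ∈ side D w l ∨ x ∈ side D (nb w l) (bl w l) := by
  have : x ∈ side D w l ∪ side D (nb w l) (bl w l) := by rw [side_union]; trivial
  exact this

theorem side_sep {w : Pl} {l : Step} {x y : Sp D} (hx : x ∈ side D w l)
    (hy : y ∈ side D (nb w l) (bl w l)) :
    ∃ s, dist x y = dist x (Lam D w l s) + dist (Lam D w l s) y := by
  obtain ⟨g, hg, v, rfl⟩ := hx
  obtain ⟨g', hg', v', rfl⟩ := hy
  exact sep D hg ((far_back w l g').1 hg') v v'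

theorem Lam_mem_side (w : Pl) (l : Step) (s : ℝ) : Lam D w l s ∈ side D w l :=
  ⟨_, nb_far w l, _, Lam_glue D w l s⟩

theorem e_mem_side (w : Pl) (l : Step) (v : ℝ × ℝ) : e D w v ∈ side D (nb w l) (bl w l) :=
  ⟨w, (far_back w l w).2 (self_not_far w l), v, rfl⟩

theorem side_inter {w : Pl} {l : Step} {x : Sp D} (hx : x ∈ side D w l)
    (hy : x ∈ side D (nb w l) (bl w l)) : x ∈ range (Lam D w l) := by
  obtain ⟨s, hs⟩ := side_sep D hx hy
  rw [dist_self, dist_comm x] at hs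
  exact ⟨s, dist_le_zero.1 (by linarith)⟩

theorem isometry_Lam (w : Pl) (l : Step) : Isometry (Lam D w l) :=
  Isometry.of_dist_eq fun s s' => by rw [dist_Lam, Real.dist_eq]

theorem isClosed_side (w : Pl) (l : Step) : IsClosed (side D w l) := by
  rw [← isOpen_compl_iff, Metric.isOpen_iff]
  intro x hx
  have hx' : x ∈ side D (nb w l) (bl w l) :=
    (mem_side_or D w l x).resolve_left hx
  have hL : x ∉ range (Lam D w l) := by
    rintro ⟨s, rfl⟩; exact hx (Lam_mem_side D w l s)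
  refine ⟨_, ((isometry_Lam D w l).isClosedEmbedding.isClosed_range.notMem_iff_infDist_pos
    (range_nonempty _)).1 hL, fun a ha ha' => ?_⟩
  obtain ⟨s, hs⟩ := side_sep D ha' hx'
  have := Metric.infDist_le_dist_of_mem (x := x) (mem_range_self (f := Lam D w l) s)
  rw [Metric.mem_ball] at ha
  rw [dist_comm] at this
  linarith [dist_nonneg (x := a) (y := Lam D w l s)]

theorem cross_gen {X : Type} [TopologicalSpace X] {A C : Set X} (hA : IsClosed A) (hC : IsClosed C)
    (hU : A ∪ C = univ) {γ : ℝ → X} {a b : ℝ} (hab : a ≤ b) (hγ : ContinuousOn γ (Icc a b))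
    (ha : γ a ∈ A) (hb : γ b ∈ C) : ∃ t ∈ Icc a b, γ t ∈ A ∧ γ t ∈ C := by
  obtain ⟨_, ⟨t, ht, rfl⟩, h⟩ := isPreconnected_closed_iff.1 (isPreconnected_Icc.image γ hγ) A C hA hC
    (hU ▸ subset_univ _) ⟨_, ⟨a, ⟨le_rfl, hab⟩, rfl⟩, ha⟩ ⟨_, ⟨b, ⟨hab, le_rfl⟩, rfl⟩, hb⟩
  exact ⟨t, ht, h⟩

theorem geo_e (w : Pl) (p q : ℝ × ℝ) {t : ℝ} (ht : t ∈ Icc (0 : ℝ) 1) :
    geo (e D w p) (e D w q) t = e D w (p + t • (q - p)) :=
  Str.uniq (li_Sp D) (geo_str _ _) ((str_line D w p (q - p)).mono (subset_univ _) (convex_Icc 0 1))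
    (by simp [geo_zero]) (by simp [geo_one]) ht

theorem cvx_line (w : Pl) (l : Step) : Cvx (range (Lam D w l)) := by
  rintro _ ⟨s, rfl⟩ _ ⟨s', rfl⟩ t ht
  refine ⟨s + t * (s' - s), ?_⟩
  rw [Lam_eq D w l s, Lam_eq D w l s', geo_e D w _ _ ht, Lam_eq]
  congr 1
  obtain ⟨j, k⟩ := l
  cases j <;> simp [lp, nc, sw] <;> (try constructor) <;> ring

theorem cvx_side (w : Pl) (l : Step) : Cvx (side D w l) := by
  intro x hx y hy t ht
  by_contra hc
  have hx' : geo x y t ∈ side D (nb w l) (bl w l) :=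
    (mem_side_or D w l _).resolve_left hc
  obtain ⟨t0, h0, a1, a2⟩ := cross_gen (isClosed_side D w l) (isClosed_side D _ _) (side_union D w l)
    ht.1 ((geo_str x y).1.mono (Icc_subset_Icc_right ht.2)) (by rwa [geo_zero]) hx'
  obtain ⟨t1, h1, b1, b2⟩ := cross_gen (isClosed_side D _ _) (isClosed_side D w l)
    (by rw [union_comm]; exact side_union D w l)
    ht.2 ((geo_str x y).1.mono (Icc_subset_Icc_left ht.1)) hx' (by rwa [geo_one])
  have := ((cvx_line D w l).infDist_convex (range_nonempty _) (geo_str x y)).le_max_of_mem_Icc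
    ⟨h0.1, h0.2.trans ht.2⟩ ⟨ht.1.trans h1.1, h1.2⟩ ⟨h0.2, h1.1⟩
  simp only [Metric.infDist_zero_of_mem (side_inter D a1 a2),
    Metric.infDist_zero_of_mem (side_inter D b2 b1), max_self] at this
  obtain ⟨s, hs⟩ := ((isometry_Lam D w l).isClosedEmbedding.isClosed_range.mem_iff_infDist_zero
    (range_nonempty _)).2 (le_antisymm this Metric.infDist_nonneg)
  exact hc (hs ▸ Lam_mem_side D w l s)

theorem isClosed_bd_side (w : Pl) (l : Step) : IsClosed (bd o (side D w l)) :=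
  isClosed_bd (cvx_side D w l) ⟨_, Lam_mem_side D w l 0⟩

theorem bd_line {w : Pl} {l : Step} {c : Bd o} (hc : c ∈ bd o (range (Lam D w l))) :
    ∃ b, c = pole D o w l.1 b := by
  obtain ⟨C, hC⟩ := hc
  have key : ∀ b, (∀ T : ℝ, ∃ t, T ≤ t ∧ ∃ s, 0 ≤ s ∧ dist (c.pt t) (Lam D w l (0 + sg b * s)) ≤ C) →
      c = pole D o w l.1 b := by
    intro b h
    rw [pole_eq D o w l b 0]
    refine eq_cls _ (D := 2 * C + dist o (Lam D w l 0)) fun T => ?_
    obtain ⟨t, ht, s, hs, h1⟩ := h (max T 0)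
    refine ⟨t, (le_max_left _ _).trans ht, ?_⟩
    rw [← Lam_ray]
    have h2 := c.dist_o ((le_max_right _ _).trans ht)
    have h3 := dist_Lam D w l 0 (0 + sg b * s)
    have h4 := dist_Lam D w l (0 + sg b * s) (0 + sg b * t)
    rw [zero_add, zero_sub, abs_neg, abs_mul, abs_sg, one_mul, abs_of_nonneg hs] at h3
    rw [add_sub_add_left_eq_sub, ← mul_sub, abs_mul, abs_sg, one_mul] at h4
    rw [zero_add] at h1
    have h5 := dist_triangle4 (Lam D w l 0) o (c.pt t) (Lam D w l (sg b * s))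
    have h6 := dist_triangle4 o (Lam D w l 0) (Lam D w l (sg b * s)) (c.pt t)
    have h7 := dist_triangle (c.pt t) (Lam D w l (0 + sg b * s)) (Lam D w l (0 + sg b * t))
    rw [dist_comm (Lam D w l 0) o] at h5
    rw [dist_comm (Lam D w l (sg b * s)) (c.pt t)] at h6
    have h8 : |s - t| ≤ C + dist o (Lam D w l 0) := abs_le.2 ⟨by linarith, by linarith⟩
    simp only [zero_add] at h7 h4 ⊢
    linarith
  by_cases h : ∀ T : ℝ, ∃ t, T ≤ t ∧ ∃ s, 0 ≤ s ∧ dist (c.pt t) (Lam D w l (0 + sg true * s)) ≤ C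
  · exact ⟨true, key true h⟩
  · push Not at h
    obtain ⟨T0, h⟩ := h
    refine ⟨false, key false fun T => ?_⟩
    obtain ⟨t, ht, _, ⟨s, rfl⟩, h1⟩ := hC (max T T0)
    refine ⟨t, (le_max_left _ _).trans ht, -s, ?_, by simpa [sg] using h1⟩
    by_contra hs
    have := h t ((le_max_right _ _).trans ht) s (by linarith)
    simp only [sg, cond_true, one_mul, zero_add] at this
    linarith

theorem bd_inter {w : Pl} {l : Step} {c : Bd o} (h1 : c ∈ bd o (side D w l))
    (h2 : c ∈ bd o (side D (nb w l) (bl w l))) : ∃ b, c = pole D o w l.1 b := by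
  apply bd_line
  rw [mem_bd_iff (cvx_side D _ _) ⟨_, Lam_mem_side D _ _ 0⟩] at h1 h2
  refine ⟨Metric.infDist o (side D w l) + Metric.infDist o (side D (nb w l) (bl w l)) + 1,
    fun T => ⟨max T 0, le_max_left _ _, ?_⟩⟩
  have n1 := Metric.infDist_nonneg (x := o) (s := side D w l)
  have n2 := Metric.infDist_nonneg (x := o) (s := side D (nb w l) (bl w l))
  rcases mem_side_or D w l (c.pt (max T 0)) with h | h
  · obtain ⟨a, ha, ha'⟩ := (Metric.infDist_lt_iff ⟨_, Lam_mem_side D _ _ 0⟩).1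
      ((h2 _ (le_max_right T 0)).trans_lt (lt_add_one _))
    obtain ⟨s, hs⟩ := side_sep D h ha
    exact ⟨_, ⟨s, rfl⟩, by linarith [dist_nonneg (x := Lam D w l s) (y := a)]⟩
  · obtain ⟨a, ha, ha'⟩ := (Metric.infDist_lt_iff ⟨_, Lam_mem_side D _ _ 0⟩).1
      ((h1 _ (le_max_right T 0)).trans_lt (lt_add_one _))
    obtain ⟨s, hs⟩ := side_sep D ha h
    rw [dist_comm a, dist_comm (Lam D w l s)] at hs
    exact ⟨_, ⟨s, rfl⟩, by linarith [dist_nonneg (x := a) (y := Lam D w l s)]⟩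

theorem dp_mem_bd {g w : Pl} {l : Step} (h : g ∈ Far w l) (v : ℝ × ℝ) :
    dp D o g v ∈ bd o (side D w l) := cls_mem_bd _ fun _ _ => ⟨g, h, _, rfl⟩

theorem dp_sep {g g' w : Pl} {l : Step} (h : g ∈ Far w l) (h' : g' ∉ Far w l) {v v' : ℝ × ℝ}
    (e : dp D o g v = dp D o g' v') : ∃ b, dp D o g v = pole D o w l.1 b :=
  bd_inter D o (dp_mem_bd D o h v) (e ▸ dp_mem_bd D o ((far_back w l g').2 h') v')

/-! ### blocks -/

def Blk (j : Bool) : Pl → Pl → Prop := Relation.ReflTransGen fun w w' => ∃ k, w' = nb w (j, k)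

theorem Blk.step (w : Pl) (l : Step) : Blk l.1 w (nb w l) := Relation.ReflTransGen.single ⟨l.2, rfl⟩

theorem Blk.symm {j : Bool} {w w' : Pl} (h : Blk j w w') : Blk j w' w := by
  induction h with
  | refl => exact Relation.ReflTransGen.refl
  | tail _ h ih =>
    obtain ⟨k, rfl⟩ := h
    exact Relation.ReflTransGen.head ⟨_, (nb_nb _ (j, k)).symm⟩ ih

theorem Blk.pole_eq {j : Bool} {w w' : Pl} (h : Blk j w w') (b : Bool) :
    pole D o w' j b = pole D o w j b := by
  induction h with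
  | refl => rfl
  | tail _ h ih =>
    obtain ⟨k, rfl⟩ := h
    exact (pole_nb D o _ (j, k) b).trans ih

theorem Blk.far {j : Bool} {w w' y : Pl} (h : Blk j w w') {l : Step} (hl : l.1 ≠ j)
    (hw : w ∈ Far y l) : w' ∈ Far y l := by
  induction h with
  | refl => exact hw
  | tail _ h ih =>
    obtain ⟨k, rfl⟩ := h
    rcases far_step ih (j, k) with h | ⟨-, h⟩
    · exact h
    · exact absurd (congrArg Prod.fst h).symm hl

theorem blk_of_pole {w : Pl} : ∀ x i b v, pole D o x i b = dp D o w v → Blk i x w := by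
  refine tree_ind w _ (fun _ _ _ _ => Relation.ReflTransGen.refl) ?_
  intro x l hl ih i b v h
  by_cases hi : i = l.1
  · subst hi
    exact (Blk.step x l).trans (ih _ b v ((pole_nb D o x l b).trans h))
  · obtain ⟨b', hb'⟩ := dp_sep D o hl (self_not_far x l) h.symm
    exact absurd (pole_inj D o (h.trans hb')).1 hi

theorem pole_eq_pole {x w : Pl} {i j b b' : Bool} (h : pole D o x i b = pole D o w j b') :
    i = j ∧ b = b' ∧ Blk i x w := by
  have h1 := blk_of_pole D o x i b _ h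
  have h2 := pole_inj D o ((h1.pole_eq D o b).trans h)
  exact ⟨h2.1, h2.2, h1⟩

/-! ### density -/

theorem exists_dp_near (c : Bd o) (T : ℝ) (hT : 0 ≤ T) :
    ∃ w v, (dp D o w v).pt T = c.pt T := by
  have hfin := planes_finite D o (T + 1)
  have : Infinite (Icc T (T + 1)) := Icc.infinite (by linarith)
  have := hfin.to_subtype
  have hex : ∀ t : Icc T (T + 1), ∃ w : {w : Pl | ∃ v, dist o (e D w v) ≤ T + 1}, ∃ v,
      c.pt t = e D w v := by
    intro t
    obtain ⟨w, v, h⟩ := exists_e D (c.pt t)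
    exact ⟨⟨w, v, by rw [← h, c.dist_o (hT.trans t.2.1)]; exact t.2.2⟩, v, h⟩
  choose f g hfg using hex
  obtain ⟨t1, t2, w, p1, p2, h12, hT1, e1, e2⟩ : ∃ t1 t2 w p1 p2, t1 < t2 ∧ T ≤ t1 ∧
      c.pt t1 = e D w p1 ∧ c.pt t2 = e D w p2 := by
    obtain ⟨a, b, hab, h⟩ := Finite.exists_ne_map_eq_of_infinite f
    rcases lt_or_gt_of_ne hab with h' | h'
    · exact ⟨a, b, f a, g a, g b, h', a.2.1, hfg a, h ▸ hfg b⟩
    · exact ⟨b, a, f a, g b, g a, h', b.2.1, h ▸ hfg b, hfg a⟩
  have h1 : 0 ≤ t1 := hT.trans hT1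
  have hd : 0 < t2 - t1 := by linarith
  set v := (t2 - t1)⁻¹ • (p2 - p1) with hv
  have hvn : ‖v‖ = 1 := by
    have := c.ray.1 t2 t1 (by linarith) h1
    rw [e1, e2, dist_e, dist_eq_norm, abs_of_pos hd] at this
    rw [hv, norm_smul, this, Real.norm_eq_abs, abs_of_pos (inv_pos.2 hd), inv_mul_cancel₀ hd.ne']
  have hr := isRay_ray D w (p1 - t1 • v) hvn
  set r := ray D w (p1 - t1 • v) v with hrd
  have r1 : r t1 = c.pt t1 := by rw [e1, hrd, ray, sub_add_cancel]
  have r2 : r t2 = c.pt t2 := by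
    rw [e2, hrd, ray]; congr 1
    rw [sub_add_eq_add_sub, add_sub_assoc, ← sub_smul, hv, smul_smul, mul_inv_cancel₀ hd.ne']; simp
  have hcr : ∀ t ∈ Icc t1 t2, c.pt t = r t := fun t ht =>
    Str.uniq (li_Sp D) (c.ray.2.mono (fun s hs => h1.trans hs.1) (convex_Icc _ _))
      (hr.2.mono (fun s hs => h1.trans hs.1) (convex_Icc _ _)) r1.symm r2.symm ht
  let γ : ℝ → Sp D := fun t => if t ≤ t2 then c.pt t else r t
  have g1 : ∀ t, t ≤ t2 → γ t = c.pt t := fun t ht => if_pos ht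
  have g2 : ∀ t, t1 ≤ t → γ t = r t := fun t ht => by
    by_cases h : t ≤ t2
    · rw [g1 t h, hcr t ⟨ht, h⟩]
    · exact if_neg h
  have lip : ∀ s t, 0 ≤ s → 0 ≤ t → dist (γ s) (γ t) ≤ |s - t| := by
    have A : ∀ s t, 0 ≤ s → s ≤ t → dist (γ s) (γ t) ≤ |s - t| := by
      intro s t hs hst
      by_cases a : t ≤ t2
      · rw [g1 s (hst.trans a), g1 t a, c.ray.1 s t hs (hs.trans hst)]
      by_cases b : t1 ≤ s
      · rw [g2 s b, g2 t (b.trans hst), hr.1 s t hs (hs.trans hst)]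
      have q := dist_triangle (γ s) (γ t1) (γ t)
      nth_rw 1 [g1 t1 h12.le] at q
      rw [g2 t1 le_rfl, g1 s (by linarith), g2 t (by linarith), c.ray.1 s t1 hs h1,
        hr.1 t1 t h1 (hs.trans hst), abs_of_nonpos (by linarith), abs_of_nonpos (by linarith)] at q
      rw [g1 s (by linarith), g2 t (by linarith), abs_of_nonpos (by linarith)]
      linarith
    intro s t hs ht
    rcases le_total s t with h | h
    · exact A s t hs h
    · rw [dist_comm, abs_sub_comm]; exact A t s ht h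
  have hγ : IsRay γ := by
    refine isRay_of_loc lip (fun z => convexOn_glue h1 h12 ?_ ?_ ?_) fun a ha => ?_
    · refine continuous_const.dist continuous_id |>.comp_continuousOn
        (LipschitzOnWith.of_dist_le_mul (K := 1) fun s hs t ht => ?_).continuousOn
      rw [Real.dist_eq, NNReal.coe_one, one_mul]; exact lip s t hs ht
    · exact ((c.ray.2.2 z).subset (fun s hs => hs.1) (convex_Icc _ _)).congr
        fun s hs => by simp only [g1 s hs.2]
    · exact ((hr.2.2 z).subset (fun s hs => h1.trans hs) (convex_Ici _)).congr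
        fun s hs => by simp only [g2 s hs]
    · rcases lt_or_ge a t2 with h | h
      · refine ⟨t2, h, ?_⟩
        rw [g1 a h.le, g1 t2 le_rfl, c.ray.1 a t2 ha (by linarith), abs_of_nonpos (by linarith)]; ring
      · refine ⟨a + 1, by linarith, ?_⟩
        rw [g2 a (by linarith), g2 _ (by linarith), hr.1 a _ ha (by linarith),
          abs_of_nonpos (by linarith)]; ring
  have g0 : γ 0 = o := by rw [g1 0 (by linarith), c.zero]
  refine ⟨w, v, ?_⟩
  rw [← cls_ray D o w _ hvn, ← eq_cls hr (c := mkBd γ hγ g0) (D := 0) fun S => ⟨max S t1,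
    le_max_left _ _, by
      rw [mkBd_pt _ _ _ (h1.trans (le_max_right _ _)), g2 _ (le_max_right _ _), dist_self]⟩,
    mkBd_pt _ _ _ hT, g1 T (by linarith)]

theorem dense_dp : Dense {c : Bd o | ∃ w v, c = dp D o w v} := by
  intro c
  choose w v h using fun n : ℕ => exists_dp_near D o c n (Nat.cast_nonneg n)
  refine mem_closure_of_tendsto (f := fun n => dp D o (w n) (v n)) (b := atTop)
    (tendsto_Bd fun t ht => tendsto_const_nhds.congr' ?_) (Eventually.of_forall fun n => ⟨_, _, rfl⟩)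
  filter_upwards [(tendsto_natCast_atTop_atTop (R := ℝ)).eventually_ge_atTop t] with n hn
  have := ray_mono c.ray (dp D o (w n) (v n)).ray (by rw [Bd.zero, Bd.zero]) ht hn
  rw [h, dist_self] at this
  exact dist_le_zero.1 this

end Pool.Agent.P.MP_318c20_al
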