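import Pool.Agent.P.MP_318c20_al.Convex

namespace Pool.Agent.P.MP_318c20_al

open Set Filter Topology

variable {X : Type} [MetricSpace X]

/-- Helly property with nonnegative radii -/
def Helly (X : Type) [MetricSpace X] : Prop :=
  ∀ (ι : Type) (x : ι → X) (r : ι → ℝ),
    (∀ i j, dist (x i) (x j) ≤ r i + r j) → ∃ z : X, ∀ i, dist z (x i) ≤ r i

/-- local four point inequality -/
def LI (X : Type) [MetricSpace X] : Prop :=
  ∀ x0 y0 : X, ∃ δ > 0, ∀ x y, dist x x0 < δ → dist y y0 < δ →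
    dist x0 y0 + dist x y ≤ dist x0 y + dist x y0

/-- straight curves -/
def Str (I : Set ℝ) (γ : ℝ → X) : Prop :=
  ContinuousOn γ I ∧ ∀ z, ConvexOn ℝ I (fun t => dist z (γ t))

theorem Str.mono {I J : Set ℝ} {γ : ℝ → X} (h : Str I γ) (hJ : J ⊆ I) (hc : Convex ℝ J) :
    Str J γ := ⟨h.1.mono hJ, fun z => (h.2 z).subset hJ hc⟩

theorem Str.congr {I : Set ℝ} {γ γ' : ℝ → X} (h : Str I γ) (he : ∀ t ∈ I, γ t = γ' t) :
    Str I γ' := ⟨h.1.congr fun t ht => (he t ht).symm,
      fun z => (h.2 z).congr fun t ht => by simp only [he t ht]⟩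

theorem Str.affine {I J : Set ℝ} {γ : ℝ → X} (h : Str I γ) (a b : ℝ) (hc : Convex ℝ J)
    (hJ : ∀ t ∈ J, a * t + b ∈ I) : Str J (fun t => γ (a * t + b)) := by
  refine ⟨h.1.comp (by fun_prop) hJ, fun z => ⟨hc, fun x hx y hy p q hp hq hpq => ?_⟩⟩
  have := (h.2 z).2 (hJ x hx) (hJ y hy) hp hq hpq
  simp only [smul_eq_mul] at this ⊢
  have e : p * (a * x + b) + q * (a * y + b) = a * (p * x + q * y) + b := by
    have : q = 1 - p := by linarith
    subst this; ring
  rwa [e] at this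

theorem conv2 (hL : LI X) {I : Set ℝ} {α β : ℝ → X} (hα : Str I α) (hβ : Str I β) :
    ConvexOn ℝ I (fun t => dist (α t) (β t)) := by
  have hI : Convex ℝ I := (hα.2 (α 0)).1
  refine convexOn_of_mid hI (continuous_dist.comp_continuousOn (hα.1.prodMk hβ.1)) ?_
  intro a ha b hb t hat htb
  have hsub : Icc a b ⊆ I := hI.ordConnected.out ha hb
  have hnh : I ∈ 𝓝 t := mem_of_superset (Icc_mem_nhds hat htb) hsub
  have ht : t ∈ I := mem_of_mem_nhds hnh
  obtain ⟨δ, hδ, hd⟩ := hL (α t) (β t)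
  have c1 : ContinuousAt α t := hα.1.continuousAt hnh
  have c2 : ContinuousAt β t := hβ.1.continuousAt hnh
  obtain ⟨e1, he1, h1⟩ := Metric.continuousAt_iff.1 c1 δ hδ
  obtain ⟨e2, he2, h2⟩ := Metric.continuousAt_iff.1 c2 δ hδ
  obtain ⟨e, he, p1, p2, p3, p4⟩ : ∃ e, 0 < e ∧ e ≤ t - a ∧ e ≤ b - t ∧ e < e1 ∧ e < e2 := by
    refine ⟨min (min (t - a) (b - t)) (min (e1 / 2) (e2 / 2)), ?_, ?_, ?_, ?_, ?_⟩
    · simp only [lt_min_iff]; refine ⟨⟨?_, ?_⟩, ?_, ?_⟩ <;> linarith
    · exact (min_le_left _ _).trans (min_le_left _ _)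
    · exact (min_le_left _ _).trans (min_le_right _ _)
    · exact lt_of_le_of_lt ((min_le_right _ _).trans (min_le_left _ _)) (by linarith)
    · exact lt_of_le_of_lt ((min_le_right _ _).trans (min_le_right _ _)) (by linarith)
  refine ⟨e, he, by linarith, by linarith, ?_⟩
  have m1 : t - e ∈ I := hsub ⟨by linarith, by linarith⟩
  have m2 : t + e ∈ I := hsub ⟨by linarith, by linarith⟩
  have k := hd (α (t + e)) (β (t - e))
    (h1 (by rw [Real.dist_eq]; simp [abs_of_pos he, p3]))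
    (h2 (by rw [Real.dist_eq]; simp [abs_of_pos he, p4]))
  have k1 := ConvexOn.mid_le (hβ.2 (α (t + e))) m1 m2
  have k2 := ConvexOn.mid_le (hα.2 (β (t - e))) m1 m2
  simp only [dist_comm (β (t - e))] at k2
  linarith

theorem Str.uniq (hL : LI X) {a b : ℝ} {α β : ℝ → X} (hα : Str (Icc a b) α)
    (hβ : Str (Icc a b) β) (ha : α a = β a) (hb : α b = β b) {t : ℝ} (ht : t ∈ Icc a b) :
    α t = β t := by
  have h := (conv2 hL hα hβ).le_max_of_mem_Icc ⟨le_rfl, ht.1.trans ht.2⟩ ⟨ht.1.trans ht.2, le_rfl⟩ ht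
  simp only [ha, hb, dist_self, max_self] at h
  exact dist_le_zero.1 h

/-- conical midpoint map -/
theorem exists_mid (hH : Helly X) : ∃ m : X → X → X, (∀ z, m z z = z) ∧
    ∀ x y x' y', 2 * dist (m x y) (m x' y') ≤ dist x x' + dist y y' := by
  let S : Set (Set ((X × X) × X)) :=
    {Γ | ∀ p ∈ Γ, ∀ q ∈ Γ, 2 * dist p.2 q.2 ≤ dist p.1.1 q.1.1 + dist p.1.2 q.1.2}
  have h0 : range (fun z : X => ((z, z), z)) ∈ S := by
    rintro _ ⟨z, rfl⟩ _ ⟨w, rfl⟩
    simp only; linarith
  obtain ⟨Γ, hΓ0, hΓ⟩ := zorn_subset_nonempty S (by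
    intro c hc hch _
    refine ⟨⋃₀ c, ?_, fun s hs => subset_sUnion_of_mem hs⟩
    rintro p ⟨s, hs, hp⟩ q ⟨s', hs', hq⟩
    rcases hch.total hs hs' with h | h
    · exact hc hs' p (h hp) q hq
    · exact hc hs p hp q (h hq)) _ h0
  have hex : ∀ y : X × X, ∃ z, (y, z) ∈ Γ := by
    intro y
    obtain ⟨z, hz⟩ := hH Γ (fun p => p.1.2)
      (fun p => (dist y.1 p.1.1.1 + dist y.2 p.1.1.2) / 2) (by
        intro p q
        have := hΓ.1 p.1 p.2 q.1 q.2
        have t1 := dist_triangle_left p.1.1.1 q.1.1.1 y.1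
        have t2 := dist_triangle_left p.1.1.2 q.1.1.2 y.2
        linarith)
    refine ⟨z, ?_⟩
    have hS : insert (y, z) Γ ∈ S := by
      intro p hp q hq
      rcases hp with rfl | hp <;> rcases hq with rfl | hq
      · simp
      · have := hz ⟨q, hq⟩; simp only at this ⊢; linarith
      · have := hz ⟨p, hp⟩; simp only at this ⊢
        rw [dist_comm p.2, dist_comm p.1.1, dist_comm p.1.2]; linarith
      · exact hΓ.1 p hp q hq
    exact hΓ.2 hS (subset_insert _ _) (mem_insert _ _)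
  choose g hg using hex
  refine ⟨fun x y => g (x, y), fun z => ?_, fun x y x' y' => hΓ.1 _ (hg (x, y)) _ (hg (x', y'))⟩
  have := hΓ.1 _ (hg (z, z)) ((z, z), z) (hΓ0 ⟨z, rfl⟩)
  simp only [dist_self] at this
  exact dist_le_zero.1 (by linarith)

/-- discrete straight chains -/
theorem exists_chain [CompleteSpace X] (hH : Helly X) (x y : X) (n : ℕ) :
    ∃ p : ℕ → X, p 0 = x ∧ p (n + 1) = y ∧
      ∀ i, i < n → ∀ z, 2 * dist z (p (i + 1)) ≤ dist z (p i) + dist z (p (i + 2)) := by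
  obtain ⟨m, hm0, hm⟩ := exists_mid hH
  let Φ : (ℕ → X) → (ℕ → X) := fun p i =>
    if i = 0 then x else if n + 1 ≤ i then y else m (p (i - 1)) (p (i + 1))
  let w : ℕ → ℝ := fun i => 1 + (i : ℝ) * ((n : ℝ) + 1 - i)
  set W : ℝ := 1 + ((n : ℝ) + 1) ^ 2 with hW
  have hW1 : 1 ≤ W := by rw [hW]; nlinarith [sq_nonneg ((n : ℝ) + 1)]
  have hw1 : ∀ i, i ≤ n + 1 → 1 ≤ w i := by
    intro i hi
    have : (i : ℝ) ≤ n + 1 := by exact_mod_cast hi
    have h0 : (0 : ℝ) ≤ i := Nat.cast_nonneg i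
    simp only [w]; nlinarith
  have hwW : ∀ i, i ≤ n + 1 → w i ≤ W := by
    intro i hi
    have : (i : ℝ) ≤ n + 1 := by exact_mod_cast hi
    have h0 : (0 : ℝ) ≤ i := Nat.cast_nonneg i
    simp only [w, hW]; nlinarith
  set l : ℝ := 1 - 1 / W with hl
  have hl0 : 0 ≤ l := by
    rw [hl, sub_nonneg, div_le_one (by linarith)]; exact hW1
  have hl1 : l < 1 := by
    rw [hl]; have : 0 < 1 / W := by positivity
    linarith
  have step : ∀ (p q : ℕ → X) (D : ℝ), 0 ≤ D → (∀ i, i ≤ n + 1 → dist (p i) (q i) ≤ D * w i) →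
      ∀ i, i ≤ n + 1 → dist (Φ p i) (Φ q i) ≤ D * l * w i := by
    intro p q D hD h i hi
    have hwi := hw1 i hi
    by_cases h0 : i = 0
    · simp only [Φ, h0, if_true, dist_self]; rw [h0] at hwi; positivity
    by_cases h1 : n + 1 ≤ i
    · simp only [Φ, h0, h1, if_true, if_false, dist_self]; positivity
    simp only [Φ, h0, h1, if_false]
    obtain ⟨k, rfl⟩ := Nat.exists_eq_succ_of_ne_zero h0
    have a1 := h k (by omega)
    have a2 := h (k + 1 + 1) (by omega)
    have a3 := hm (p k) (p (k + 1 + 1)) (q k) (q (k + 1 + 1))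
    simp only [Nat.succ_eq_add_one, Nat.add_sub_cancel]
    have e1 : w k + w (k + 1 + 1) = 2 * (w (k + 1) - 1) := by
      simp only [w]; push_cast; ring
    have e2 : w (k + 1) - 1 ≤ l * w (k + 1) := by
      have := hwW (k + 1) hi
      have h3 : w (k + 1) / W ≤ 1 := by rw [div_le_one (by linarith)]; exact this
      rw [hl]
      have : (1 - 1 / W) * w (k + 1) = w (k + 1) - w (k + 1) / W := by ring
      linarith
    have e3 : D * (w (k + 1) - 1) ≤ D * (l * w (k + 1)) := mul_le_mul_of_nonneg_left e2 hD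
    nlinarith
  let p0 : ℕ → X := fun _ => x
  obtain ⟨C, hC0, hC⟩ : ∃ C, 0 ≤ C ∧ ∀ i, i ≤ n + 1 → dist (p0 i) (Φ p0 i) ≤ C * w i := by
    refine ⟨dist x y, dist_nonneg, fun i hi => ?_⟩
    have hwi := hw1 i hi
    have : dist (p0 i) (Φ p0 i) ≤ dist x y := by
      simp only [Φ, p0]
      split_ifs
      · simp
      · exact le_rfl
      · simp [hm0]
    nlinarith [dist_nonneg (x := x) (y := y)]
  have it : ∀ k i, i ≤ n + 1 → dist (Φ^[k] p0 i) (Φ^[k + 1] p0 i) ≤ C * l ^ k * w i := by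
    intro k
    induction k with
    | zero => simpa using hC
    | succ k ih =>
      intro i hi
      have := step _ _ (C * l ^ k) (by positivity) ih i hi
      rw [Function.iterate_succ_apply' Φ (k + 1), Function.iterate_succ_apply' Φ k]
      rw [Function.iterate_succ_apply' Φ k] at this
      calc _ ≤ _ := this
        _ = _ := by ring
  have hcau : ∀ i, ∃ a, i ≤ n + 1 → Tendsto (fun k => Φ^[k] p0 i) atTop (𝓝 a) := by
    intro i
    by_cases hi : i ≤ n + 1
    · obtain ⟨a, ha⟩ := cauchySeq_tendsto_of_complete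
        (cauchySeq_of_le_geometric l (C * w i) hl1 (f := fun k => Φ^[k] p0 i)
          (fun k => (it k i hi).trans (le_of_eq (by ring))))
      exact ⟨a, fun _ => ha⟩
    · exact ⟨x, fun h => absurd h hi⟩
  choose p hp using hcau
  have hshift : ∀ i, i ≤ n + 1 → Tendsto (fun k => Φ (Φ^[k] p0) i) atTop (𝓝 (p i)) := by
    intro i hi
    have := (tendsto_add_atTop_iff_nat 1).2 (hp i hi)
    simpa only [Function.iterate_succ_apply'] using this
  refine ⟨p, ?_, ?_, ?_⟩
  · have := hshift 0 (by omega)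
    simp only [Φ, if_true] at this
    exact (tendsto_const_nhds_iff.1 this).symm
  · have := hshift (n + 1) le_rfl
    simp only [Φ, Nat.add_eq_zero_iff, one_ne_zero, and_false, if_false, le_refl, if_true] at this
    exact (tendsto_const_nhds_iff.1 this).symm
  · intro i hi z
    have t1 := ((tendsto_const_nhds (x := z)).dist (hshift (i + 1) (by omega))).const_mul 2
    have t2 := ((tendsto_const_nhds (x := z)).dist (hp i (by omega))).add
      ((tendsto_const_nhds (x := z)).dist (hp (i + 2) (by omega)))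
    refine le_of_tendsto_of_tendsto' t1 t2 fun k => ?_
    have h1 : ¬ (n + 1 ≤ i + 1) := by omega
    simp only [Φ, Nat.add_eq_zero_iff, one_ne_zero, and_false, if_false, h1, Nat.add_sub_cancel]
    have := hm z z (Φ^[k] p0 i) (Φ^[k] p0 (i + 1 + 1))
    rwa [hm0] at this

theorem discrete_sym {φ : ℕ → ℝ} {n : ℕ}
    (h : ∀ i, i < n → 2 * φ (i + 1) ≤ φ i + φ (i + 2)) :
    (∀ i j, i ≤ j → j ≤ n → φ (i + 1) - φ i ≤ φ (j + 1) - φ j) ∧
    (∀ e i, e ≤ i → i + e ≤ n + 1 → 2 * φ i ≤ φ (i - e) + φ (i + e)) := by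
  have A : ∀ i j, i ≤ j → j ≤ n → φ (i + 1) - φ i ≤ φ (j + 1) - φ j := by
    intro i j hij
    induction j, hij using Nat.le_induction with
    | base => intro _; exact le_rfl
    | succ j _ ih =>
      intro hj
      have := h j (by omega)
      have := ih (by omega)
      linarith
  refine ⟨A, ?_⟩
  intro e
  induction e with
  | zero => intro i _ _; simp; linarith
  | succ e ih =>
    intro i h1 h2
    have := ih i (by omega) (by omega)
    have a := A (i - (e + 1)) (i + e) (by omega) (by omega)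
    have e1 : i - (e + 1) + 1 = i - e := by omega
    rw [e1] at a
    have e2 : i + (e + 1) = i + e + 1 := by omega
    rw [e2]
    linarith

theorem chain_step {p : ℕ → X} {n : ℕ}
    (h : ∀ i, i < n → ∀ z, 2 * dist z (p (i + 1)) ≤ dist z (p i) + dist z (p (i + 2))) :
    ∀ i j, i ≤ j → j ≤ n + 1 →
      ((n : ℝ) + 1) * dist (p i) (p j) ≤ ((j : ℝ) - i) * dist (p 0) (p (n + 1)) := by
  have A : ∀ i, i ≤ n → dist (p i) (p (i + 1)) = dist (p 0) (p 1) := by
    intro i
    induction i with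
    | zero => intro _; rfl
    | succ i ih =>
      intro hi
      have h1 := h i (by omega) (p i)
      have h2 := h i (by omega) (p (i + 2))
      have t := dist_triangle (p i) (p (i + 1)) (p (i + 2))
      simp only [dist_self] at h1 h2
      rw [dist_comm (p (i + 2)) (p (i + 1)), dist_comm (p (i + 2)) (p i)] at h2
      rw [← ih (by omega)]
      linarith
  have B : ∀ i, i ≤ n + 1 → (i : ℝ) * dist (p 0) (p 1) ≤ dist (p 0) (p i) := by
    intro i
    induction i with
    | zero => intro _; simp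
    | succ i ih =>
      intro hi
      have := (discrete_sym (φ := fun i => dist (p 0) (p i)) (n := n)
        (fun i hi => h i hi (p 0))).1 0 i (Nat.zero_le _) (by omega)
      simp only [dist_self, zero_add] at this
      have := ih (by omega)
      push_cast; linarith
  have Cc : ∀ i j, i ≤ j → j ≤ n + 1 → dist (p i) (p j) ≤ ((j : ℝ) - i) * dist (p 0) (p 1) := by
    intro i j hij
    induction j, hij using Nat.le_induction with
    | base => intro _; simp
    | succ j _ ih =>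
      intro hj
      have := ih (by omega)
      have t := dist_triangle (p i) (p j) (p (j + 1))
      rw [A j (by omega)] at t
      push_cast; linarith
  intro i j hij hj
  have h1 := Cc i j hij hj
  have h2 := B (n + 1) le_rfl
  have h3 : (0 : ℝ) ≤ (j : ℝ) - i := by
    have : (i : ℝ) ≤ j := by exact_mod_cast hij
    linarith
  push_cast at h2
  have h4 : (0 : ℝ) ≤ (n : ℝ) + 1 := by positivity
  calc _ ≤ ((n : ℝ) + 1) * (((j : ℝ) - i) * dist (p 0) (p 1)) := mul_le_mul_of_nonneg_left h1 h4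
    _ = ((j : ℝ) - i) * (((n : ℝ) + 1) * dist (p 0) (p 1)) := by ring
    _ ≤ _ := mul_le_mul_of_nonneg_left h2 h3

theorem exists_ulim [ProperSpace X] {ι : Type} (U : Ultrafilter ι) (f : ι → X) (o : X) (R : ℝ)
    (h : ∀ᶠ i in U, dist (f i) o ≤ R) : ∃ a, Tendsto f U (𝓝 a) := by
  obtain ⟨a, _, ha⟩ := (isCompact_closedBall o R).ultrafilter_le_nhds (U.map f)
    (by rw [le_principal_iff]; exact h)
  exact ⟨a, ha⟩

theorem exists_str [ProperSpace X] (hH : Helly X) (x y : X) :
    ∃ γ : ℝ → X, γ 0 = x ∧ γ 1 = y ∧ Str (Icc 0 1) γ ∧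
      ∀ s ∈ Icc (0 : ℝ) 1, ∀ t ∈ Icc (0 : ℝ) 1, dist (γ s) (γ t) = |s - t| * dist x y := by
  choose p hp0 hp1 hp using exists_chain hH x y
  set L := dist x y with hL
  have hL0 : 0 ≤ L := dist_nonneg
  have hst : ∀ n i j : ℕ, i ≤ n + 1 → j ≤ n + 1 →
      ((n : ℝ) + 1) * dist (p n i) (p n j) ≤ |(i : ℝ) - j| * L := by
    intro n i j hi hj
    rcases le_total i j with h | h
    · have := chain_step (hp n) i j h hj
      rw [hp0, hp1] at this
      have h' : (i : ℝ) ≤ j := by exact_mod_cast h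
      rwa [abs_sub_comm, abs_of_nonneg (by linarith)]
    · have := chain_step (hp n) j i h hi
      rw [hp0, hp1, dist_comm] at this
      have h' : (j : ℝ) ≤ i := by exact_mod_cast h
      rwa [abs_of_nonneg (by linarith)]
  let U : Ultrafilter ℕ := Filter.hyperfilter ℕ
  have hU : (U : Filter ℕ) ≤ atTop := by
    rw [← Nat.cofinite_eq_atTop]; exact hyperfilter_le_cofinite
  let ix : ℕ → ℝ → ℕ := fun n t => ⌊t * ((n : ℝ) + 1)⌋₊
  have hix : ∀ n, ∀ t ∈ Icc (0 : ℝ) 1, ix n t ≤ n + 1 ∧ (ix n t : ℝ) ≤ t * ((n : ℝ) + 1) ∧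
      t * ((n : ℝ) + 1) < ix n t + 1 := by
    intro n t ht
    have h0 : 0 ≤ t * ((n : ℝ) + 1) := mul_nonneg ht.1 (by positivity)
    refine ⟨?_, Nat.floor_le h0, Nat.lt_floor_add_one _⟩
    apply Nat.floor_le_of_le
    push_cast
    nlinarith [ht.2]
  have hlim : ∀ t, ∃ a, t ∈ Icc (0 : ℝ) 1 → Tendsto (fun n => p n (ix n t)) U (𝓝 a) := by
    intro t
    by_cases ht : t ∈ Icc (0 : ℝ) 1
    · obtain ⟨a, ha⟩ := exists_ulim U (fun n => p n (ix n t)) x L (Eventually.of_forall fun n => by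
        have h1 := hst n (ix n t) 0 (hix n t ht).1 (Nat.zero_le _)
        rw [hp0] at h1
        have h2 : |((ix n t : ℕ) : ℝ) - ((0 : ℕ) : ℝ)| ≤ (n : ℝ) + 1 := by
          have : ((ix n t : ℕ) : ℝ) ≤ (n : ℝ) + 1 := by exact_mod_cast (hix n t ht).1
          simpa using this
        have h3 : ((n : ℝ) + 1) * dist (p n (ix n t)) x ≤ ((n : ℝ) + 1) * L :=
          h1.trans (mul_le_mul_of_nonneg_right h2 hL0)
        exact le_of_mul_le_mul_left h3 (by positivity))
      exact ⟨a, fun _ => ha⟩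
    · exact ⟨x, fun h => absurd h ht⟩
  choose γ hγ using hlim
  have hsmall : ∀ c : ℝ, Tendsto (fun n : ℕ => c / ((n : ℝ) + 1)) U (𝓝 0) := by
    intro c
    have := (tendsto_one_div_add_atTop_nhds_zero_nat (𝕜 := ℝ)).const_mul c
    simp only [mul_zero, mul_one_div] at this
    exact this.mono_left hU
  have hlip : ∀ s ∈ Icc (0 : ℝ) 1, ∀ t ∈ Icc (0 : ℝ) 1, dist (γ s) (γ t) ≤ |s - t| * L := by
    intro s hs t ht
    have t1 := (hγ s hs).dist (hγ t ht)
    have t2 := (hsmall L).const_add (|s - t| * L)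
    rw [add_zero] at t2
    refine le_of_tendsto_of_tendsto' t1 t2 fun n => ?_
    have h1 := hst n (ix n s) (ix n t) (hix n s hs).1 (hix n t ht).1
    obtain ⟨_, a1, a2⟩ := hix n s hs
    obtain ⟨_, b1, b2⟩ := hix n t ht
    have hn : (0 : ℝ) < (n : ℝ) + 1 := by positivity
    have h2 : |((ix n s : ℕ) : ℝ) - (ix n t : ℕ)| ≤ |s - t| * ((n : ℝ) + 1) + 1 := by
      have c1 : (s - t) * ((n : ℝ) + 1) ≤ |s - t| * ((n : ℝ) + 1) :=
        mul_le_mul_of_nonneg_right (le_abs_self _) hn.le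
      have c2 : -(s - t) * ((n : ℝ) + 1) ≤ |s - t| * ((n : ℝ) + 1) :=
        mul_le_mul_of_nonneg_right (neg_le_abs _) hn.le
      rw [abs_le]; constructor <;> nlinarith
    have h3 := h1.trans (mul_le_mul_of_nonneg_right h2 hL0)
    have e : |s - t| * L + L / ((n : ℝ) + 1)
        = (|s - t| * ((n : ℝ) + 1) + 1) * L / ((n : ℝ) + 1) := by field_simp
    rw [e, le_div_iff₀ hn]; linarith
  have hcont : ContinuousOn γ (Icc 0 1) := by
    refine (LipschitzOnWith.of_dist_le_mul (K := ⟨L, hL0⟩) fun s hs t ht => ?_).continuousOn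
    rw [Real.dist_eq, mul_comm]; exact hlip s hs t ht
  have g0 : γ 0 = x := by
    have := hγ 0 ⟨le_rfl, zero_le_one⟩
    simp only [ix, zero_mul, Nat.floor_zero, hp0] at this
    exact (tendsto_const_nhds_iff.1 this).symm
  have g1 : γ 1 = y := by
    have := hγ 1 ⟨zero_le_one, le_rfl⟩
    have e : ∀ n : ℕ, ⌊(1 : ℝ) * ((n : ℝ) + 1)⌋₊ = n + 1 := by
      intro n; rw [one_mul]; exact_mod_cast Nat.floor_natCast (R := ℝ) (n + 1)
    simp only [ix, e, hp1] at this
    exact (tendsto_const_nhds_iff.1 this).symm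
  have hconv : ∀ z, ConvexOn ℝ (Icc 0 1) (fun t => dist z (γ t)) := by
    intro z
    refine convexOn_of_mid (convex_Icc 0 1) (continuous_const.dist continuous_id |>.comp_continuousOn hcont) ?_
    intro a ha b hb t hat htb
    set e := min (t - a) (b - t) with he
    have e1 : e ≤ t - a := min_le_left _ _
    have e2 : e ≤ b - t := min_le_right _ _
    have e0 : 0 < e := by rw [he, lt_min_iff]; constructor <;> linarith
    have ht : t ∈ Icc (0 : ℝ) 1 := ⟨by linarith [ha.1], by linarith [hb.2]⟩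
    have hm : t - e ∈ Icc (0 : ℝ) 1 := ⟨by linarith [ha.1], by linarith [hb.2]⟩
    have hpl : t + e ∈ Icc (0 : ℝ) 1 := ⟨by linarith [ha.1], by linarith [hb.2]⟩
    have hE : e ∈ Icc (0 : ℝ) 1 := ⟨e0.le, by linarith [ha.1, hb.2]⟩
    refine ⟨e, e0, by linarith, by linarith, ?_⟩
    have t1 := ((tendsto_const_nhds (x := z)).dist (hγ t ht)).const_mul 2
    have t2 := (((tendsto_const_nhds (x := z)).dist (hγ _ hm)).add
      ((tendsto_const_nhds (x := z)).dist (hγ _ hpl))).add (hsmall (4 * L))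
    rw [add_zero] at t2
    refine le_of_tendsto_of_tendsto' t1 t2 fun n => ?_
    obtain ⟨a0, a1, a2⟩ := hix n t ht
    obtain ⟨b0, b1, b2⟩ := hix n e hE
    obtain ⟨c0, c1, c2⟩ := hix n _ hm
    obtain ⟨d0, d1, d2⟩ := hix n _ hpl
    have hn : (0 : ℝ) < (n : ℝ) + 1 := by positivity
    have k1 : ix n e ≤ ix n t := Nat.floor_le_floor (by nlinarith [ha.1])
    have k2 : ix n t + ix n e ≤ n + 1 := by
      have : ((ix n t : ℕ) : ℝ) + (ix n e : ℕ) ≤ (n : ℝ) + 1 := by nlinarith [hpl.2]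
      exact_mod_cast this
    have s1 := (discrete_sym (φ := fun i => dist z (p n i)) (n := n)
      (fun i hi => hp n i hi z)).2 _ _ k1 k2
    have s2 := hst n (ix n t - ix n e) (ix n (t - e)) (by omega) c0
    have s3 := hst n (ix n t + ix n e) (ix n (t + e)) k2 d0
    have q2 : |((ix n t - ix n e : ℕ) : ℝ) - (ix n (t - e) : ℕ)| ≤ 2 := by
      rw [Nat.cast_sub k1, abs_le]; constructor <;> nlinarith
    have q3 : |((ix n t + ix n e : ℕ) : ℝ) - (ix n (t + e) : ℕ)| ≤ 2 := by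
      push_cast; rw [abs_le]; constructor <;> nlinarith
    have r2 : dist (p n (ix n t - ix n e)) (p n (ix n (t - e))) ≤ 2 * L / ((n : ℝ) + 1) := by
      rw [le_div_iff₀ hn]; nlinarith [mul_le_mul_of_nonneg_right q2 hL0]
    have r3 : dist (p n (ix n t + ix n e)) (p n (ix n (t + e))) ≤ 2 * L / ((n : ℝ) + 1) := by
      rw [le_div_iff₀ hn]; nlinarith [mul_le_mul_of_nonneg_right q3 hL0]
    have u2 := dist_triangle z (p n (ix n (t - e))) (p n (ix n t - ix n e))
    have u3 := dist_triangle z (p n (ix n (t + e))) (p n (ix n t + ix n e))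
    have e4 : 4 * L / ((n : ℝ) + 1) = 2 * L / ((n : ℝ) + 1) + 2 * L / ((n : ℝ) + 1) := by ring
    rw [dist_comm] at r2 r3
    linarith
  refine ⟨γ, g0, g1, ⟨hcont, hconv⟩, ?_⟩
  have low : ∀ s ∈ Icc (0 : ℝ) 1, ∀ t ∈ Icc (0 : ℝ) 1, s ≤ t → (t - s) * L ≤ dist (γ s) (γ t) := by
    intro s hs t ht _
    have a1 := hlip 0 ⟨le_rfl, zero_le_one⟩ s hs
    have a2 := hlip t ht 1 ⟨zero_le_one, le_rfl⟩
    rw [g0, zero_sub, abs_neg, abs_of_nonneg hs.1] at a1
    rw [g1, abs_of_nonpos (by linarith [ht.2])] at a2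
    have := dist_triangle4 x (γ s) (γ t) y
    linarith
  intro s hs t ht
  refine le_antisymm (hlip s hs t ht) ?_
  rcases le_total s t with h | h
  · rw [abs_sub_comm, abs_of_nonneg (by linarith)]; exact low s hs t ht h
  · rw [abs_of_nonneg (by linarith), dist_comm]; exact low t ht s hs h

end Pool.Agent.P.MP_318c20_al
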