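import Pool.Agent.P.MP_318c20_al.Space
import Pool.Agent.P.MP_318c20_al.Straight

namespace Pool.Agent.P.MP_318c20_al

open Set Filter Topology

def Box (φ : ℝ × ℝ → ℝ) : Prop :=
  ∃ a1 a2 a3 a4 : ℝ, ∀ u s, φ (u, s) = max (max (u + a1) (-u + a2)) (max (s + a3) (-s + a4))

theorem Box.shift {φ : ℝ × ℝ → ℝ} (h : Box φ) (j : Bool) (c : ℝ × ℝ) :
    Box fun z => φ (sw j (z + c)) := by
  obtain ⟨a1, a2, a3, a4, h⟩ := h
  cases j
  · refine ⟨a1 + c.1, a2 - c.1, a3 + c.2, a4 - c.2, fun u s => ?_⟩
    change φ (u + c.1, s + c.2) = _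
    rw [h]; congr 2 <;> ring
  · refine ⟨a3 + c.1, a4 - c.1, a1 + c.2, a2 - c.2, fun u s => ?_⟩
    change φ (s + c.2, u + c.1) = _
    rw [h, max_comm]; congr 2 <;> ring

theorem axis_formula {h a b u s φ : ℝ} (hab : a + b ≤ 2 * h)
    (h1 : ∀ t, φ ≤ max h (max (t + a) (-t + b)) + max |u| |t - s|)
    (h2 : ∃ t, φ = max h (max (t + a) (-t + b)) + max |u| |t - s|) :
    φ = max (h + |u|) (max (s + a) (-s + b)) := by
  apply le_antisymm
  · have hu := abs_nonneg u
    have m1 := le_max_left (h + |u|) (max (s + a) (-s + b))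
    have m2 := (le_max_left (s + a) (-s + b)).trans (le_max_right (h + |u|) _)
    have m3 := (le_max_right (s + a) (-s + b)).trans (le_max_right (h + |u|) _)
    set M := max (h + |u|) (max (s + a) (-s + b))
    have key : ∀ t, |t - s| ≤ |u| → t + a + |u| ≤ M → -t + b + |u| ≤ M → φ ≤ M := by
      intro t k1 k2 k3
      have := h1 t
      rw [max_eq_left k1] at this
      have : max h (max (t + a) (-t + b)) ≤ M - |u| :=
        max_le (by linarith) (max_le (by linarith) (by linarith))
      linarith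
    by_cases c1 : s + a + |u| ≤ M
    · by_cases c2 : -s + b + |u| ≤ M
      · exact key s (by simp) c1 c2
      · refine key (b + |u| - M) (abs_le.2 ⟨by linarith, by linarith⟩) (by linarith) (by linarith)
    · refine key (M - |u| - a) (abs_le.2 ⟨by linarith, by linarith⟩) (by linarith) (by linarith)
  · obtain ⟨t, rfl⟩ := h2
    have m1 := le_max_left h (max (t + a) (-t + b))
    have m2 := (le_max_left (t + a) (-t + b)).trans (le_max_right h _)
    have m3 := (le_max_right (t + a) (-t + b)).trans (le_max_right h _)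
    have n1 := le_max_left |u| |t - s|
    have n2 := abs_le.1 (le_max_right |u| |t - s|)
    exact max_le (by linarith) (max_le (by linarith) (by linarith))

theorem diag_formula {a b u s φ : ℝ}
    (h1 : ∀ t, φ ≤ max (t + a) (-t + b) + max |t - u| |t - s|)
    (h2 : ∃ t, φ = max (t + a) (-t + b) + max |t - u| |t - s|) :
    φ = max (max (u + a) (-u + b)) (max (s + a) (-s + b)) := by
  apply le_antisymm
  · have m1 := (le_max_left (u + a) (-u + b)).trans (le_max_left _ (max (s + a) (-s + b)))
    have m2 := (le_max_right (u + a) (-u + b)).trans (le_max_left _ (max (s + a) (-s + b)))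
    have m3 := (le_max_left (s + a) (-s + b)).trans (le_max_right (max (u + a) (-u + b)) _)
    have m4 := (le_max_right (s + a) (-s + b)).trans (le_max_right (max (u + a) (-u + b)) _)
    set M := max (max (u + a) (-u + b)) (max (s + a) (-s + b))
    have := h1 ((b - a) / 2)
    have k1 : max ((b - a) / 2 + a) (-((b - a) / 2) + b) ≤ (a + b) / 2 :=
      max_le (by linarith) (by linarith)
    have k2 : max |(b - a) / 2 - u| |(b - a) / 2 - s| ≤ M - (a + b) / 2 :=
      max_le (abs_le.2 ⟨by linarith, by linarith⟩) (abs_le.2 ⟨by linarith, by linarith⟩)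
    linarith
  · obtain ⟨t, rfl⟩ := h2
    have m1 := le_max_left (t + a) (-t + b)
    have m2 := le_max_right (t + a) (-t + b)
    have n1 := abs_le.1 (le_max_left |t - u| |t - s|)
    have n2 := abs_le.1 (le_max_right |t - u| |t - s|)
    exact max_le (max_le (by linarith) (by linarith)) (max_le (by linarith) (by linarith))

variable {m : ℕ} (D : ZMod m → Bool)

theorem box_N {x : Sp D} {w : Pl} (l : Step) (h : Box fun v => dist x (e D w v)) :
    Box fun z => dist x (N D w l z) := h.shift l.1 _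

theorem box_of_N {x : Sp D} {w : Pl} (l : Step) (h : Box fun z => dist x (N D w l z)) :
    Box fun v => dist x (e D w v) := by
  have := h.shift l.1 (-sw l.1 ((l.2 : ℝ), kap D w (!l.1) * l.2))
  convert this using 4 with v
  have e1 : ∀ a : ℝ × ℝ, sw l.1 (-a) = - sw l.1 a := by intro a; cases l.1 <;> rfl
  simp only [N, nc, sw_add, sw_sw, e1, neg_add_cancel_right]

theorem beyond_axis' {w gx : Pl} {l : Step} (hk : kap D w l.1 = 0) (hx : gx ∈ Far w l) (vx : ℝ × ℝ)
    (hb : Box fun v => dist (e D gx vx) (e D (nb w l) v)) :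
    ∃ h a b : ℝ, a + b ≤ 2 * h ∧ ∀ u s, dist (e D gx vx) (N D w l (u, s))
      = max (h + |u|) (max (s + a) (-s + b)) := by
  obtain ⟨a1, a2, a3, a4, hb⟩ := box_N D (bl w l) hb
  have hk' : kap D (nb w l) (bl w l).1 = 0 := (kap_nb D w l).trans hk
  refine ⟨max (max a1 a2) ((a3 + a4) / 2), cs w l + a3, -cs w l + a4,
    by linarith [le_max_right (max a1 a2) ((a3 + a4) / 2)], fun u s => ?_⟩
  have tr : ∀ t, dist (e D gx vx) (Lam D w l t) = max (max (max a1 a2) ((a3 + a4) / 2))
      (max (t + (cs w l + a3)) (-t + (-cs w l + a4))) := by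
    intro t
    rw [Lam_glue, Lam, hk', zero_mul]
    have := hb 0 (t + cs w l)
    simp only [zero_add, neg_zero] at this
    rw [this, max_assoc (max a1 a2)]
    congr 1
    rw [max_eq_right (a := (a3 + a4) / 2)]
    · congr 1 <;> ring
    · rcases le_total (t + (cs w l + a3)) (-t + (-cs w l + a4)) with h | h
      · rw [max_eq_right h]; linarith
      · rw [max_eq_left h]; linarith
  have dd : ∀ t, dist (Lam D w l t) (N D w l (u, s)) = max |u| |t - s| := by
    intro t
    rw [Lam, dist_N, hk, Prod.dist_eq, Real.dist_eq, Real.dist_eq]; simp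
  refine axis_formula (by linarith [le_max_right (max a1 a2) ((a3 + a4) / 2)]) (fun t => ?_) ?_
  · rw [← tr, ← dd]; exact dist_triangle _ _ _
  · obtain ⟨t, ht⟩ := sep D hx (self_not_far w l) vx (nc D w l (u, s))
    exact ⟨t, by rw [← tr, ← dd]; exact ht⟩

theorem beyond_diag' {w gx : Pl} {l : Step} (hk : kap D w l.1 = 1) (hx : gx ∈ Far w l) (vx : ℝ × ℝ)
    (hb : Box fun v => dist (e D gx vx) (e D (nb w l) v)) :
    ∃ a b : ℝ, ∀ u s, dist (e D gx vx) (N D w l (u, s))
      = max (max (u + a) (-u + b)) (max (s + a) (-s + b)) := by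
  obtain ⟨a1, a2, a3, a4, hb⟩ := box_N D (bl w l) hb
  have hk' : kap D (nb w l) (bl w l).1 = 1 := (kap_nb D w l).trans hk
  refine ⟨cs w l + max a1 a3, -cs w l + max a2 a4, fun u s => ?_⟩
  have tr : ∀ t, dist (e D gx vx) (Lam D w l t) =
      max (t + (cs w l + max a1 a3)) (-t + (-cs w l + max a2 a4)) := by
    intro t
    rw [Lam_glue, Lam, hk', one_mul]
    have := hb (t + cs w l) (t + cs w l)
    simp only at this
    rw [this, max_max_max_comm, max_add_add_left, max_add_add_left]
    congr 1 <;> ring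
  have dd : ∀ t, dist (Lam D w l t) (N D w l (u, s)) = max |t - u| |t - s| := by
    intro t
    rw [Lam, dist_N, hk, Prod.dist_eq, Real.dist_eq, Real.dist_eq]; simp
  refine diag_formula (fun t => ?_) ?_
  · rw [← tr, ← dd]; exact dist_triangle _ _ _
  · obtain ⟨t, ht⟩ := sep D hx (self_not_far w l) vx (nc D w l (u, s))
    exact ⟨t, by rw [← tr, ← dd]; exact ht⟩

theorem box_all (x : Sp D) (w : Pl) : Box fun v => dist x (e D w v) := by
  obtain ⟨gx, vx, rfl⟩ := exists_e D x
  refine tree_ind gx (fun w => Box fun v => dist (e D gx vx) (e D w v)) ?_ ?_ w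
  · refine ⟨-vx.1, vx.1, -vx.2, vx.2, fun u s => ?_⟩
    simp only
    rw [dist_e, Prod.dist_eq, Real.dist_eq, Real.dist_eq, abs_eq_max_neg, abs_eq_max_neg,
      max_comm (vx.1 - u), max_comm (vx.2 - s)]
    congr 2 <;> ring
  · intro w l hl ih
    apply box_of_N D l
    rcases kap_cases D w l.1 with hk | hk
    · obtain ⟨h, a, b, -, H⟩ := beyond_axis' D hk hl vx ih
      refine ⟨h, h, a, b, fun u s => ?_⟩
      simp only
      rw [H, abs_eq_max_neg, ← max_add_add_left]
      congr 2 <;> ring
    · obtain ⟨a, b, H⟩ := beyond_diag' D hk hl vx ih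
      exact ⟨a, b, a, b, H⟩

theorem beyond_axis {w gx : Pl} {l : Step} (hk : kap D w l.1 = 0) (hx : gx ∈ Far w l) (vx : ℝ × ℝ) :
    ∃ h a b : ℝ, a + b ≤ 2 * h ∧ ∀ u s, dist (e D gx vx) (N D w l (u, s))
      = max (h + |u|) (max (s + a) (-s + b)) := beyond_axis' D hk hx vx (box_all D _ _)

theorem beyond_diag {w gx : Pl} {l : Step} (hk : kap D w l.1 = 1) (hx : gx ∈ Far w l) (vx : ℝ × ℝ) :
    ∃ a b : ℝ, ∀ u s, dist (e D gx vx) (N D w l (u, s))
      = max (max (u + a) (-u + b)) (max (s + a) (-s + b)) := beyond_diag' D hk hx vx (box_all D _ _)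

theorem Box.convex {φ : ℝ × ℝ → ℝ} (h : Box φ) (p v : ℝ × ℝ) :
    ConvexOn ℝ univ fun t : ℝ => φ (p + t • v) := by
  obtain ⟨a1, a2, a3, a4, h⟩ := h
  have aff : ∀ a b : ℝ, ConvexOn ℝ univ fun t : ℝ => a * t + b := by
    intro a b
    refine ⟨convex_univ, fun x _ y _ p q _ _ hpq => le_of_eq ?_⟩
    simp only [smul_eq_mul]
    have : q = 1 - p := by linarith
    subst this; ring
  refine (((aff v.1 (p.1 + a1)).sup (aff (-v.1) (-p.1 + a2))).sup
    ((aff v.2 (p.2 + a3)).sup (aff (-v.2) (-p.2 + a4)))).congr fun t _ => ?_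
  have := h (p.1 + t * v.1) (p.2 + t * v.2)
  change _ = φ (p.1 + t * v.1, p.2 + t * v.2)
  rw [this]
  simp only [Pi.sup_apply]
  congr 2 <;> ring

theorem str_line (w : Pl) (p v : ℝ × ℝ) : Str univ fun t : ℝ => e D w (p + t • v) :=
  ⟨((isometry_e D w).continuous.comp (by fun_prop)).continuousOn,
    fun z => (box_all D z w).convex p v⟩

theorem nc_add (w : Pl) (l : Step) (p v : ℝ × ℝ) (t : ℝ) :
    nc D w l (p + t • v) = nc D w l p + t • sw l.1 v := by
  obtain ⟨j, k⟩ := l
  cases j <;> simp [nc, sw, Prod.ext_iff] <;> constructor <;> ring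

theorem str_line_N (w : Pl) (l : Step) (p v : ℝ × ℝ) :
    Str univ fun t : ℝ => N D w l (p + t • v) := by
  simp only [N, nc_add]; exact str_line D w _ _

/-- the four linear functionals -/
def lam (i : Bool × Bool) (v : ℝ × ℝ) : ℝ := (bif i.2 then 1 else -1) * co i.1 v

def dirv (i : Bool × Bool) : ℝ × ℝ := pt i.1 (bif i.2 then 1 else -1) 0

theorem exists_bz (w : Pl) : ∃ bz : Bool × Bool → Sp D → ℝ,
    (∀ x v i, lam i v + bz i x ≤ dist x (e D w v)) ∧
    (∀ x v, ∃ i, lam i v + bz i x = dist x (e D w v)) ∧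
    (∀ x v i, ∀ᶠ t in atTop, dist x (e D w (v + t • dirv i)) = lam i v + bz i x + t) := by
  choose a1 a2 a3 a4 h using fun x => box_all D x w
  refine ⟨fun i x => bif i.1 then (bif i.2 then a3 x else a4 x) else (bif i.2 then a1 x else a2 x),
    ?_, ?_, ?_⟩
  · rintro x ⟨u, s⟩ ⟨j, b⟩
    have := h x u s
    simp only at this
    rw [this]
    cases j <;> cases b <;> simp [lam, co]
  · rintro x ⟨u, s⟩
    have := h x u s
    simp only at this
    rw [this]
    rcases max_choice (max (u + a1 x) (-u + a2 x)) (max (s + a3 x) (-s + a4 x)) with e | e <;> rw [e]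
    · rcases max_choice (u + a1 x) (-u + a2 x) with e | e <;> rw [e]
      · exact ⟨(false, true), by simp [lam, co]⟩
      · exact ⟨(false, false), by simp [lam, co]⟩
    · rcases max_choice (s + a3 x) (-s + a4 x) with e | e <;> rw [e]
      · exact ⟨(true, true), by simp [lam, co]⟩
      · exact ⟨(true, false), by simp [lam, co]⟩
  · rintro x ⟨u, s⟩ ⟨j, b⟩
    filter_upwards [eventually_ge_atTop (2 * (|u| + |s|) + |a1 x| + |a2 x| + |a3 x| + |a4 x|)]
      with t ht
    have q1 := abs_le.1 (le_refl |u|)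
    have q2 := abs_le.1 (le_refl |s|)
    have q3 := abs_le.1 (le_refl |a1 x|)
    have q4 := abs_le.1 (le_refl |a2 x|)
    have q5 := abs_le.1 (le_refl |a3 x|)
    have q6 := abs_le.1 (le_refl |a4 x|)
    cases j <;> cases b
    · have := h x (u - t) s
      simp only at this
      simp only [dirv, pt, lam, co, cond_false, Prod.smul_mk, smul_eq_mul, Prod.mk_add_mk,
        mul_zero, add_zero, mul_neg, mul_one, ← sub_eq_add_neg, this]
      rw [max_eq_right (a := u - t + a1 x) (by linarith), max_eq_left (max_le (by linarith) (by linarith))]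
      ring
    · have := h x (u + t) s
      simp only at this
      simp only [dirv, pt, lam, co, cond_false, cond_true, Prod.smul_mk, smul_eq_mul, Prod.mk_add_mk,
        mul_zero, add_zero, mul_one, this]
      rw [max_eq_left (a := u + t + a1 x) (by linarith), max_eq_left (max_le (by linarith) (by linarith))]
      ring
    · have := h x u (s - t)
      simp only at this
      simp only [dirv, pt, lam, co, cond_false, cond_true, Prod.smul_mk, smul_eq_mul, Prod.mk_add_mk,
        mul_zero, add_zero, mul_neg, mul_one, ← sub_eq_add_neg, this]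
      rw [max_eq_right (a := s - t + a3 x) (by linarith), max_eq_right (max_le (by linarith) (by linarith))]
      ring
    · have := h x u (s + t)
      simp only at this
      simp only [dirv, pt, lam, co, cond_true, Prod.smul_mk, smul_eq_mul, Prod.mk_add_mk,
        mul_zero, add_zero, mul_one, this]
      rw [max_eq_left (a := s + t + a3 x) (by linarith), max_eq_right (max_le (by linarith) (by linarith))]
      ring

noncomputable def bz (w : Pl) : Bool × Bool → Sp D → ℝ := (exists_bz D w).choose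

theorem bz_le (w : Pl) (x : Sp D) (v : ℝ × ℝ) (i : Bool × Bool) :
    lam i v + bz D w i x ≤ dist x (e D w v) := (exists_bz D w).choose_spec.1 x v i
theorem bz_ex (w : Pl) (x : Sp D) (v : ℝ × ℝ) :
    ∃ i, lam i v + bz D w i x = dist x (e D w v) := (exists_bz D w).choose_spec.2.1 x v
theorem bz_ev (w : Pl) (x : Sp D) (v : ℝ × ℝ) (i : Bool × Bool) :
    ∀ᶠ t in atTop, dist x (e D w (v + t • dirv i)) = lam i v + bz D w i x + t :=
  (exists_bz D w).choose_spec.2.2 x v i

theorem bz_lip (w : Pl) (i : Bool × Bool) (x y : Sp D) : bz D w i x - bz D w i y ≤ dist x y := by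
  obtain ⟨t, h1, h2⟩ := ((bz_ev D w x 0 i).and (bz_ev D w y 0 i)).exists
  linarith [dist_triangle x y (e D w (0 + t • dirv i))]

theorem bz_cont (w : Pl) (i : Bool × Bool) : Continuous (bz D w i) :=
  (LipschitzWith.of_dist_le_mul (K := 1) fun x y => by
    rw [Real.dist_eq, NNReal.coe_one, one_mul, abs_le]
    have := bz_lip D w i y x
    rw [dist_comm] at this
    exact ⟨by linarith, bz_lip D w i x y⟩).continuous

theorem bz_convex (w : Pl) (i : Bool × Bool) {I : Set ℝ} {γ : ℝ → Sp D} (hγ : Str I γ) :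
    ConvexOn ℝ I fun t => bz D w i (γ t) := by
  refine ⟨(hγ.2 (γ 0)).1, fun s hs t ht a b ha hb hab => ?_⟩
  obtain ⟨τ, h1, h2, h3⟩ := ((bz_ev D w (γ s) 0 i).and ((bz_ev D w (γ t) 0 i).and
    (bz_ev D w (γ (a • s + b • t)) 0 i))).exists
  have := (hγ.2 (e D w (0 + τ • dirv i))).2 hs ht ha hb hab
  simp only [dist_comm (e D w (0 + τ • dirv i)), h1, h2, h3] at this
  simp only [smul_eq_mul] at this ⊢
  have hb' : b = 1 - a := by linarith
  subst hb'
  nlinarith

end Pool.Agent.P.MP_318c20_al
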