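import Mathlib

namespace Pool.Agent.P.MP_318c20_al

open Set Filter Topology

/-- Local midpoint convexity and continuity give convexity. -/
theorem convexOn_of_mid {I : Set ℝ} (hI : Convex ℝ I) {φ : ℝ → ℝ} (hc : ContinuousOn φ I)
    (h : ∀ a ∈ I, ∀ b ∈ I, ∀ t, a < t → t < b →
      ∃ e, 0 < e ∧ a ≤ t - e ∧ t + e ≤ b ∧ 2 * φ t ≤ φ (t - e) + φ (t + e)) :
    ConvexOn ℝ I φ := by
  refine LinearOrder.convexOn_of_lt hI ?_
  intro x hx y hy hxy a b ha hb hab
  have hsub : Icc x y ⊆ I := hI.ordConnected.out hx hy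
  set k := (φ y - φ x) / (y - x) with hk
  have hyx : 0 < y - x := by linarith
  have hky : k * (y - x) = φ y - φ x := by rw [hk]; field_simp
  set ψ : ℝ → ℝ := fun t => φ t - φ x - k * (t - x) with hψ
  have hψc : ContinuousOn ψ (Icc x y) :=
    ((hc.mono hsub).sub continuousOn_const).sub (by fun_prop)
  obtain ⟨t1, ht1, hmax⟩ := isCompact_Icc.exists_isMaxOn (nonempty_Icc.2 hxy.le) hψc
  have key : ψ t1 ≤ 0 := by
    by_contra hpos
    push Not at hpos
    have hK : IsCompact (Icc x y ∩ ψ ⁻¹' {ψ t1}) :=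
      isCompact_Icc.of_isClosed_subset
        (hψc.preimage_isClosed_of_isClosed isClosed_Icc isClosed_singleton) inter_subset_left
    obtain ⟨t0, ⟨ht0, ht0'⟩, hgr⟩ := hK.exists_isGreatest ⟨t1, ht1, rfl⟩
    simp only [mem_preimage, mem_singleton_iff] at ht0'
    have hx0 : x < t0 := by
      rcases ht0.1.lt_or_eq with h1 | h1
      · exact h1
      · exfalso; rw [← h1] at ht0'; simp only [hψ] at ht0' hpos; linarith
    have hy0 : t0 < y := by
      rcases ht0.2.lt_or_eq with h1 | h1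
      · exact h1
      · exfalso; rw [h1] at ht0'; simp only [hψ] at ht0' hpos; linarith
    obtain ⟨e, he, h1, h2, h3⟩ := h x hx y hy t0 hx0 hy0
    have m1 : ψ (t0 - e) ≤ ψ t1 := hmax ⟨h1, by linarith⟩
    have m2 : ψ (t0 + e) ≤ ψ t1 := hmax ⟨by linarith, h2⟩
    have m3 : ψ (t0 + e) ≠ ψ t1 := by
      intro heq
      have := hgr ⟨⟨by linarith, h2⟩, heq⟩
      linarith
    have m4 : ψ (t0 + e) < ψ t1 := lt_of_le_of_ne m2 m3
    simp only [hψ] at m1 m4 ht0'
    nlinarith
  have hmem : a • x + b • y ∈ Icc x y := convex_Icc x y ⟨le_rfl, hxy.le⟩ ⟨hxy.le, le_rfl⟩ ha.le hb.le hab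
  have := (hmax hmem).trans key
  simp only [hψ, smul_eq_mul] at this ⊢
  have hb' : a = 1 - b := by linarith
  subst hb'
  have e1 : (1 - b) * x + b * y - x = b * (y - x) := by ring
  rw [e1] at this
  nlinarith

theorem ConvexOn.mid_le {I : Set ℝ} {φ : ℝ → ℝ} (h : ConvexOn ℝ I φ) {t e : ℝ}
    (h1 : t - e ∈ I) (h2 : t + e ∈ I) : 2 * φ t ≤ φ (t - e) + φ (t + e) := by
  have := h.2 h1 h2 (by norm_num : (0:ℝ) ≤ 1/2) (by norm_num : (0:ℝ) ≤ 1/2) (by norm_num)
  simp only [smul_eq_mul] at this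
  have e1 : 1 / 2 * (t - e) + 1 / 2 * (t + e) = t := by ring
  rw [e1] at this
  linarith

/-- three point form of convexity -/
theorem ConvexOn.three {I : Set ℝ} {φ : ℝ → ℝ} (h : ConvexOn ℝ I φ) {a t b : ℝ}
    (ha : a ∈ I) (hb : b ∈ I) (h1 : a ≤ t) (h2 : t ≤ b) :
    (b - a) * φ t ≤ (b - t) * φ a + (t - a) * φ b := by
  rcases (h1.trans h2).lt_or_eq with hab | hab
  · have hba : 0 < b - a := by linarith
    have := h.2 ha hb (div_nonneg (by linarith : 0 ≤ b - t) hba.le)
      (div_nonneg (by linarith : 0 ≤ t - a) hba.le) (by field_simp; ring)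
    simp only [smul_eq_mul] at this
    have e1 : (b - t) / (b - a) * a + (t - a) / (b - a) * b = t := by field_simp; ring
    rw [e1] at this
    have e2 : (b - a) * ((b - t) / (b - a) * φ a + (t - a) / (b - a) * φ b)
        = (b - t) * φ a + (t - a) * φ b := by field_simp
    rw [← e2]
    exact mul_le_mul_of_nonneg_left this hba.le
  · have : t = a := le_antisymm (hab ▸ h2) h1
    subst this; subst hab; simp

/-- A convex function on `[0,∞)` bounded along an unbounded set of times is at most its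
initial value. -/
theorem ConvexOn.le_init {φ : ℝ → ℝ} (h : ConvexOn ℝ (Ici 0) φ) {C : ℝ}
    (hC : ∀ T : ℝ, ∃ s, T ≤ s ∧ φ s ≤ C) {t : ℝ} (ht : 0 ≤ t) : φ t ≤ φ 0 := by
  refine le_of_forall_pos_le_add fun e he => ?_
  obtain ⟨s, hs, hs'⟩ := hC (max (t + 1) (t * |C - φ 0| / e))
  have hs1 : t + 1 ≤ s := (le_max_left _ _).trans hs
  have hs2 : t * |C - φ 0| / e ≤ s := (le_max_right _ _).trans hs
  have hs0 : 0 < s := by linarith
  have h3 := ConvexOn.three h (a := 0) (t := t) (b := s) (mem_Ici.2 le_rfl) (mem_Ici.2 hs0.le) ht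
    (by linarith)
  rw [div_le_iff₀ he] at hs2
  have h4 : t * (C - φ 0) ≤ t * |C - φ 0| := mul_le_mul_of_nonneg_left (le_abs_self _) ht
  have h5 : t * φ s ≤ t * C := mul_le_mul_of_nonneg_left hs' ht
  have : s * φ t ≤ s * (φ 0 + e) := by nlinarith
  exact le_of_mul_le_mul_left this hs0

/-- gluing convexity on overlapping intervals -/
theorem convexOn_glue {φ : ℝ → ℝ} {a b : ℝ} (h0 : 0 ≤ a) (hab : a < b)
    (hc : ContinuousOn φ (Ici 0))
    (h1 : ConvexOn ℝ (Icc 0 b) φ) (h2 : ConvexOn ℝ (Ici a) φ) : ConvexOn ℝ (Ici 0) φ := by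
  refine convexOn_of_mid (convex_Ici 0) hc ?_
  intro x hx y _ t hxt hty
  have hx' : 0 ≤ x := hx
  rcases lt_or_ge t b with h | h
  · refine ⟨min (t - x) (min (y - t) (b - t)), by simp only [lt_min_iff]; refine ⟨?_, ?_, ?_⟩ <;> linarith, ?_, ?_, ?_⟩
    · linarith [min_le_left (t - x) (min (y - t) (b - t))]
    · linarith [min_le_right (t - x) (min (y - t) (b - t)), min_le_left (y - t) (b - t)]
    · have p1 := min_le_left (t - x) (min (y - t) (b - t))
      have p2 := min_le_right (t - x) (min (y - t) (b - t))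
      have p3 := min_le_right (y - t) (b - t)
      have p4 : 0 < min (t - x) (min (y - t) (b - t)) := by
        simp only [lt_min_iff]; refine ⟨?_, ?_, ?_⟩ <;> linarith
      exact ConvexOn.mid_le h1 ⟨by linarith, by linarith⟩ ⟨by linarith, by linarith⟩
  · refine ⟨min (t - x) (min (y - t) (t - a)), by simp only [lt_min_iff]; refine ⟨?_, ?_, ?_⟩ <;> linarith, ?_, ?_, ?_⟩
    · linarith [min_le_left (t - x) (min (y - t) (t - a))]
    · linarith [min_le_right (t - x) (min (y - t) (t - a)), min_le_left (y - t) (t - a)]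
    · have p1 := min_le_left (t - x) (min (y - t) (t - a))
      have p2 := min_le_right (t - x) (min (y - t) (t - a))
      have p3 := min_le_right (y - t) (t - a)
      have p4 : 0 < min (t - x) (min (y - t) (t - a)) := by
        simp only [lt_min_iff]; refine ⟨?_, ?_, ?_⟩ <;> linarith
      exact ConvexOn.mid_le h2 (mem_Ici.2 (by linarith)) (mem_Ici.2 (by linarith))

end Pool.Agent.P.MP_318c20_al
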