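import Mathlib

namespace Pool.Agent.P.MP_318c20_al

open Set Filter Topology

variable {Z Z' : Type} [TopologicalSpace Z] [TopologicalSpace Z']

def CutP (π : Set Z) : Prop := (∃ x y, x ≠ y ∧ π = {x, y}) ∧ ¬ IsPreconnected πᶜ

def Adj (π π' : Set Z) : Prop :=
  CutP π ∧ CutP π' ∧ π ≠ π' ∧ ∃ K, IsPreconnected K ∧ (K ∩ π).Nonempty ∧ (K ∩ π').Nonempty ∧
    ∀ z ∈ K, ∀ ρ, CutP ρ → z ∈ ρ → z ∈ π ∪ π'

def NP (π : Set Z) : Set (Z × Z) := {p | p.1 ≠ p.2 ∧ Adj π {p.1, p.2}}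

def Thin (π : Set Z) : Prop := ∀ q : Z × Z, (∀ U ∈ 𝓝 q, (U ∩ NP π).Infinite) → q.1 = q.2

def Near : ℕ → Set Z → Prop
  | 0, π => ¬ Thin π
  | r + 1, π => Near r π ∨ ∃ π', Adj π π' ∧ Near r π'

def Inv (r : ℕ) (Z : Type) [TopologicalSpace Z] : Prop := ∀ π : Set Z, CutP π → Near r π

theorem Near.mono {r r' : ℕ} (h : r ≤ r') {π : Set Z} (hπ : Near r π) : Near r' π := by
  induction r', h using Nat.le_induction with
  | base => exact hπ
  | succ _ _ ih => exact Or.inl ih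

theorem CutP.image {π : Set Z} (hπ : CutP π) (h : Z ≃ₜ Z') : CutP (h '' π) := by
  obtain ⟨⟨x, y, hxy, rfl⟩, h2⟩ := hπ
  refine ⟨⟨h x, h y, h.injective.ne hxy, image_pair _ _ _⟩, ?_⟩
  rwa [← h.image_compl, h.isPreconnected_image]

theorem Adj.image {π π' : Set Z} (hπ : Adj π π') (h : Z ≃ₜ Z') : Adj (h '' π) (h '' π') := by
  obtain ⟨h1, h2, h3, K, h4, h5, h6, h7⟩ := hπ
  refine ⟨h1.image h, h2.image h, fun e => h3 (h.injective.image_injective e), h '' K,
    h.isPreconnected_image.2 h4, ?_, ?_, ?_⟩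
  · rw [← image_inter h.injective]; exact h5.image _
  · rw [← image_inter h.injective]; exact h6.image _
  · rintro _ ⟨z, hz, rfl⟩ ρ hρ hz'
    rw [← image_union]
    exact ⟨z, h7 z hz _ (hρ.image h.symm) ⟨_, hz', by simp⟩, rfl⟩

theorem Thin.of_image {π : Set Z} (h : Z ≃ₜ Z') (hπ : Thin (h '' π)) : Thin π := by
  intro q hq
  apply h.injective
  refine hπ (h q.1, h q.2) fun U hU => ?_
  have hc : Continuous (Prod.map h h) := h.continuous.prodMap h.continuous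
  have := hq _ (hc.continuousAt.preimage_mem_nhds (x := q) hU)
  refine (this.image (h.injective.prodMap h.injective).injOn).mono ?_
  rintro _ ⟨p, ⟨p1, p2, p3⟩, rfl⟩
  refine ⟨p1, h.injective.ne p2, ?_⟩
  have := p3.image h
  rwa [image_pair] at this

theorem Near.image {r : ℕ} (h : Z ≃ₜ Z') : ∀ {π : Set Z}, Near r π → Near r (h '' π) := by
  induction r with
  | zero => exact fun hπ e => hπ (Thin.of_image h e)
  | succ r ih =>
    rintro π (hπ | ⟨π', h1, h2⟩)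
    · exact Or.inl (ih hπ)
    · exact Or.inr ⟨_, h1.image h, ih h2⟩

theorem Inv.homeo {r : ℕ} (h : Z ≃ₜ Z') (hZ : Inv r Z) : Inv r Z' := by
  intro π hπ
  have := (hZ _ (hπ.image h.symm)).image h
  rwa [← image_comp, h.self_comp_symm, image_id] at this

end Pool.Agent.P.MP_318c20_al
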