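import Pool.Agent.P.MP_318c20_al.Bdry
import Pool.Agent.P.MP_318c20_al.Inv

namespace Pool.Agent.P.MP_318c20_al

open Set Filter Topology

theorem glue_ray {X : Type} [MetricSpace X] {γ1 γ2 : ℝ → X} {t0 : ℝ} (h1 : Str univ γ1)
    (h2 : Str univ γ2) (i1 : ∀ s t, dist (γ1 s) (γ1 t) = |s - t|)
    (i2 : ∀ s t, dist (γ2 s) (γ2 t) = |s - t|) (h0 : γ1 t0 = γ2 t0)
    (fold : ∀ z, (∀ t, dist z (γ2 t) ≤ dist z (γ1 t)) ∨ (∀ t, dist z (γ1 t) ≤ dist z (γ2 t))) :
    IsRay fun t => if t ≤ t0 then γ1 t else γ2 t := by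
  set γ : ℝ → X := fun t => if t ≤ t0 then γ1 t else γ2 t with hγ
  have g1 : ∀ t, t ≤ t0 → γ t = γ1 t := fun t ht => if_pos ht
  have g2 : ∀ t, t0 ≤ t → γ t = γ2 t := fun t ht => by
    rcases ht.lt_or_eq with h | h
    · exact if_neg (not_le.2 h)
    · rw [← h, g1 t0 le_rfl, h0]
  have lip : ∀ s t, dist (γ s) (γ t) ≤ |s - t| := by
    have A : ∀ s t, s ≤ t → dist (γ s) (γ t) ≤ |s - t| := by
      intro s t hst
      rcases le_total t t0 with a | a
      · rw [g1 s (hst.trans a), g1 t a, i1]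
      rcases le_total t0 s with b | b
      · rw [g2 s b, g2 t a, i2]
      have q := dist_triangle (γ1 s) (γ1 t0) (γ2 t)
      rw [i1, h0, i2, abs_of_nonpos (by linarith), abs_of_nonpos (by linarith)] at q
      rw [g1 s b, g2 t a, abs_of_nonpos (by linarith)]
      linarith
    intro s t
    rcases le_total s t with h | h
    · exact A s t h
    · rw [dist_comm, abs_sub_comm]; exact A t s h
  have hc : Continuous γ := (LipschitzWith.of_dist_le_mul (K := 1) fun s t => by
    rw [Real.dist_eq, NNReal.coe_one, one_mul]; exact lip s t).continuous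
  refine isRay_of_loc (fun s t _ _ => lip s t) (fun z => ?_) fun a _ => ?_
  · refine convexOn_of_mid (convex_Ici 0) (continuous_const.dist hc).continuousOn ?_
    intro a _ b _ t hat htb
    rcases lt_trichotomy t t0 with h | h | h
    · have p1 := min_le_left (t - a) (min (b - t) (t0 - t))
      have p2 := min_le_right (t - a) (min (b - t) (t0 - t))
      have p3 := min_le_left (b - t) (t0 - t)
      have p4 := min_le_right (b - t) (t0 - t)
      have p5 : 0 < min (t - a) (min (b - t) (t0 - t)) := by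
        simp only [lt_min_iff]; refine ⟨?_, ?_, ?_⟩ <;> linarith
      refine ⟨_, p5, by linarith, by linarith, ?_⟩
      rw [g1 _ h.le, g1 _ (by linarith), g1 _ (by linarith)]
      exact ConvexOn.mid_le (h1.2 z) trivial trivial
    · subst h
      have p1 := min_le_left (t - a) (b - t)
      have p2 := min_le_right (t - a) (b - t)
      have p5 : 0 < min (t - a) (b - t) := by
        simp only [lt_min_iff]; refine ⟨?_, ?_⟩ <;> linarith
      refine ⟨_, p5, by linarith, by linarith, ?_⟩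
      rw [g1 _ le_rfl, g1 _ (by linarith), g2 _ (by linarith)]
      rcases fold z with f | f
      · have := ConvexOn.mid_le (h2.2 z) (t := t) (e := min (t - a) (b - t)) trivial trivial
        rw [h0]; linarith [f (t - min (t - a) (b - t))]
      · have := ConvexOn.mid_le (h1.2 z) (t := t) (e := min (t - a) (b - t)) trivial trivial
        linarith [f (t + min (t - a) (b - t))]
    · have p1 := min_le_left (t - a) (min (b - t) (t - t0))
      have p2 := min_le_right (t - a) (min (b - t) (t - t0))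
      have p3 := min_le_left (b - t) (t - t0)
      have p4 := min_le_right (b - t) (t - t0)
      have p5 : 0 < min (t - a) (min (b - t) (t - t0)) := by
        simp only [lt_min_iff]; refine ⟨?_, ?_, ?_⟩ <;> linarith
      refine ⟨_, p5, by linarith, by linarith, ?_⟩
      rw [g2 _ h.le, g2 _ (by linarith), g2 _ (by linarith)]
      exact ConvexOn.mid_le (h2.2 z) trivial trivial
  · rcases lt_or_ge a t0 with h | h
    · exact ⟨t0, h, by rw [g1 a h.le, g1 t0 le_rfl, i1, abs_of_nonpos (by linarith)]; ring⟩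
    · exact ⟨a + 1, by linarith, by
        rw [g2 a h, g2 _ (by linarith), i2, abs_of_nonpos (by linarith)]; ring⟩

variable {m : ℕ} (D : ZMod m → Bool) (o : Sp D)

theorem unfold_ray {w : Pl} {l : Step} (hk : kap D w l.1 = 0) (p : ℝ × ℝ) {v : ℝ × ℝ}
    (hv : ‖v‖ = 1) (t0 : ℝ) (hp : p.1 + t0 * v.1 = 0) :
    IsRay fun t => if t ≤ t0 then N D w l (p + t • v) else
      N D (nb w l) (bl w l) ((-t0 * |v.1|, p.2 + cs w l) + t • (|v.1|, v.2)) := by
  have hk' : kap D (nb w l) (bl w l).1 = 0 := (kap_nb D w l).trans hk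
  have hv' : ‖(|v.1|, v.2)‖ = 1 := by rw [← hv]; simp [Prod.norm_def]
  have dd : ∀ s t : ℝ, dist (Lam D w l s) (N D w l (p + t • v)) = dist (Lam D w l s)
      (N D (nb w l) (bl w l) ((-t0 * |v.1|, p.2 + cs w l) + t • (|v.1|, v.2))) := by
    intro s t
    conv_rhs => rw [Lam_glue]
    rw [Lam_axis D hk, Lam_axis D hk', dist_N, dist_N, Prod.dist_eq, Prod.dist_eq]
    simp only [Real.dist_eq, Prod.fst_add, Prod.snd_add, Prod.smul_fst, Prod.smul_snd, smul_eq_mul]
    congr 1
    · have : p.1 = -t0 * v.1 := by linarith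
      rw [this, zero_sub, zero_sub, abs_neg, abs_neg, ← add_mul, ← add_mul, abs_mul, abs_mul, abs_abs]
    · congr 1; ring
  refine glue_ray (str_line_N D _ _ _ _) (str_line_N D _ _ _ _) (fun s t => ?_) (fun s t => ?_) ?_
    fun z => ?_
  · rw [dist_N, dist_add_left, dist_eq_norm, ← sub_smul, norm_smul, hv, mul_one, Real.norm_eq_abs]
  · rw [dist_N, dist_add_left, dist_eq_norm, ← sub_smul, norm_smul, hv', mul_one, Real.norm_eq_abs]
  · have h := dd (p.2 + t0 * v.2) t0
    have e1 : Lam D w l (p.2 + t0 * v.2) = N D w l (p + t0 • v) := by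
      rw [Lam_axis D hk]; congr 1; exact Prod.ext hp.symm rfl
    rw [e1, dist_self] at h
    exact dist_eq_zero.1 h.symm
  · rcases mem_side_or D w l z with h | h
    · left
      intro t
      obtain ⟨s, hs⟩ := side_sep D h (e_mem_side D w l (nc D w l (p + t • v)))
      change dist z (N D w l _) = _ + dist _ (N D w l _) at hs
      rw [hs, dd]; exact dist_triangle _ _ _
    · right
      intro t
      obtain ⟨s, hs⟩ := side_sep D (w := w) (l := l) (x := N D (nb w l) (bl w l)
        ((-t0 * |v.1|, p.2 + cs w l) + t • (|v.1|, v.2))) ⟨_, nb_far w l, _, rfl⟩ h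
      rw [dist_comm (N D (nb w l) _ _) (Lam D w l s), ← dd] at hs
      rw [dist_comm z (N D (nb w l) _ _), hs]
      linarith [dist_triangle_left z (N D w l (p + t • v)) (Lam D w l s)]

theorem approx_dp (w : Pl) {v : ℝ × ℝ} (hv : ‖v‖ = 1) (σ : ℤ) (hσ : (σ : ℝ) * |v.1| = v.1)
    (h1 : v.1 ≠ 0) :
    Tendsto (fun n : ℕ => dp D o (nb w (false, σ * n)) (|v.1|, v.2)) atTop (𝓝 (dp D o w v)) := by
  have hv' : ‖(|v.1|, v.2)‖ = 1 := by rw [← hv]; simp [Prod.norm_def]
  have ha : 0 < |v.1| := abs_pos.2 h1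
  have hr := fun n : ℕ => unfold_ray D (w := w) (l := (false, σ * n)) rfl
    (-((σ * n : ℤ) : ℝ), -(dl D w * (σ * n : ℤ))) hv (n / |v.1|) (by
      nth_rw 2 [← hσ]; push_cast; field_simp; ring)
  have e1 : ∀ (n : ℕ) (t : ℝ), N D w (false, σ * n)
      ((-((σ * n : ℤ) : ℝ), -(dl D w * (σ * n : ℤ))) + t • v) = ray D w 0 v t := by
    intro n t
    simp only [N, ray, nc, sw, cond_false, Bool.not_false, kap, cond_true]
    congr 1
    ext <;> simp
  have := tendsto_cls (o := o) (l := atTop) (c0 := dp D o w v) hr (D := dist o (e D w 0))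
    (Eventually.of_forall fun n => by
      simp only; rw [if_pos (by positivity), e1]; simp [ray]) (fun T => ⟨max T 0, le_max_left _ _, by
      filter_upwards [(tendsto_natCast_atTop_atTop (R := ℝ)).eventually_ge_atTop
        (max T 0 * |v.1|)] with n hn
      rw [if_pos (by rwa [le_div_iff₀ ha]), e1, ← cls_ray D o w 0 hv, dist_comm]
      simpa [ray] using cls_dist o (isRay_ray D w 0 hv) (le_max_right T 0)⟩)
  refine this.congr fun n => ?_
  rw [← cls_ray D o _ (nc D (nb w (false, σ * n)) (bl w (false, σ * n))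
    (-(n / |v.1|) * |v.1|, -(dl D w * (σ * n : ℤ)) + cs w (false, σ * n))) hv']
  refine cls_eq_cls _ _ (D := 0) fun T => ⟨max T (n / |v.1| + 1), le_max_left _ _, ?_⟩
  rw [if_neg (by linarith [le_max_right T (n / |v.1| + 1)]), N, nc_add, ray]
  simp [bl, sw]

def pp (w : Pl) (j : Bool) : Set (Bd o) := {pole D o w j true, pole D o w j false}

theorem mem_pp {w : Pl} {j : Bool} {z : Bd o} : z ∈ pp D o w j ↔ ∃ b, z = pole D o w j b := by
  simp [pp]; tauto

theorem Blk.pp_eq {j : Bool} {w w' : Pl} (h : Blk j w w') : pp D o w' j = pp D o w j := by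
  simp only [pp, h.pole_eq D o]

theorem sep_conn {K : Set (Bd o)} (hK : IsPreconnected K) {w : Pl} {l : Step}
    (h : ∀ b, pole D o w l.1 b ∉ K) {a c : Bd o} (ha : a ∈ K) (hc : c ∈ K)
    (ha' : a ∈ bd o (side D w l)) (hc' : c ∈ bd o (side D (nb w l) (bl w l))) : False := by
  obtain ⟨z, hz, h1, h2⟩ := isPreconnected_closed_iff.1 hK _ _ (isClosed_bd_side D o w l)
    (isClosed_bd_side D o (nb w l) (bl w l)) (fun z _ => bd_union (side_union D w l) z)
    ⟨a, ha, ha'⟩ ⟨c, hc, hc'⟩
  obtain ⟨b, rfl⟩ := bd_inter D o h1 h2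
  exact h b hz

theorem pole_not_mem (w w' : Pl) (j b : Bool) : pole D o w (!j) b ∉ pp D o w' j := by
  rw [mem_pp]
  rintro ⟨b', h⟩
  have := (pole_eq_pole D o h).1
  simp at this

theorem cutP_pp (w : Pl) (j : Bool) : CutP (pp D o w j) := by
  refine ⟨⟨_, _, fun h => by simpa using (pole_inj D o h).2, rfl⟩, fun h => ?_⟩
  exact sep_conn D o h (w := w) (l := (j, 0)) (fun b hb => hb ((mem_pp D o).2 ⟨b, rfl⟩))
    (pole_not_mem D o (nb w (j, 0)) w j true) (pole_not_mem D o w w j true)
    (dp_mem_bd D o (nb_far _ _) _) (dp_mem_bd D o ((far_back _ _ _).2 (self_not_far _ _)) _)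

theorem mem_comp_of_closure {Z : Type} [TopologicalSpace Z] {F : Set Z} {p z : Z} (hp : p ∈ F)
    (hz : z ∈ F) (h : z ∈ closure (connectedComponentIn F p)) : z ∈ connectedComponentIn F p :=
  (isPreconnected_connectedComponentIn.subset_closure (subset_insert z _)
    (insert_subset h subset_closure)).subset_connectedComponentIn
    (mem_insert_of_mem _ (mem_connectedComponentIn hp))
    (insert_subset hz (connectedComponentIn_subset F p)) (mem_insert _ _)

theorem un_fst_pos {v : ℝ × ℝ} (h : 0 < v.1) : 0 < (un v).1 := by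
  have : v ≠ 0 := by rintro rfl; simp at h
  simp only [un, this, if_false, Prod.smul_fst, smul_eq_mul]
  exact mul_pos (inv_pos.2 (norm_pos_iff.2 this)) h

theorem circ_comp {π : Set (Bd o)} (hπ : π.Finite) (w : Pl) (b : Bool)
    (hb : pole D o w false b ∉ π) (v : ℝ × ℝ) (hv : dp D o w v ∉ π) :
    dp D o w v ∈ connectedComponentIn πᶜ (pole D o w false b) := by
  have bad : {k : ℤ | ∃ v : ℝ × ℝ, 0 < v.1 ∧ dp D o (nb w (false, k)) v ∈ π}.Finite := by
    refine (hπ.biUnion (t := fun z => {k : ℤ | ∃ v : ℝ × ℝ, 0 < v.1 ∧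
      dp D o (nb w (false, k)) v = z}) fun z _ => Set.Subsingleton.finite ?_).subset ?_
    · rintro k ⟨v, h1, h2⟩ k' ⟨v', -, h2'⟩
      by_contra hne
      obtain ⟨b', hb'⟩ := dp_sep D o (nb_far w (false, k)) (g' := nb w (false, k'))
        (fun h => hne (congrArg Prod.snd (far_uniq h (nb_far w (false, k'))))) (h2.trans h2'.symm)
      rw [← pole_nb] at hb'
      have := dp_inj D o hb'
      rw [un_of_norm (norm_dv D _ _ _)] at this
      have h3 := un_fst_pos h1
      rw [this] at h3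
      simp [dv, sw, kap] at h3
    · rintro k ⟨v, h1, h2⟩
      exact mem_biUnion h2 ⟨v, h1, rfl⟩
  have good : ∀ k : ℤ, (∀ v : ℝ × ℝ, 0 < v.1 → dp D o (nb w (false, k)) v ∉ π) →
      (∀ b', pole D o w false b' ∈ closure (connectedComponentIn πᶜ (pole D o w false b))) ∧
      ∀ v : ℝ × ℝ, 0 < v.1 →
        dp D o (nb w (false, k)) v ∈ connectedComponentIn πᶜ (pole D o w false b) := by
    intro k hk
    have hsub : {v : ℝ × ℝ | 0 < v.1} ⊆ {v | v ≠ 0} := by
      rintro v hv rfl; simp at hv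
    have hH : IsPreconnected (dp D o (nb w (false, k)) '' {v : ℝ × ℝ | 0 < v.1}) :=
      ((convex_halfSpace_gt (f := Prod.fst) ⟨fun _ _ => rfl, fun _ _ => rfl⟩ 0).isPreconnected).image _
        ((dp_cont D o _).mono hsub)
    have hcl : ∀ b', pole D o w false b' ∈
        closure (dp D o (nb w (false, k)) '' {v : ℝ × ℝ | 0 < v.1}) := by
      intro b'
      rw [← pole_nb D o w (false, k)]
      refine ((dp_cont D o _ _ (norm_ne_zero_iff.1 (by rw [norm_dv]; exact one_ne_zero))).mono
        hsub).mem_closure_image ?_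
      have : {v : ℝ × ℝ | 0 < v.1} = Ioi 0 ×ˢ univ := by ext; simp
      rw [this, closure_prod_eq]
      simp [dv, sw, kap]
    have hs := (hH.subset_closure (subset_insert (pole D o w false b) _)
      (insert_subset (hcl b) subset_closure)).subset_connectedComponentIn (mem_insert _ _)
      (F := πᶜ) (insert_subset hb (by rintro _ ⟨v, hv, rfl⟩; exact hk v hv))
    exact ⟨fun b' => closure_mono ((subset_insert _ _).trans hs) (hcl b'),
      fun v hv => hs (mem_insert_of_mem _ ⟨v, hv, rfl⟩)⟩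
  refine mem_comp_of_closure hb hv ?_
  rw [← dp_un]
  have hn := norm_un v
  generalize un v = u at hn
  by_cases h1 : u.1 = 0
  · obtain ⟨k, hk⟩ := bad.exists_notMem
    simp only [mem_ofPred_eq, not_exists, not_and] at hk
    have h2 : |u.2| = 1 := by rw [← hn]; simp [Prod.norm_def, h1]
    rcases eq_or_eq_neg_of_abs_eq h2 with h | h
    · have : u = dv D w false true := by ext <;> simp [dv, sw, kap, sg, h1, h]
      rw [this]; exact (good k hk).1 true
    · have : u = dv D w false false := by ext <;> simp [dv, sw, kap, sg, h1, h]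
      rw [this]; exact (good k hk).1 false
  · obtain ⟨σ, hσ, hσ0⟩ : ∃ σ : ℤ, (σ : ℝ) * |u.1| = u.1 ∧ σ ≠ 0 := by
      rcases lt_or_gt_of_ne h1 with h | h
      · exact ⟨-1, by simp [abs_of_neg h], by simp⟩
      · exact ⟨1, by simp [abs_of_pos h], by simp⟩
    refine mem_closure_of_tendsto (approx_dp D o w hn σ hσ h1) ?_
    have hinj : Function.Injective fun n : ℕ => σ * (n : ℤ) := fun a b h => by
      simpa [hσ0] using h
    have := (bad.preimage hinj.injOn).compl_mem_cofinite
    rw [Nat.cofinite_eq_atTop] at this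
    filter_upwards [this] with n hn'
    simp only [mem_compl_iff, mem_preimage, mem_ofPred_eq, not_exists, not_and] at hn'
    exact (good _ hn').2 _ (abs_pos.2 h1)

theorem preconnected_compl {π : Set (Bd o)} (hπ : π.Finite)
    (h : ∀ w j, ∃ b, pole D o w j b ∉ π) : IsPreconnected πᶜ := by
  obtain ⟨b0, hb0⟩ := h root false
  have A : ∀ w v, dp D o w v ∉ π → dp D o w v ∈ connectedComponentIn πᶜ (pole D o root false b0) := by
    refine tree_ind root _ (circ_comp D o hπ root b0 hb0) ?_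
    intro w l _ ih v hv
    obtain ⟨b, hb⟩ := h w l.1
    obtain ⟨b', hb'⟩ := h w false
    have h1 := ih (dv D (nb w l) l.1 b) (by change pole D o _ _ _ ∉ π; rwa [pole_nb])
    change pole D o _ _ _ ∈ _ at h1
    rw [pole_nb] at h1
    have h2 := circ_comp D o hπ w b' hb' _ hb
    rw [connectedComponentIn_eq h1]
    change _ ∈ connectedComponentIn πᶜ (dp D o w (dv D w l.1 b))
    rw [← connectedComponentIn_eq h2]
    exact circ_comp D o hπ w b' hb' v hv
  refine isPreconnected_connectedComponentIn.subset_closure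
    (connectedComponentIn_subset πᶜ (pole D o root false b0)) fun z hz => ?_
  refine closure_mono ?_ ((dense_dp D o).open_subset_closure_inter hπ.isClosed.isOpen_compl hz)
  rintro _ ⟨h1, w, v, rfl⟩
  exact A w v h1

theorem cutP_imp {π : Set (Bd o)} (h : CutP π) : ∃ w j, π = pp D o w j := by
  obtain ⟨⟨x, y, -, rfl⟩, h⟩ := h
  by_contra hc
  refine h (preconnected_compl D o (toFinite _) fun w j => ?_)
  by_contra hb
  push Not at hb
  refine hc ⟨w, j, ?_⟩
  have hne : pole D o w j true ≠ pole D o w j false := fun h => by simpa using (pole_inj D o h).2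
  rcases hb true with h1 | h1 <;> rcases hb false with h2 | h2
  · exact absurd (h1.trans h2.symm) hne
  · rw [pp, h1, h2]
  · rw [pp, h1, h2, pair_comm]
  · exact absurd (h1.trans h2.symm) hne

theorem pp_eq_pp {x w : Pl} {i j : Bool} (h : pp D o x i = pp D o w j) : i = j ∧ Blk i x w := by
  obtain ⟨b, hb⟩ := (mem_pp D o).1 (h ▸ (mem_pp D o).2 ⟨true, rfl⟩ : pole D o x i true ∈ pp D o w j)
  exact ⟨(pole_eq_pole D o hb).1, (pole_eq_pole D o hb).2.2⟩

theorem adj_plane (w : Pl) (j : Bool) : Adj (pp D o w j) (pp D o w (!j)) := by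
  have hsub : {v : ℝ × ℝ | 0 < v.1 + v.2} ⊆ {v | v ≠ 0} := by
    rintro v hv rfl; simp at hv
  have hm : ∀ i, pole D o w i true ∈ dp D o w '' {v : ℝ × ℝ | 0 < v.1 + v.2} := by
    intro i
    refine ⟨dv D w i true, ?_, rfl⟩
    rcases kap_cases D w i with h | h <;> cases i <;> simp [dv, sw, sg, h]
  refine ⟨cutP_pp D o _ _, cutP_pp D o _ _, fun h => by simpa using (pp_eq_pp D o h).1,
    dp D o w '' {v : ℝ × ℝ | 0 < v.1 + v.2},
    ((convex_halfSpace_gt (f := fun v : ℝ × ℝ => v.1 + v.2)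
      ⟨fun _ _ => by simp; ring, fun _ _ => by simp; ring⟩ 0).isPreconnected).image _
        ((dp_cont D o _).mono hsub), ⟨_, hm j, (mem_pp D o).2 ⟨_, rfl⟩⟩,
    ⟨_, hm (!j), (mem_pp D o).2 ⟨_, rfl⟩⟩, ?_⟩
  rintro _ ⟨v, -, rfl⟩ ρ hρ hz
  obtain ⟨x, i, rfl⟩ := cutP_imp D o hρ
  obtain ⟨b, hb⟩ := (mem_pp D o).1 hz
  rw [← (blk_of_pole D o x i b v hb.symm).pp_eq D o] at hz
  by_cases e : i = j
  · exact Or.inl (e ▸ hz)
  · have : i = !j := by revert e; cases i <;> cases j <;> simp
    exact Or.inr (this ▸ hz)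

theorem adj_imp {x : Pl} {i : Bool} {π' : Set (Bd o)} (h : Adj (pp D o x i) π') :
    ∃ w, Blk i x w ∧ π' = pp D o w (!i) := by
  obtain ⟨y, i', rfl⟩ := cutP_imp D o h.2.1
  revert i
  refine tree_ind y (fun x => ∀ {i : Bool}, Adj (pp D o x i) (pp D o y i') →
    ∃ w, Blk i x w ∧ pp D o y i' = pp D o w (!i)) ?_ ?_ x
  · intro i h
    refine ⟨y, Relation.ReflTransGen.refl, ?_⟩
    have : i ≠ i' := fun e => h.2.2.1 (e ▸ rfl)
    congr 1
    revert this; cases i <;> cases i' <;> simp
  · intro x l hl ih i h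
    by_cases e : i = l.1
    · subst e
      obtain ⟨w, h1, h2⟩ := ih ((Blk.step x l).pp_eq D o ▸ h)
      exact ⟨w, (Blk.step x l).trans h1, h2⟩
    · have e' : l.1 = !i := by revert e; cases i <;> cases l.1 <;> simp
      by_cases e2 : pp D o y i' = pp D o x (!i)
      · exact ⟨x, Relation.ReflTransGen.refl, e2⟩
      exfalso
      obtain ⟨-, -, -, K, hK, ⟨a, ha, ha'⟩, ⟨c, hc, hc'⟩, hP⟩ := h
      obtain ⟨b1, rfl⟩ := (mem_pp D o).1 ha'
      obtain ⟨b2, rfl⟩ := (mem_pp D o).1 hc'
      refine sep_conn D o hK (w := x) (l := l) (fun b hb => ?_) hc ha (dp_mem_bd D o hl _)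
        (dp_mem_bd D o ((far_back _ _ _).2 (self_not_far _ _)) _)
      rcases hP _ hb _ (cutP_pp D o x l.1) ((mem_pp D o).2 ⟨b, rfl⟩) with h | h
      · rw [e'] at h; exact pole_not_mem D o _ _ _ _ h
      · obtain ⟨b', hb'⟩ := (mem_pp D o).1 h
        obtain ⟨a1, -, a2⟩ := pole_eq_pole D o hb'
        rw [← e', ← a1] at e2
        exact e2 (a2.pp_eq D o)

end Pool.Agent.P.MP_318c20_al
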