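import Mathlib

namespace Pool.Agent.P.MP_318c20_al

open Set
open scoped NNReal

/-- Injective metric space: closed balls `B(x i, r i)` with `d(x i, x j) ≤ r i + r j` have a
common point. -/
def IsInjective (X : Type) [MetricSpace X] : Prop :=
  ∀ (ι : Type) (x : ι → X) (r : ι → ℝ), (∀ i, 0 < r i) →
    (∀ i j, dist (x i) (x j) ≤ r i + r j) → ∃ z : X, ∀ i, dist z (x i) ≤ r i

/-- The injective hull (tight span) of a finite subset `Y`: the functions `f : Y → ℝ` with
`f x = max_y (d(x,y) - f y)`, inside `Y → ℝ` with the sup metric. -/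
def tightSpan {X : Type} [MetricSpace X] (Y : Finset X) : Set (Y → ℝ) :=
  {f | ∀ x : Y, IsGreatest (range fun y : Y => dist (x : X) (y : X) - f y) (f x)}

/-- Finite combinatorial dimension: the dimensions of the polyhedral complexes `E(Y)`,
`Y` finite, are bounded. -/
def FiniteCombDim (X : Type) [MetricSpace X] : Prop :=
  ∃ n : ℕ, ∀ Y : Finset X, dimH (tightSpan Y) ≤ n

/-- Proper injective metric space of finite combinatorial dimension. -/
def Admissible (X : Type) [MetricSpace X] : Prop :=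
  ProperSpace X ∧ IsInjective X ∧ FiniteCombDim X

/-- Isometric, proper and cocompact action. -/
def Geometric (G X : Type) [Group G] [MetricSpace X] [MulAction G X] : Prop :=
  (∀ g : G, Isometry fun x : X => g • x) ∧
  (∀ K : Set X, IsCompact K → {g : G | ∃ x ∈ K, g • x ∈ K}.Finite) ∧
  (∃ K : Set X, IsCompact K ∧ ∀ x : X, ∃ g : G, g • x ∈ K)

/-- Convex bicombing; only the values `σ x y t` with `t ∈ [0,1]` matter. -/
def IsConvexBicombing {X : Type} [MetricSpace X] (σ : X → X → ℝ → X) : Prop :=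
  ContinuousOn (fun p : X × X × ℝ => σ p.1 p.2.1 p.2.2) {p | p.2.2 ∈ Icc (0 : ℝ) 1} ∧
  (∀ x y, σ x y 0 = x ∧ σ x y 1 = y ∧
    ∀ s ∈ Icc (0 : ℝ) 1, ∀ t ∈ Icc (0 : ℝ) 1, dist (σ x y s) (σ x y t) = |s - t| * dist x y) ∧
  (∀ x y x' y', ConvexOn ℝ (Icc (0 : ℝ) 1) fun t => dist (σ x y t) (σ x' y' t))

/-- `σ`-rays from `o`: geodesic rays `c` with `c 0 = o` whose restriction to each `[0,t]`
reparametrises `σ o (c t)`. -/
def IsSigmaRay {X : Type} [MetricSpace X] (σ : X → X → ℝ → X) (o : X) (c : C(ℝ≥0, X)) : Prop :=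
  c 0 = o ∧ Isometry c ∧ ∀ t l : ℝ≥0, l ≤ 1 → c (l * t) = σ o (c t) l

/-- The boundary: the `σ`-rays from `o`, with the topology of uniform convergence on compact
sets (the compact-open topology of `C(ℝ≥0, X)`). -/
abbrev Boundary {X : Type} [MetricSpace X] (σ : X → X → ℝ → X) (o : X) : Type :=
  {c : C(ℝ≥0, X) // IsSigmaRay σ o c}

end Pool.Agent.P.MP_318c20_al
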