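import Pool.Agent.P.MP_318c20_al.Straight
import Pool.Agent.P.MP_318c20_al.Defs

namespace Pool.Agent.P.MP_318c20_al

open Set Filter Topology
open scoped NNReal

variable {X : Type} [MetricSpace X]

class Good (X : Type) [MetricSpace X] : Prop where
  proper : ProperSpace X
  helly : Helly X
  li : LI X

instance [h : Good X] : ProperSpace X := h.proper

variable [hG : Good X]

noncomputable def geo (x y : X) : ℝ → X := (exists_str hG.helly x y).choose

theorem geo_zero (x y : X) : geo x y 0 = x := (exists_str hG.helly x y).choose_spec.1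
theorem geo_one (x y : X) : geo x y 1 = y := (exists_str hG.helly x y).choose_spec.2.1
theorem geo_str (x y : X) : Str (Icc 0 1) (geo x y) := (exists_str hG.helly x y).choose_spec.2.2.1
theorem geo_dist (x y : X) : ∀ s ∈ Icc (0 : ℝ) 1, ∀ t ∈ Icc (0 : ℝ) 1,
    dist (geo x y s) (geo x y t) = |s - t| * dist x y :=
  (exists_str hG.helly x y).choose_spec.2.2.2

theorem geo_conical (x y x' y' : X) {t : ℝ} (ht : t ∈ Icc (0 : ℝ) 1) :
    dist (geo x y t) (geo x' y' t) ≤ (1 - t) * dist x x' + t * dist y y' := by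
  have := ConvexOn.three (conv2 hG.li (geo_str x y) (geo_str x' y')) (a := 0) (b := 1)
    ⟨le_rfl, zero_le_one⟩ ⟨zero_le_one, le_rfl⟩ ht.1 ht.2
  simpa [geo_zero, geo_one] using this

theorem geo_bicombing : IsConvexBicombing (geo (X := X)) := by
  refine ⟨?_, fun x y => ⟨geo_zero x y, geo_one x y, geo_dist x y⟩,
    fun x y x' y' => conv2 hG.li (geo_str x y) (geo_str x' y')⟩
  intro p hp
  rw [ContinuousWithinAt, tendsto_iff_dist_tendsto_zero]
  have hc : ContinuousAt (fun q : X × X × ℝ => dist q.1 p.1 + dist q.2.1 p.2.1 +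
      |q.2.2 - p.2.2| * dist p.1 p.2.1) p := by fun_prop
  have hc' := hc.tendsto.mono_left (nhdsWithin_le_nhds (s := {p : X × X × ℝ | p.2.2 ∈ Icc (0 : ℝ) 1}))
  simp only [dist_self, sub_self, abs_zero, zero_mul, add_zero] at hc'
  refine squeeze_zero' (Eventually.of_forall fun _ => dist_nonneg) ?_ hc'
  filter_upwards [self_mem_nhdsWithin] with q hq
  have h1 := geo_conical q.1 q.2.1 p.1 p.2.1 hq
  have h2 := geo_dist p.1 p.2.1 _ hq _ hp
  have h3 := dist_triangle (geo q.1 q.2.1 q.2.2) (geo p.1 p.2.1 q.2.2) (geo p.1 p.2.1 p.2.2)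
  have a1 : (0 : ℝ) ≤ dist q.1 p.1 := dist_nonneg
  have a2 : (0 : ℝ) ≤ dist q.2.1 p.2.1 := dist_nonneg
  have hq' : q.2.2 ∈ Icc (0 : ℝ) 1 := hq
  nlinarith [hq'.1, hq'.2]

omit hG in
theorem IsConvexBicombing.str {σ : X → X → ℝ → X} (h : IsConvexBicombing σ) (x y : X) :
    Str (Icc 0 1) (σ x y) := by
  refine ⟨?_, fun z => ?_⟩
  · exact h.1.comp (f := fun t : ℝ => (x, y, t)) (by fun_prop) (fun t ht => ht)
  · refine (h.2.2 z z x y).congr fun t ht => ?_
    have h1 := (h.2.1 z z).2.2 t ht 0 ⟨le_rfl, zero_le_one⟩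
    rw [(h.2.1 z z).1, dist_self, mul_zero, dist_eq_zero] at h1
    simp only [h1]

def IsRay (r : ℝ → X) : Prop :=
  (∀ s t, 0 ≤ s → 0 ≤ t → dist (r s) (r t) = |s - t|) ∧ Str (Ici 0) r

omit hG in
theorem isRay_of {r : ℝ → X} (h1 : ∀ s t, 0 ≤ s → 0 ≤ t → dist (r s) (r t) = |s - t|)
    (h2 : ∀ z, ConvexOn ℝ (Ici 0) (fun t => dist z (r t))) : IsRay r := by
  refine ⟨h1, ?_, h2⟩
  refine (LipschitzOnWith.of_dist_le_mul (K := 1) fun s hs t ht => ?_).continuousOn
  rw [h1 s t hs ht, Real.dist_eq]; simp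

omit hG in
theorem IsRay.congr {r r' : ℝ → X} (h : IsRay r) (he : ∀ t, 0 ≤ t → r t = r' t) : IsRay r' :=
  ⟨fun s t hs ht => by rw [← he s hs, ← he t ht]; exact h.1 s t hs ht, h.2.congr he⟩

/-- the boundary as straight rays -/
abbrev Bd (o : X) : Type := {c : C(ℝ≥0, X) // c 0 = o ∧ IsRay (fun t : ℝ => c t.toNNReal)}

def Bd.pt {o : X} (c : Bd o) (t : ℝ) : X := c.1 t.toNNReal

omit hG in
theorem Bd.ray {o : X} (c : Bd o) : IsRay c.pt := c.2.2
omit hG in
theorem Bd.zero {o : X} (c : Bd o) : c.pt 0 = o := by simp [Bd.pt, c.2.1]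
omit hG in
theorem Bd.dist_o {o : X} (c : Bd o) {t : ℝ} (ht : 0 ≤ t) : dist o (c.pt t) = t := by
  have := c.ray.1 0 t le_rfl ht
  rwa [c.zero, zero_sub, abs_neg, abs_of_nonneg ht] at this
omit hG in
theorem Bd.ext' {o : X} {c c' : Bd o} (h : ∀ t, 0 ≤ t → c.pt t = c'.pt t) : c = c' := by
  ext t
  have := h t t.2
  simpa [Bd.pt] using this
omit hG in
theorem Bd.cont_pt {o : X} (t : ℝ) : Continuous fun c : Bd o => c.pt t :=
  (continuous_eval_const t.toNNReal).comp continuous_subtype_val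

theorem isSigmaRay_iff {σ : X → X → ℝ → X} (h : IsConvexBicombing σ) (o : X) (c : C(ℝ≥0, X)) :
    IsSigmaRay σ o c ↔ c 0 = o ∧ IsRay (fun t : ℝ => c t.toNNReal) := by
  constructor
  · rintro ⟨h0, h1, h2⟩
    refine ⟨h0, isRay_of ?_ ?_⟩
    · intro s t hs ht
      rw [h1.dist_eq, NNReal.dist_eq, Real.coe_toNNReal _ hs, Real.coe_toNNReal _ ht]
    · intro z
      refine convexOn_of_mid (convex_Ici 0)
        (continuous_const.dist (c.continuous.comp continuous_real_toNNReal)).continuousOn ?_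
      intro a ha b hb t hat htb
      have ha' : 0 ≤ a := ha
      have hb0 : 0 < b := by linarith
      have hs := ((h.str o (c b.toNNReal)).affine (J := Icc 0 b) b⁻¹ 0 (convex_Icc 0 b) (by
        intro t ht
        rw [add_zero]
        exact ⟨mul_nonneg (by positivity) ht.1, by rw [inv_mul_le_iff₀ hb0]; simpa using ht.2⟩)).congr
        (γ' := fun t : ℝ => c t.toNNReal) (by
        intro t ht
        have e : (b⁻¹ * t).toNNReal * b.toNNReal = t.toNNReal := by
          rw [← Real.toNNReal_mul (mul_nonneg (by positivity) ht.1)]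
          congr 1; field_simp
        have := h2 b.toNNReal (b⁻¹ * t).toNNReal (by
          rw [Real.toNNReal_le_one, inv_mul_le_iff₀ hb0]; simpa using ht.2)
        rw [e, Real.coe_toNNReal _ (mul_nonneg (by positivity) ht.1)] at this
        simp only [add_zero]; exact this.symm)
      set e := min (t - a) (b - t) with he
      have e1 : e ≤ t - a := min_le_left _ _
      have e2 : e ≤ b - t := min_le_right _ _
      have e0 : 0 < e := by rw [he, lt_min_iff]; constructor <;> linarith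
      exact ⟨e, e0, by linarith, by linarith,
        ConvexOn.mid_le (hs.2 z) ⟨by linarith, by linarith⟩ ⟨by linarith, by linarith⟩⟩
  · rintro ⟨h0, h1⟩
    refine ⟨h0, Isometry.of_dist_eq fun s t => ?_, fun t l hl => ?_⟩
    · have := h1.1 s t s.2 t.2
      simpa [NNReal.dist_eq] using this
    · have hs := h1.2.affine (J := Icc 0 1) t 0 (convex_Icc 0 1) (by
        intro s hs; rw [add_zero]; exact mul_nonneg t.2 hs.1)
      have := Str.uniq hG.li hs (h.str o (c t)) (by simp [h0, (h.2.1 _ _).1])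
        (by simp [(h.2.1 _ _).2.1]) (t := l) ⟨l.2, by exact_mod_cast hl⟩
      rw [← this]
      simp only [add_zero]
      congr 1
      rw [← NNReal.coe_mul, Real.toNNReal_coe, mul_comm]

noncomputable def bdHomeo {σ : X → X → ℝ → X} (h : IsConvexBicombing σ) (o : X) :
    Boundary σ o ≃ₜ Bd o :=
  (Homeomorph.refl _).subtype (isSigmaRay_iff h o)

/-- a ray from `o` as a boundary point -/
def mkBd {o : X} (r : ℝ → X) (hr : IsRay r) (h0 : r 0 = o) : Bd o :=
  ⟨⟨fun t => r t, hr.2.1.comp_continuous NNReal.continuous_coe fun t => t.2⟩, h0,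
    hr.congr fun t ht => by simp [Real.coe_toNNReal _ ht]⟩

omit hG in
theorem mkBd_pt {o : X} (r : ℝ → X) (hr : IsRay r) (h0 : r 0 = o) {t : ℝ} (ht : 0 ≤ t) :
    (mkBd r hr h0).pt t = r t := by simp [mkBd, Bd.pt, Real.coe_toNNReal _ ht]

theorem ray_ratio {r r' : ℝ → X} (hr : IsRay r) (hr' : IsRay r') (h0 : r 0 = r' 0) {t T : ℝ}
    (ht : 0 ≤ t) (hT : t ≤ T) : T * dist (r t) (r' t) ≤ t * dist (r T) (r' T) := by
  have := ConvexOn.three (conv2 hG.li hr.2 hr'.2) (a := 0) (b := T) (mem_Ici.2 le_rfl)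
    (mem_Ici.2 (ht.trans hT)) ht hT
  simpa [h0] using this

theorem ray_mono {r r' : ℝ → X} (hr : IsRay r) (hr' : IsRay r') (h0 : r 0 = r' 0) {t T : ℝ}
    (ht : 0 ≤ t) (hT : t ≤ T) : dist (r t) (r' t) ≤ dist (r T) (r' T) := by
  have := (conv2 hG.li hr.2 hr'.2).le_max_of_mem_Icc (mem_Ici.2 le_rfl)
    (mem_Ici.2 (ht.trans hT)) ⟨ht, hT⟩
  simpa [h0] using this

theorem tendsto_Bd {o : X} {ι : Type} {l : Filter ι} {c : ι → Bd o} {c0 : Bd o}
    (h : ∀ t, 0 ≤ t → Tendsto (fun i => (c i).pt t) l (𝓝 (c0.pt t))) : Tendsto c l (𝓝 c0) := by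
  rw [tendsto_subtype_rng, ContinuousMap.tendsto_iff_forall_isCompact_tendstoUniformlyOn]
  intro K hK
  obtain ⟨T, hT⟩ := hK.bddAbove
  rw [Metric.tendstoUniformlyOn_iff]
  intro e he
  filter_upwards [Metric.tendsto_nhds.1 (h T T.2) e he] with i hi t ht
  have := ray_mono c0.ray (c i).ray (by rw [Bd.zero, Bd.zero]) (t := t) (T := T) t.2 (hT ht)
  rw [dist_comm] at hi
  have := this.trans_lt hi
  simpa [Bd.pt] using this

theorem exists_ray_lim {o : X} {ι : Type} (U : Ultrafilter ι) (γ : ι → ℝ → X)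
    (h0 : ∀ i, γ i 0 = o)
    (h : ∀ T : ℝ, ∀ᶠ i in U, Str (Icc 0 T) (γ i) ∧
      ∀ s ∈ Icc 0 T, ∀ t ∈ Icc 0 T, dist (γ i s) (γ i t) = |s - t|) :
    ∃ c : Bd o, ∀ t, 0 ≤ t → Tendsto (fun i => γ i t) U (𝓝 (c.pt t)) := by
  have hl : ∀ t, ∃ a, 0 ≤ t → Tendsto (fun i => γ i t) U (𝓝 a) := by
    intro t
    by_cases ht : 0 ≤ t
    · obtain ⟨a, ha⟩ := exists_ulim U (fun i => γ i t) o t (by
        filter_upwards [h t] with i hi
        have := hi.2 t ⟨ht, le_rfl⟩ 0 ⟨le_rfl, ht⟩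
        rw [h0, sub_zero, abs_of_nonneg ht] at this
        exact this.le)
      exact ⟨a, fun _ => ha⟩
    · exact ⟨o, fun h => absurd h ht⟩
  choose r hr using hl
  have r0 : r 0 = o := by
    have := hr 0 le_rfl
    simp only [h0] at this
    exact (tendsto_const_nhds_iff.1 this).symm
  have hray : IsRay r := by
    refine isRay_of (fun s t hs ht => ?_) (fun z => ⟨convex_Ici 0, ?_⟩)
    · refine tendsto_nhds_unique ((hr s hs).dist (hr t ht)) (tendsto_const_nhds.congr' ?_)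
      filter_upwards [h (max s t)] with i hi
      exact (hi.2 s ⟨hs, le_max_left _ _⟩ t ⟨ht, le_max_right _ _⟩).symm
    · intro s hs t ht a b ha hb hab
      have hm : 0 ≤ a • s + b • t := (convex_Ici 0) hs ht ha hb hab
      refine le_of_tendsto_of_tendsto ((tendsto_const_nhds (x := z)).dist (hr _ hm))
        ((((tendsto_const_nhds (x := z)).dist (hr _ hs)).const_smul a).add
          (((tendsto_const_nhds (x := z)).dist (hr _ ht)).const_smul b)) ?_
      filter_upwards [h (max s t)] with i hi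
      exact (hi.1.2 z).2 ⟨hs, le_max_left _ _⟩ ⟨ht, le_max_right _ _⟩ ha hb hab
  exact ⟨mkBd r hray r0, fun t ht => by rw [mkBd_pt _ _ _ ht]; exact hr t ht⟩

instance (o : X) : CompactSpace (Bd o) := by
  refine ⟨isCompact_iff_ultrafilter_le_nhds'.2 fun U _ => ?_⟩
  obtain ⟨c, hc⟩ := exists_ray_lim (o := o) U (fun c => c.pt) (fun c => c.zero)
    (fun T => Eventually.of_forall fun c => ⟨c.ray.2.mono (fun t ht => ht.1) (convex_Icc 0 T),
      fun s hs t ht => c.ray.1 s t hs.1 ht.1⟩)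
  exact ⟨c, mem_univ _, tendsto_Bd (c := id) hc⟩

theorem exists_cls (o : X) {r : ℝ → X} (hr : IsRay r) :
    ∃ c : Bd o, ∀ t, 0 ≤ t → dist (c.pt t) (r t) ≤ dist o (r 0) := by
  let U : Ultrafilter ℕ := Filter.hyperfilter ℕ
  have hU : (U : Filter ℕ) ≤ atTop := by
    rw [← Nat.cofinite_eq_atTop]; exact hyperfilter_le_cofinite
  set D := dist o (r 0) with hD
  have hD0 : 0 ≤ D := dist_nonneg
  let l : ℕ → ℝ := fun n => dist o (r n)
  have hl : ∀ n : ℕ, (n : ℝ) - D ≤ l n ∧ l n ≤ n + D := by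
    intro n
    have h1 := hr.1 0 n le_rfl (Nat.cast_nonneg n)
    rw [zero_sub, abs_neg, abs_of_nonneg (Nat.cast_nonneg n)] at h1
    have h2 := dist_triangle o (r 0) (r n)
    have h3 := dist_triangle_left (r 0) (r n) o
    simp only [l]; constructor <;> linarith
  have hbig : ∀ T : ℝ, ∀ᶠ n : ℕ in U, T < l n ∧ 0 < l n := by
    intro T
    apply hU
    filter_upwards [(tendsto_natCast_atTop_atTop (R := ℝ)).eventually_gt_atTop (|T| + D)] with n hn
    have := (hl n).1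
    constructor
    · linarith [le_abs_self T]
    · linarith [abs_nonneg T]
  obtain ⟨c, hc⟩ := exists_ray_lim (o := o) U (fun n t => geo o (r n) ((l n)⁻¹ * t + 0))
    (fun n => by simp [geo_zero]) (fun T => by
      filter_upwards [hbig T] with n hn
      have hm : ∀ t ∈ Icc 0 T, (l n)⁻¹ * t + 0 ∈ Icc (0 : ℝ) 1 := by
        intro t ht
        rw [add_zero]
        exact ⟨mul_nonneg (inv_nonneg.2 hn.2.le) ht.1, by
          rw [inv_mul_le_iff₀ hn.2]; linarith [ht.2]⟩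
      refine ⟨(geo_str _ _).affine _ _ (convex_Icc 0 T) hm, fun s hs t ht => ?_⟩
      rw [geo_dist _ _ _ (hm s hs) _ (hm t ht)]
      have : (l n)⁻¹ * s + 0 - ((l n)⁻¹ * t + 0) = (l n)⁻¹ * (s - t) := by ring
      rw [this, abs_mul, abs_of_pos (inv_pos.2 hn.2)]
      change _ * l n = _
      have := hn.2.ne'
      field_simp)
  refine ⟨c, fun t ht => ?_⟩
  refine le_of_forall_pos_le_add fun e he => ?_
  refine le_of_tendsto ((hc t ht).dist (tendsto_const_nhds (x := r t))) ?_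
  filter_upwards [hbig t, hbig (t * D / e)] with n hn hn'
  have hm : (l n)⁻¹ * t + 0 ∈ Icc (0 : ℝ) 1 := by
    rw [add_zero]
    exact ⟨mul_nonneg (inv_nonneg.2 hn.2.le) ht, by rw [inv_mul_le_iff₀ hn.2]; linarith⟩
  have hs := hr.2.affine (J := Icc 0 1) n 0 (convex_Icc 0 1) (by
    intro s hs; rw [add_zero]; exact mul_nonneg (Nat.cast_nonneg n) hs.1)
  have h1 := (conv2 hG.li (geo_str o (r n)) hs).le_max_of_mem_Icc ⟨le_rfl, zero_le_one⟩
    ⟨zero_le_one, le_rfl⟩ hm
  simp only [geo_zero, geo_one, mul_zero, add_zero, mul_one, dist_self] at h1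
  rw [max_eq_left hD0] at h1
  have hpos : 0 ≤ (n : ℝ) * ((l n)⁻¹ * t) :=
    mul_nonneg (Nat.cast_nonneg n) (mul_nonneg (inv_nonneg.2 hn.2.le) ht)
  have h2 := hr.1 _ t hpos ht
  have h3 : |(n : ℝ) * ((l n)⁻¹ * t) - t| ≤ e := by
    have e1 : (n : ℝ) * ((l n)⁻¹ * t) - t = t * (n - l n) / l n := by
      have := hn.2.ne'; field_simp
    rw [e1, abs_div, abs_of_pos hn.2, div_le_iff₀ hn.2, abs_mul, abs_of_nonneg ht]
    have a1 : |(n : ℝ) - l n| ≤ D := by rw [abs_le]; constructor <;> linarith [(hl n).1, (hl n).2]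
    have a2 := hn'.1
    rw [div_lt_iff₀ he] at a2
    nlinarith [mul_le_mul_of_nonneg_left a1 ht]
  have h4 := dist_triangle (geo o (r n) ((l n)⁻¹ * t)) (r (n * ((l n)⁻¹ * t))) (r t)
  simp only [add_zero]
  linarith

noncomputable def cls (o : X) {r : ℝ → X} (hr : IsRay r) : Bd o := (exists_cls o hr).choose

theorem cls_dist (o : X) {r : ℝ → X} (hr : IsRay r) {t : ℝ} (ht : 0 ≤ t) :
    dist ((cls o hr).pt t) (r t) ≤ dist o (r 0) := (exists_cls o hr).choose_spec t ht

theorem Bd.eq_of_bdd {o : X} {c c' : Bd o} {D : ℝ}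
    (h : ∀ T : ℝ, ∃ s, T ≤ s ∧ dist (c.pt s) (c'.pt s) ≤ D) : c = c' := by
  refine Bd.ext' fun t ht => ?_
  have := ConvexOn.le_init (conv2 hG.li c.ray.2 c'.ray.2) h ht
  simpa [Bd.zero] using this

theorem eq_cls {o : X} {c : Bd o} {r : ℝ → X} (hr : IsRay r) {D : ℝ}
    (h : ∀ T : ℝ, ∃ s, T ≤ s ∧ dist (c.pt s) (r s) ≤ D) : c = cls o hr := by
  refine Bd.eq_of_bdd (D := D + dist o (r 0)) fun T => ?_
  obtain ⟨s, hs, h1⟩ := h (max T 0)
  refine ⟨s, (le_max_left _ _).trans hs, ?_⟩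
  have := cls_dist o hr ((le_max_right _ _).trans hs)
  linarith [dist_triangle_right (c.pt s) ((cls o hr).pt s) (r s)]

theorem cls_eq_cls {o : X} {r r' : ℝ → X} (hr : IsRay r) (hr' : IsRay r') {D : ℝ}
    (h : ∀ T : ℝ, ∃ s, T ≤ s ∧ dist (r s) (r' s) ≤ D) : cls o hr = cls o hr' := by
  refine eq_cls hr' (D := D + dist o (r 0)) fun T => ?_
  obtain ⟨s, hs, h1⟩ := h (max T 0)
  refine ⟨s, (le_max_left _ _).trans hs, ?_⟩
  have := cls_dist o hr ((le_max_right _ _).trans hs)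
  linarith [dist_triangle ((cls o hr).pt s) (r s) (r' s)]

theorem dist_le_of_cls_eq {o : X} {r r' : ℝ → X} (hr : IsRay r) (hr' : IsRay r')
    (h : cls o hr = cls o hr') {t : ℝ} (ht : 0 ≤ t) :
    dist (r t) (r' t) ≤ dist o (r 0) + dist o (r' 0) := by
  have h1 := cls_dist o hr ht
  have h2 := cls_dist o hr' ht
  rw [h] at h1
  linarith [dist_triangle_left (r t) (r' t) ((cls o hr').pt t)]

/-- convergence of classes from convergence of rays with bounded base points -/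
theorem tendsto_cls {o : X} {ι : Type} {l : Filter ι} {r : ι → ℝ → X} {c0 : Bd o}
    (hr : ∀ i, IsRay (r i)) {D : ℝ} (hD : ∀ᶠ i in l, dist o (r i 0) ≤ D)
    (h : ∀ T : ℝ, ∃ s, T ≤ s ∧ ∀ᶠ i in l, dist (r i s) (c0.pt s) ≤ D) :
    Tendsto (fun i => cls o (hr i)) l (𝓝 c0) := by
  refine tendsto_Bd fun t ht => Metric.tendsto_nhds.2 fun e he => ?_
  obtain ⟨s, hs, h1⟩ := h (max (t + 1) (t * (2 * D) / e + 1))
  have s1 : t + 1 ≤ s := (le_max_left _ _).trans hs
  have s2 : t * (2 * D) / e + 1 ≤ s := (le_max_right _ _).trans hs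
  filter_upwards [hD, h1] with i a1 a2
  have b1 := ray_ratio (cls o (hr i)).ray c0.ray (by rw [Bd.zero, Bd.zero]) ht (T := s) (by linarith)
  have b2 := cls_dist o (hr i) (t := s) (by linarith)
  have b3 := dist_triangle ((cls o (hr i)).pt s) (r i s) (c0.pt s)
  have b4 : t * (2 * D) / e < s := by linarith
  rw [div_lt_iff₀ he] at b4
  have b5 : t * dist ((cls o (hr i)).pt s) (c0.pt s) ≤ t * (2 * D) :=
    mul_le_mul_of_nonneg_left (by linarith) ht
  have s0 : 0 < s := by linarith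
  by_contra hcon
  push Not at hcon
  nlinarith

omit hG in
/-- locally isometric straight Lipschitz curves are rays -/
theorem isRay_of_loc {r : ℝ → X} (h1 : ∀ s t, 0 ≤ s → 0 ≤ t → dist (r s) (r t) ≤ |s - t|)
    (h2 : ∀ z, ConvexOn ℝ (Ici 0) (fun t => dist z (r t)))
    (h3 : ∀ a, 0 ≤ a → ∃ b, a < b ∧ dist (r a) (r b) = b - a) : IsRay r := by
  have key : ∀ s t, 0 ≤ s → s ≤ t → t - s ≤ dist (r s) (r t) := by
    intro s t hs hst
    obtain ⟨b, hb, hb'⟩ := h3 s hs
    rcases le_total t b with h | h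
    · have := h1 t b (hs.trans hst) (by linarith)
      rw [abs_of_nonpos (by linarith)] at this
      linarith [dist_triangle (r s) (r t) (r b)]
    · have := ConvexOn.three (h2 (r s)) (a := s) (t := b) (b := t) (mem_Ici.2 hs)
        (mem_Ici.2 (hs.trans hst)) hb.le h
      simp only [dist_self, mul_zero, zero_add, hb'] at this
      rw [mul_comm] at this
      exact le_of_mul_le_mul_left this (by linarith)
  refine isRay_of (fun s t hs ht => le_antisymm (h1 s t hs ht) ?_) h2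
  rcases le_total s t with h | h
  · rw [abs_of_nonpos (by linarith)]; linarith [key s t hs h]
  · rw [abs_of_nonneg (by linarith), dist_comm]; exact key t s ht h

/-- convex subsets -/
def Cvx (A : Set X) : Prop := ∀ x ∈ A, ∀ y ∈ A, ∀ t ∈ Icc (0 : ℝ) 1, geo x y t ∈ A

theorem Cvx.infDist_convex {A : Set X} (hA : Cvx A) (hne : A.Nonempty) {I : Set ℝ} {γ : ℝ → X}
    (hγ : Str I γ) : ConvexOn ℝ I (fun t => Metric.infDist (γ t) A) := by
  have hI : Convex ℝ I := (hγ.2 (γ 0)).1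
  refine ⟨hI, fun s hs t ht a b ha hb hab => ?_⟩
  refine le_of_forall_pos_le_add fun e he => ?_
  obtain ⟨x, hx, hx'⟩ := (Metric.infDist_lt_iff hne).1
    (lt_add_of_pos_right (Metric.infDist (γ s) A) he)
  obtain ⟨y, hy, hy'⟩ := (Metric.infDist_lt_iff hne).1
    (lt_add_of_pos_right (Metric.infDist (γ t) A) he)
  have ha' : a = 1 - b := by linarith
  have hb1 : b ∈ Icc (0 : ℝ) 1 := ⟨hb, by linarith⟩
  have hs' := hγ.affine (J := Icc 0 1) (t - s) s (convex_Icc 0 1) (by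
    intro u hu
    have := hI hs ht (by linarith [hu.2] : 0 ≤ 1 - u) hu.1 (by ring)
    simp only [smul_eq_mul] at this
    convert this using 1; ring)
  have h1 := ConvexOn.three (conv2 hG.li hs' (geo_str x y)) (a := 0) (b := 1)
    ⟨le_rfl, zero_le_one⟩ ⟨zero_le_one, le_rfl⟩ hb1.1 hb1.2
  simp only [geo_zero, geo_one, mul_zero, zero_add, mul_one, sub_add_cancel, sub_zero,
    one_mul] at h1
  have h2 := Metric.infDist_le_dist_of_mem (x := γ ((t - s) * b + s)) (hA x hx y hy b hb1)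
  have e1 : a • s + b • t = (t - s) * b + s := by rw [ha']; simp only [smul_eq_mul]; ring
  rw [e1]
  simp only [smul_eq_mul]
  rw [← ha'] at h1
  nlinarith [mul_le_mul_of_nonneg_left hx'.le ha, mul_le_mul_of_nonneg_left hy'.le hb]

/-- boundary of a subset -/
def bd (o : X) (A : Set X) : Set (Bd o) :=
  {c | ∃ D : ℝ, ∀ T : ℝ, ∃ s, T ≤ s ∧ ∃ a ∈ A, dist (c.pt s) a ≤ D}

omit hG in
theorem bd_mono {o : X} {A B : Set X} (h : A ⊆ B) : bd o A ⊆ bd o B := by
  rintro c ⟨D, hD⟩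
  refine ⟨D, fun T => ?_⟩
  obtain ⟨s, hs, a, ha, h1⟩ := hD T
  exact ⟨s, hs, a, h ha, h1⟩

theorem mem_bd_iff {o : X} {A : Set X} (hA : Cvx A) (hne : A.Nonempty) {c : Bd o} :
    c ∈ bd o A ↔ ∀ t, 0 ≤ t → Metric.infDist (c.pt t) A ≤ Metric.infDist o A := by
  constructor
  · rintro ⟨D, hD⟩ t ht
    have := ConvexOn.le_init (hA.infDist_convex hne c.ray.2) (C := D) (fun T => by
      obtain ⟨s, hs, a, ha, h1⟩ := hD T
      exact ⟨s, hs, (Metric.infDist_le_dist_of_mem ha).trans h1⟩) ht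
    rwa [c.zero] at this
  · intro h
    refine ⟨Metric.infDist o A + 1, fun T => ⟨max T 0, le_max_left _ _, ?_⟩⟩
    obtain ⟨a, ha, h1⟩ := (Metric.infDist_lt_iff hne).1
      ((h (max T 0) (le_max_right _ _)).trans_lt (lt_add_one _))
    exact ⟨a, ha, h1.le⟩

theorem isClosed_bd {o : X} {A : Set X} (hA : Cvx A) (hne : A.Nonempty) : IsClosed (bd o A) := by
  have : bd o A = ⋂ t : ℝ, ⋂ _ : 0 ≤ t,
      {c : Bd o | Metric.infDist (c.pt t) A ≤ Metric.infDist o A} := by
    ext c; simp [mem_bd_iff hA hne]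
  rw [this]
  exact isClosed_iInter fun t => isClosed_iInter fun _ =>
    isClosed_le ((Metric.continuous_infDist_pt A).comp (Bd.cont_pt t)) continuous_const

theorem cls_mem_bd {o : X} {r : ℝ → X} (hr : IsRay r) {A : Set X} (h : ∀ t, 0 ≤ t → r t ∈ A) :
    cls o hr ∈ bd o A :=
  ⟨dist o (r 0), fun T => ⟨max T 0, le_max_left _ _, _, h _ (le_max_right _ _),
    cls_dist o hr (le_max_right _ _)⟩⟩

omit hG in
theorem bd_union {o : X} {A B : Set X} (h : A ∪ B = univ) (c : Bd o) : c ∈ bd o A ∨ c ∈ bd o B := by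
  by_contra hc
  push Not at hc
  obtain ⟨h1, h2⟩ := hc
  simp only [bd, mem_ofPred_eq, not_exists, not_forall, not_and, not_le] at h1 h2
  obtain ⟨T1, h1⟩ := h1 0
  obtain ⟨T2, h2⟩ := h2 0
  have hm : c.pt (max T1 T2) ∈ A ∪ B := h ▸ mem_univ _
  rcases hm with hm | hm
  · simpa using h1 _ (le_max_left T1 T2) _ hm
  · simpa using h2 _ (le_max_right T1 T2) _ hm

end Pool.Agent.P.MP_318c20_al
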