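import Pool.Agent.P.MP_318c20_al.Proper
import Pool.Agent.P.MP_318c20_al.Rays

namespace Pool.Agent.P.MP_318c20_al

open Set Filter Topology

variable {m : ℕ} (D : ZMod m → Bool)

def sg (b : Bool) : ℝ := bif b then 1 else -1

def Act (x : Sp D) (w : Pl) (i : Bool × Bool) (v : ℝ × ℝ) : Prop :=
  lam i v + bz D w i x = dist x (e D w v)

theorem lam_dirv (i : Bool × Bool) (v : ℝ × ℝ) (τ : ℝ) : lam i (v + τ • dirv i) = lam i v + τ := by
  obtain ⟨j, b⟩ := i
  cases j <;> cases b <;> simp [lam, dirv, co, pt] <;> ring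

theorem dist_dirv (i : Bool × Bool) (v : ℝ × ℝ) (τ : ℝ) : dist v (v + τ • dirv i) = |τ| := by
  obtain ⟨j, b⟩ := i
  cases j <;> cases b <;> simp [dirv, pt]

theorem act_iff {x : Sp D} {w : Pl} {i : Bool × Bool} {v : ℝ × ℝ} : Act D x w i v ↔
    ∀ τ, 0 ≤ τ → dist x (e D w (v + τ • dirv i)) = dist x (e D w v) + τ := by
  constructor
  · intro h τ hτ
    have h1 := bz_le D w x (v + τ • dirv i) i
    have h2 := dist_triangle x (e D w v) (e D w (v + τ • dirv i))
    rw [dist_e, dist_dirv, abs_of_nonneg hτ] at h2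
    rw [lam_dirv] at h1
    unfold Act at h
    linarith
  · intro h
    obtain ⟨τ, h1, h2⟩ := ((bz_ev D w x v i).and (eventually_ge_atTop 0)).exists
    rw [h τ h2] at h1
    unfold Act; linarith

theorem nc_dir1 (w : Pl) (l : Step) (b : Bool) (u s τ : ℝ) :
    nc D w l (u, s) + τ • dirv (l.1, b) = nc D w l (u + sg b * τ, s) := by
  obtain ⟨j, k⟩ := l
  cases j <;> cases b <;> simp [nc, sw, dirv, pt, sg] <;> ring

theorem nc_dir2 (w : Pl) (l : Step) (b : Bool) (u s τ : ℝ) :
    nc D w l (u, s) + τ • dirv (!l.1, b) = nc D w l (u, s + sg b * τ) := by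
  obtain ⟨j, k⟩ := l
  cases j <;> cases b <;> simp [nc, sw, dirv, pt, sg] <;> ring

theorem act1 {x : Sp D} {w : Pl} {l : Step} {b : Bool} {u s : ℝ} :
    Act D x w (l.1, b) (nc D w l (u, s)) ↔
    ∀ τ, 0 ≤ τ → dist x (N D w l (u + sg b * τ, s)) = dist x (N D w l (u, s)) + τ := by
  simp only [act_iff, nc_dir1, N]

theorem act2 {x : Sp D} {w : Pl} {l : Step} {b : Bool} {u s : ℝ} :
    Act D x w (!l.1, b) (nc D w l (u, s)) ↔
    ∀ τ, 0 ≤ τ → dist x (N D w l (u, s + sg b * τ)) = dist x (N D w l (u, s)) + τ := by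
  simp only [act_iff, nc_dir2, N]

theorem beyond_min {w g : Pl} {l : Step} (h : g ∈ Far w l) (vx : ℝ × ℝ) (u r : ℝ) :
    dist (e D g vx) (Lam D w l r) ≤ dist (e D g vx) (N D w l (u, r)) := by
  rcases kap_cases D w l.1 with hk | hk
  · obtain ⟨h, a, b, -, H⟩ := beyond_axis D hk h vx
    rw [Lam, hk, H, H]
    exact max_le_max (by simp) le_rfl
  · obtain ⟨a, b, H⟩ := beyond_diag D hk h vx
    rw [Lam, hk, H, H]
    simp

theorem beyond_min' {w g : Pl} {l : Step} (hk : kap D w l.1 = 1) (h : g ∈ Far w l) (vx : ℝ × ℝ)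
    (u r : ℝ) : dist (e D g vx) (Lam D w l u) ≤ dist (e D g vx) (N D w l (u, r)) := by
  obtain ⟨a, b, H⟩ := beyond_diag D hk h vx
  rw [Lam, hk, H, H]
  simp

theorem Lam_axis {w : Pl} {l : Step} (hk : kap D w l.1 = 0) (s : ℝ) :
    Lam D w l s = N D w l (0, s) := by rw [Lam, hk, zero_mul]

theorem lp_axis {w : Pl} {l : Step} (hk : kap D w l.1 = 0) (s : ℝ) :
    lp D w l s = nc D w l (0, s) := by rw [lp, hk, zero_mul]

theorem act_transfer {x : Sp D} {w : Pl} {l : Step} {b : Bool} {s : ℝ} (hk : kap D w l.1 = 0)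
    (h : Act D x w (!l.1, b) (lp D w l s)) :
    Act D x (nb w l) (!l.1, b) (lp D (nb w l) (bl w l) (s + cs w l)) := by
  have hk' : kap D (nb w l) (bl w l).1 = 0 := (kap_nb D w l).trans hk
  rw [lp_axis D hk, act2] at h
  rw [lp_axis D hk']
  refine (act2 D (l := bl w l)).2 fun τ hτ => ?_
  have := h τ hτ
  rw [← Lam_axis D hk, ← Lam_axis D hk, Lam_glue D w l s, Lam_glue D w l (s + _),
    Lam_axis D hk', Lam_axis D hk'] at this
  rw [← this]; congr 3; ring

theorem not_far_of_decr {w g : Pl} {l : Step} (hk : kap D w l.1 = 0) (hg : g ∈ Far w l)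
    (vx : ℝ × ℝ) {s t : ℝ} (hd : dist (e D g vx) (Lam D w l t) < dist (e D g vx) (Lam D w l s))
    (l' : Step) (r : ℝ) (hr : lp D (nb w l) (bl w l) (s + cs w l) = lp D (nb w l) l' r) :
    g ∉ Far (nb w l) l' := by
  intro hg'
  have hk' : kap D (nb w l) (bl w l).1 = 0 := (kap_nb D w l).trans hk
  by_cases p : l'.1 = (bl w l).1
  · have := par_dist D (nb w l) p (ne_bl hg hg') r (s + cs w l)
    rw [Lam_eq, Lam_eq, hr, dist_self] at this
    norm_num at this
  · have e1 : (!(bl w l).1) = l'.1 := by revert p; cases l'.1 <;> cases (bl w l).1 <;> simp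
    have h1 := nc_dir2 D (nb w l) (bl w l) true 0 (s + cs w l) (t - s)
    rw [← lp_axis D hk', ← lp_axis D hk', hr, e1, lp, nc_dir1] at h1
    have h2 := beyond_min D hg' vx (kap D (nb w l) l'.1 * r + sg true * (t - s)) r
    rw [N, h1, Lam_eq, ← hr, ← Lam_eq, ← Lam_eq, ← Lam_glue] at h2
    have e2 : s + cs w l + sg true * (t - s) = t + cs w l := by simp [sg]; ring
    rw [e2, ← Lam_glue] at h2
    linarith

theorem up_of {A s a b d : ℝ}
    (h : ∀ τ, 0 ≤ τ → max A (max (s + τ + a) (-(s + τ) + b)) = d + τ) : s + a = d := by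
  have q1 := abs_le.1 (le_refl |A - d|)
  have q2 := abs_le.1 (le_refl |-s + b - d|)
  have := h (|A - d| + |-s + b - d| + 1) (by positivity)
  rcases max_choice A (max (s + (|A - d| + |-s + b - d| + 1) + a)
    (-(s + (|A - d| + |-s + b - d| + 1)) + b)) with e | e <;> rw [e] at this
  · linarith [abs_nonneg (-s + b - d)]
  · rcases max_choice (s + (|A - d| + |-s + b - d| + 1) + a)
      (-(s + (|A - d| + |-s + b - d| + 1)) + b) with e | e <;> rw [e] at this
    · linarith
    · linarith [abs_nonneg (-s + b - d), abs_nonneg (A - d)]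

theorem vert_step {w g : Pl} {l : Step} (hk : kap D w l.1 = 0) (hg : g ∈ Far w l) (vx : ℝ × ℝ)
    {b : Bool} {u s : ℝ} (hu : u ≠ 0) (h : Act D (e D g vx) w (!l.1, b) (nc D w l (u, s))) :
    dist (e D g vx) (Lam D w l s) = dist (e D g vx) (N D w l (u, s)) ∧
    Act D (e D g vx) w (!l.1, b) (lp D w l s) ∧
    ∃ t, dist (e D g vx) (Lam D w l t) < dist (e D g vx) (Lam D w l s) := by
  obtain ⟨h0, a, c, hac, H⟩ := beyond_axis D hk hg vx
  rw [act2] at h
  rw [lp_axis D hk, act2]
  simp only [Lam_axis D hk, H, abs_zero, add_zero] at h ⊢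
  have hu' : 0 < |u| := abs_pos.2 hu
  have m1 := le_max_left (h0 + |u|) (max (s + a) (-s + c))
  cases b
  · have k : -s + c = max (h0 + |u|) (max (s + a) (-s + c)) := by
      refine up_of (A := h0 + |u|) (b := a) fun τ hτ => ?_
      rw [← h τ hτ, max_comm (_ + a)]
      simp only [sg, cond_false]; congr 2 <;> ring
    have k2 : ∀ τ, -|u| ≤ τ → max h0 (max (s + sg false * τ + a) (-(s + sg false * τ) + c))
        = -s + c + τ := by
      intro τ hτ
      simp only [sg, cond_false]
      rw [max_eq_right (a := s + -1 * τ + a) (by linarith), max_eq_right (by linarith)]; ring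
    have k0 := k2 0 (by linarith)
    simp only [mul_zero, add_zero] at k0
    refine ⟨by rw [k0, ← k], fun τ hτ => by rw [k0, k2 τ (by linarith)],
      s + sg false * (-|u|), by rw [k0, k2 _ le_rfl]; linarith⟩
  · have k : s + a = max (h0 + |u|) (max (s + a) (-s + c)) := by
      refine up_of (A := h0 + |u|) (b := c) fun τ hτ => ?_
      rw [← h τ hτ]
      simp only [sg, cond_true, one_mul]
    have k2 : ∀ τ, -|u| ≤ τ → max h0 (max (s + sg true * τ + a) (-(s + sg true * τ) + c))
        = s + a + τ := by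
      intro τ hτ
      simp only [sg, cond_true]
      rw [max_eq_left (a := s + 1 * τ + a) (by linarith), max_eq_right (by linarith)]; ring
    have k0 := k2 0 (by linarith)
    simp only [mul_zero, add_zero] at k0
    refine ⟨by rw [k0, ← k], fun τ hτ => by rw [k0, k2 τ (by linarith)],
      s + sg true * (-|u|), by rw [k0, k2 _ le_rfl]; linarith⟩

theorem lam_opp (j : Bool) (p : ℝ × ℝ) : lam (j, true) p + lam (j, false) p = 0 := by
  simp [lam]

theorem additive {gx gy : Pl} (vx vy : ℝ × ℝ) : ∀ w j v,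
    Act D (e D gx vx) w (j, true) v → Act D (e D gy vy) w (j, false) v →
    (∀ l r, v = lp D w l r → ¬ (gx ∈ Far w l ∧ gy ∈ Far w l)) →
    dist (e D gx vx) (e D gy vy) = dist (e D gx vx) (e D w v) + dist (e D gy vy) (e D w v) := by
  set x := e D gx vx with hx
  set y := e D gy vy with hy
  have key : ∀ w j v p, Act D x w (j, true) v → Act D y w (j, false) v →
      dist x y = dist x (e D w p) + dist (e D w p) y →
      dist x y = dist x (e D w v) + dist y (e D w v) := by
    intro w j v p h1 h2 h3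
    refine le_antisymm (dist_triangle_right _ _ _) ?_
    have a1 := bz_le D w x p (j, true)
    have a2 := bz_le D w y p (j, false)
    have a3 := lam_opp j p
    have a4 := lam_opp j v
    rw [dist_comm y] at a2
    unfold Act at h1 h2
    linarith
  refine tree_ind gx _ (fun j v h1 h2 _ => key gx j v vx h1 h2 (by simp [hx])) ?_
  intro w l hl ih j v h1 h2 h3
  by_cases hl' : gy ∈ Far w l
  swap
  · obtain ⟨s, hs⟩ := sep D hl hl' vx vy
    exact key w j v _ h1 h2 hs
  obtain ⟨⟨u, s⟩, rfl⟩ := nc_surj D w l v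
  have hne : u ≠ kap D w l.1 * s := fun e => h3 l s (by rw [lp, e]) ⟨hl, hl'⟩
  by_cases hj : j = l.1
  · exfalso
    subst hj
    rcases lt_or_gt_of_ne hne with h | h
    · have := (act1 D).1 h1 (kap D w l.1 * s - u) (by linarith)
      have a := beyond_min D hl vx u s
      simp only [sg, cond_true, one_mul, add_sub_cancel] at this
      rw [Lam] at a; linarith
    · have := (act1 D).1 h2 (u - kap D w l.1 * s) (by linarith)
      have a := beyond_min D hl' vy u s
      simp only [sg, cond_false, neg_mul, one_mul, neg_sub, add_sub_cancel] at this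
      rw [Lam] at a; linarith
  have hj' : j = !l.1 := by revert hj; cases j <;> cases l.1 <;> simp
  subst hj'
  rcases kap_cases D w l.1 with hk | hk
  · rw [hk, zero_mul] at hne
    obtain ⟨a1, a2, t, a3⟩ := vert_step D hk hl vx hne h1
    obtain ⟨b1, b2, -⟩ := vert_step D hk hl' vy hne h2
    have := ih _ _ (act_transfer D hk a2) (act_transfer D hk b2)
      (fun l' r hr hh => not_far_of_decr D hk hl vx a3 l' r hr hh.1)
    rw [← Lam_eq, ← Lam_glue] at this
    rw [this, a1, b1]; rfl
  · exfalso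
    rw [hk, one_mul] at hne
    rcases lt_or_gt_of_ne hne with h | h
    · have := (act2 D).1 h2 (s - u) (by linarith)
      have a := beyond_min' D hk hl' vy u s
      simp only [sg, cond_false, neg_mul, one_mul, neg_sub, add_sub_cancel] at this
      rw [Lam, hk, one_mul] at a; linarith
    · have := (act2 D).1 h1 (u - s) (by linarith)
      have a := beyond_min' D hk hl vx u s
      simp only [sg, cond_true, one_mul, add_sub_cancel] at this
      rw [Lam, hk, one_mul] at a; linarith

theorem opp_pair {x : Sp D} {ι : Type} [Finite ι] (p : ι → Sp D) (r : ι → ℝ) (M : ℝ)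
    (hM : ∀ i, dist (p i) x - r i ≤ M) (hmin : ∀ z, ∃ i, M ≤ dist (p i) z - r i)
    (w : Pl) (v : ℝ × ℝ) (hv : x = e D w v) :
    ∃ j i k, dist (p i) x - r i = M ∧ dist (p k) x - r k = M ∧
      Act D (p i) w (j, true) v ∧ Act D (p k) w (j, false) v := by
  by_contra hc
  have h1 : ∀ j, ∃ b, ∀ i, dist (p i) x - r i = M → ¬ Act D (p i) w (j, b) v := by
    intro j
    by_contra h
    push Not at h
    obtain ⟨i, hi, hi'⟩ := h true
    obtain ⟨k, hk, hk'⟩ := h false
    exact hc ⟨j, i, k, hi, hk, hi', hk'⟩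
  choose b hb using h1
  let d : ℝ × ℝ := (sg (b false), sg (b true))
  have hl : ∀ (q : Bool × Bool) (τ : ℝ), lam q (v + τ • d) =
      lam q v + (if q.2 = b q.1 then τ else -τ) := by
    rintro ⟨j, c⟩ τ
    cases j <;> cases c
    · cases h : b false <;> simp [lam, co, d, h, sg] <;> ring
    · cases h : b false <;> simp [lam, co, d, h, sg]
    · cases h : b true <;> simp [lam, co, d, h, sg] <;> ring
    · cases h : b true <;> simp [lam, co, d, h, sg]
  have : ∀ᶠ τ in 𝓝[>] (0 : ℝ), ∀ i, dist (p i) (e D w (v + τ • d)) - r i < M := by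
    rw [eventually_all]
    intro i
    rcases (hM i).lt_or_eq with hi | hi
    · have hc : ContinuousAt (fun τ : ℝ => dist (p i) (e D w (v + τ • d)) - r i) 0 :=
        ((continuous_const.dist ((isometry_e D w).continuous.comp
          (by fun_prop : Continuous fun τ : ℝ => v + τ • d))).sub continuous_const).continuousAt
      exact mem_nhdsWithin_of_mem_nhds
        (hc.eventually_lt (g := fun _ => M) continuousAt_const (by simpa [← hv] using hi))
    · have : ∀ᶠ τ in 𝓝[>] (0 : ℝ), ∀ q : Bool × Bool,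
          lam q (v + τ • d) + bz D w q (p i) < dist (p i) x := by
        rw [eventually_all]
        intro q
        have a1 := bz_le D w (p i) v q
        rw [← hv] at a1
        by_cases hq : q.2 = b q.1
        · have a2 : lam q v + bz D w q (p i) < dist (p i) x := by
            refine lt_of_le_of_ne a1 fun e => hb q.1 i hi ?_
            rw [← hq]; unfold Act; rw [← hv]; exact e
          filter_upwards [Ioo_mem_nhdsGT (sub_pos.2 a2)] with τ hτ
          rw [hl, if_pos hq]; linarith [hτ.2]
        · filter_upwards [self_mem_nhdsWithin] with τ hτ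
          rw [hl, if_neg hq]
          have : 0 < τ := hτ
          linarith
      filter_upwards [this] with τ hτ
      obtain ⟨q, hq⟩ := bz_ex D w (p i) (v + τ • d)
      linarith [hτ q]
  obtain ⟨τ, hτ⟩ := this.exists
  obtain ⟨i, hi⟩ := hmin (e D w (v + τ • d))
  linarith [hτ i]

theorem Lam_inj (w : Pl) (l : Step) {s t : ℝ} (h : Lam D w l s = Lam D w l t) : s = t := by
  have := dist_Lam D w l s t
  rw [h, dist_self] at this
  exact sub_eq_zero.1 (abs_eq_zero.1 this.symm)

theorem helly_finite {ι : Type} [Fintype ι] [Nonempty ι] (p : ι → Sp D) (r : ι → ℝ)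
    (h : ∀ i j, dist (p i) (p j) ≤ r i + r j) : ∃ z, ∀ i, dist z (p i) ≤ r i := by
  classical
  let f : Sp D → ℝ := fun z => Finset.univ.sup' Finset.univ_nonempty fun i => dist (p i) z - r i
  have hf : Continuous f := Continuous.finset_sup'_apply _ fun i _ => by fun_prop
  have hle : ∀ z i, dist (p i) z - r i ≤ f z := fun z i =>
    Finset.le_sup' (fun i => dist (p i) z - r i) (Finset.mem_univ i)
  have hex : ∀ z, ∃ i, f z = dist (p i) z - r i := fun z => by
    obtain ⟨i, -, hi⟩ := Finset.exists_mem_eq_sup' Finset.univ_nonempty fun i => dist (p i) z - r i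
    exact ⟨i, hi⟩
  obtain ⟨i0⟩ := ‹Nonempty ι›
  obtain ⟨x, hx⟩ := hf.exists_forall_le' (p i0) (by
    filter_upwards [(isCompact_closedBall (p i0) (f (p i0) + r i0)).compl_mem_cocompact] with z hz
    simp only [mem_compl_iff, Metric.mem_closedBall, not_le] at hz
    have := hle z i0
    rw [dist_comm] at hz; linarith)
  by_cases hM : f x ≤ 0
  · exact ⟨x, fun i => by have := hle x i; rw [dist_comm] at this; linarith⟩
  exfalso
  push Not at hM
  set M := f x with hMd
  choose g vg hg using fun i => exists_e D (p i)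
  have nadd : ∀ i k, dist (p i) x - r i = M → dist (p k) x - r k = M →
      dist (p i) (p k) ≠ dist (p i) x + dist (p k) x := by
    intro i k hi hk e
    linarith [h i k]
  let Gd : Pl → Step → Prop := fun w l => ∃ s j i k, x = Lam D w l s ∧
    dist (p i) x - r i = M ∧ dist (p k) x - r k = M ∧
    Act D (p i) w (j, true) (lp D w l s) ∧ Act D (p k) w (j, false) (lp D w l s) ∧
    g i ∈ Far w l ∧ g k ∈ Far w l
  have hGd : ∀ w v, x = e D w v → ∃ l, Gd w l := by
    intro w v hv
    obtain ⟨j, i, k, a1, a2, a3, a4⟩ := opp_pair D p r M (hle x)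
      (fun z => by obtain ⟨i, hi⟩ := hex z; exact ⟨i, hi ▸ hx z⟩) w v hv
    by_contra hc
    refine nadd i k a1 a2 ?_
    rw [hv, hg i, hg k]
    refine additive D _ _ w j v (hg i ▸ a3) (hg k ▸ a4) fun l s hs hh => hc ⟨l, s, j, i, k, ?_⟩
    exact ⟨by rw [hv, hs]; rfl, a1, a2, hs ▸ a3, hs ▸ a4, hh⟩
  have hP : ∀ w l, Gd w l → ∃ s i k, x = Lam D w l s ∧
      dist (p i) x - r i = M ∧ dist (p k) x - r k = M ∧ g i ∈ Far w l ∧ g k ∈ Far w l ∧
      (∀ t, dist (p i) x + kap D w l.1 * (t - s) ≤ dist (p i) (Lam D w l t)) ∧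
      (∀ t, dist (p k) x - kap D w l.1 * (t - s) ≤ dist (p k) (Lam D w l t)) := by
    rintro w l ⟨s, j, i, k, a0, a1, a2, a3, a4, a5, a6⟩
    rcases kap_cases D w l.1 with hk | hk
    · suffices ∃ i, dist (p i) x - r i = M ∧ g i ∈ Far w l ∧
          ∀ t, dist (p i) x ≤ dist (p i) (Lam D w l t) by
        obtain ⟨i, b1, b2, b3⟩ := this
        exact ⟨s, i, i, a0, b1, b1, b2, b2, by simpa [hk] using b3, by simpa [hk] using b3⟩
      by_cases hj : j = l.1
      · subst hj
        refine ⟨i, a1, a5, fun t => ?_⟩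
        obtain ⟨h0, a, c, -, H⟩ := beyond_axis D hk a5 (vg i)
        rw [← hg i] at H
        rw [lp_axis D hk, act1] at a3
        have q := abs_le.1 (le_refl |max (s + a) (-s + c) - dist (p i) (N D w l (0, s))|)
        have := a3 (|max (s + a) (-s + c) - dist (p i) (N D w l (0, s))| + 1) (by positivity)
        set τ := |max (s + a) (-s + c) - dist (p i) (N D w l (0, s))| + 1 with hτ
        have τ0 : 0 < τ := by positivity
        rw [H] at this
        simp only [sg, cond_true, one_mul, zero_add, abs_of_pos τ0] at this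
        rw [a0, Lam_axis D hk, Lam_axis D hk, H 0 t]
        have m1 := le_max_left (h0 + |0|) (max (t + a) (-t + c))
        rw [abs_zero] at m1 ⊢
        rcases max_choice (h0 + τ) (max (s + a) (-s + c)) with e | e <;> rw [e] at this <;> linarith
      · have hj' : j = !l.1 := by revert hj; cases j <;> cases l.1 <;> simp
        subst hj'
        by_contra hc
        push Not at hc
        obtain ⟨t, ht⟩ := hc i a1 a5
        refine nadd i k a1 a2 ?_
        have := additive D (vg i) (vg k) _ _ _ (hg i ▸ act_transfer D hk a3)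
          (hg k ▸ act_transfer D hk a4) (fun l' r' hr hh =>
            not_far_of_decr D hk a5 (vg i) (t := t) (s := s) (by rw [← hg i, ← a0]; exact ht) l' r' hr hh.1)
        rwa [← Lam_eq, ← Lam_glue, ← a0, ← hg i, ← hg k] at this
    · obtain ⟨a, c, H⟩ := beyond_diag D hk a5 (vg i)
      obtain ⟨a', c', H'⟩ := beyond_diag D hk a6 (vg k)
      rw [← hg i] at H
      rw [← hg k] at H'
      have x0 : x = N D w l (s, s) := by rw [a0, Lam, hk, one_mul]
      have e1 : s + a = dist (p i) x := by
        rw [lp, hk, one_mul] at a3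
        refine up_of (A := max (s + a) (-s + c)) (b := c) fun τ hτ => ?_
        by_cases hj : j = l.1
        · subst hj
          rw [x0, ← (act1 D).1 a3 τ hτ, H, max_comm]; simp [sg]
        · have hj' : j = !l.1 := by revert hj; cases j <;> cases l.1 <;> simp
          subst hj'
          rw [x0, ← (act2 D).1 a3 τ hτ, H]; simp [sg]
      have e2 : -s + c' = dist (p k) x := by
        rw [lp, hk, one_mul] at a4
        refine up_of (A := max (s + a') (-s + c')) (b := a') fun τ hτ => ?_
        by_cases hj : j = l.1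
        · subst hj
          rw [x0, ← (act1 D).1 a4 τ hτ, H', max_comm, max_comm (_ + _ + a')]
          simp only [sg, cond_false]; congr 2 <;> ring
        · have hj' : j = !l.1 := by revert hj; cases j <;> cases l.1 <;> simp
          subst hj'
          rw [x0, ← (act2 D).1 a4 τ hτ, H', max_comm (_ + _ + a')]
          simp only [sg, cond_false]; congr 2 <;> ring
      refine ⟨s, i, k, a0, a1, a2, a5, a6, fun t => ?_, fun t => ?_⟩
      · rw [Lam, hk, one_mul, one_mul, H, max_self]
        linarith [le_max_left (t + a) (-t + c)]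
      · rw [Lam, hk, one_mul, one_mul, H', max_self]
        linarith [le_max_right (t + a') (-t + c')]
  have edge : ∀ w l, Gd w l → Gd (nb w l) (bl w l) → False := by
    intro w l h1 h2
    obtain ⟨s, i, -, a0, a1, -, a3, -, a5, -⟩ := hP _ _ h1
    obtain ⟨s', -, k, b0, -, b2, -, b4, -, b6⟩ := hP _ _ h2
    have e1 : s' = s + cs w l := Lam_inj D _ _ (by rw [← b0, ← Lam_glue, a0])
    obtain ⟨t, ht⟩ := sep D a3 ((far_back w l _).1 b4) (vg i) (vg k)
    rw [← hg i, ← hg k] at ht
    refine nadd i k a1 b2 (le_antisymm (dist_triangle_right _ _ _) ?_)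
    have c1 := a5 t
    have c2 := b6 (t + cs w l)
    have c3 : kap D (nb w l) (bl w l).1 = kap D w l.1 := kap_nb D w l
    rw [← Lam_glue, e1, c3, add_sub_add_right_eq_sub, dist_comm (p k) (Lam D w l t)] at c2
    linarith
  have hS := planes_finite D x 0
  have fin : ∀ n w l, Gd w l → (Far w l ∩ {w : Pl | ∃ v, dist x (e D w v) ≤ 0}).ncard = n → False := by
    intro n
    induction n using Nat.strong_induction_on with
    | _ n ih =>
      intro w l h1 hn
      obtain ⟨s, -, -, -, a0, -⟩ := id h1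
      rw [Lam_glue, Lam_eq] at a0
      obtain ⟨l', h2⟩ := hGd _ _ a0
      by_cases e : l' = bl w l
      · exact edge w l h1 (e ▸ h2)
      · refine ih _ (hn ▸ ncard_lt_ncard ?_ (hS.subset inter_subset_right)) _ _ h2 rfl
        refine ⟨fun y hy => ⟨far_nest e hy.1, hy.2⟩, fun hh => ?_⟩
        exact self_not_far _ _ (hh ⟨nb_far w l, _, by rw [← a0]; simp⟩).1
  obtain ⟨w, v, hv⟩ := exists_e D x
  obtain ⟨l, hl⟩ := hGd w v hv
  exact fin _ w l hl rfl

theorem helly_Sp : Helly (Sp D) := by
  classical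
  intro ι p r h
  rcases isEmpty_or_nonempty ι with hι | ⟨⟨i0⟩⟩
  · exact ⟨e D root 0, fun i => isEmptyElim i⟩
  obtain ⟨z, -, hz⟩ := (isCompact_closedBall (p i0) (r i0)).inter_iInter_nonempty
    (fun i => Metric.closedBall (p i) (r i)) (fun i => Metric.isClosed_closedBall) (fun u => by
      have : Nonempty (insert i0 u : Finset ι) := ⟨⟨i0, Finset.mem_insert_self _ _⟩⟩
      obtain ⟨z, hz⟩ := helly_finite D (ι := (insert i0 u : Finset ι)) (fun i => p i) (fun i => r i)
        fun i j => h i j
      refine ⟨z, hz ⟨i0, Finset.mem_insert_self _ _⟩, ?_⟩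
      simp only [mem_iInter]
      exact fun i hi => hz ⟨i, Finset.mem_insert_of_mem hi⟩)
  exact ⟨z, fun i => mem_iInter.1 hz i⟩

instance : Good (Sp D) := ⟨inferInstance, helly_Sp D, li_Sp D⟩

theorem admissible_Sp : Admissible (Sp D) :=
  ⟨inferInstance, fun ι x r _ h => helly_Sp D ι x r h,
    finiteCombDim_of (helly_Sp D) (n := 2) (by exact_mod_cast dimH_Sp D)⟩

end Pool.Agent.P.MP_318c20_al
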