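import Pool.Agent.P.MP_318c20_al.Thin

namespace Pool.Agent.P.MP_318c20_al

open Set Filter Topology

def cl (w : Pl) (j : Bool) : ℤ := co j (st w)

theorem cl_par (w : Pl) : cl w false % 2 = 1 ∧ cl w true % 2 = 0 := ⟨(st_inv w).1, (st_inv w).2.1⟩

theorem cl_adj (w : Pl) (j : Bool) : cl w (!j) = cl w j + 1 ∨ cl w (!j) = cl w j - 1 := by
  have := (st_inv w).2.2
  cases j <;> simp only [cl, co, cond_true, cond_false, Bool.not_true, Bool.not_false] <;> omega

theorem Blk.cl_eq {j : Bool} {w y : Pl} (h : Blk j w y) : cl y j = cl w j := by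
  induction h with
  | refl => rfl
  | tail _ h ih =>
    obtain ⟨k, rfl⟩ := h
    rw [← ih]; simp [cl, st_nb, rfl2]

theorem exists_nbr (w : Pl) (j : Bool) {c : ℤ} (hc : c = cl w j + 1 ∨ c = cl w j - 1) :
    ∃ y, Blk j w y ∧ cl y (!j) = c := by
  by_cases h : cl w (!j) = c
  · exact ⟨w, Relation.ReflTransGen.refl, h⟩
  · refine ⟨nb w (j, 0), Blk.step w (j, 0), ?_⟩
    have h1 : cl (nb w (j, 0)) (!j) = 2 * cl w j - cl w (!j) := by simp [cl, st_nb, rfl2]
    have := cl_adj w j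
    omega

theorem exists_class (c : ℕ) : ∃ w j, cl w j = c := by
  induction c with
  | zero => exact ⟨root, true, rfl⟩
  | succ c ih =>
    obtain ⟨w, j, h⟩ := ih
    obtain ⟨y, -, hy⟩ := exists_nbr w j (Or.inl rfl)
    exact ⟨y, !j, by rw [hy, h]; simp⟩

def Dz (n r : ℕ) (c : ℤ) : Prop := c % (2 * n + 2 : ℕ) = 0 ∨ (2 * r + 2 : ℤ) ≤ c % (2 * n + 2 : ℕ)

def pat (n r : ℕ) : ZMod (2 * n + 2) → Bool := fun z => decide (z.val = 0 ∨ 2 * r + 2 ≤ z.val)

theorem dl_pat (n r : ℕ) (w : Pl) : dl (pat n r) w = 1 ↔ Dz n r (cl w true) := by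
  have h := ZMod.val_intCast (n := 2 * n + 2) (st w).2
  simp only [dl, pat, stm, decide_eq_true_eq, Dz, cl, co, cond_true, ← h]
  split_ifs with h1
  · simp only [true_iff]; omega
  · simp only [zero_ne_one, false_iff]; omega

variable (n r : ℕ) (o : Sp (pat n r))

theorem near_lower (k : ℕ) : ∀ w j, Near k (pp (pat n r) o w j) →
    ∃ c, c % 2 = 0 ∧ Dz n r c ∧ |cl w j - c| ≤ k + 1 := by
  induction k with
  | zero =>
    intro w j h
    by_contra hc
    push Not at hc
    refine h (thin_pp _ o ?_ fun y hy => ?_)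
    · cases j
      · rfl
      · refine (dl_cases _ w).resolve_right fun e => ?_
        simpa using hc _ (cl_par w).2 ((dl_pat n r w).1 e)
    · cases j
      · refine (dl_cases _ y).resolve_right fun e => ?_
        have h1 := hc _ (cl_par y).2 ((dl_pat n r y).1 e)
        have h2 := cl_adj y false
        rw [← hy.cl_eq] at h1
        simp only [Bool.not_false] at h2
        rcases h2 with h2 | h2 <;> rw [h2] at h1 <;> simp at h1
      · rfl
  | succ k ih =>
    rintro w j (h | ⟨π', h1, h2⟩)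
    · obtain ⟨c, a1, a2, a3⟩ := ih w j h
      exact ⟨c, a1, a2, by push_cast; omega⟩
    · obtain ⟨y, hy, rfl⟩ := adj_imp _ o h1
      obtain ⟨c, a1, a2, a3⟩ := ih _ _ h2
      refine ⟨c, a1, a2, ?_⟩
      have := cl_adj y j
      rw [← hy.cl_eq]
      rw [abs_le] at a3 ⊢
      push_cast; omega

theorem near_upper (k : ℕ) : ∀ w j c, c % 2 = 0 → Dz n r c → cl w j ≠ c → |cl w j - c| ≤ k + 1 →
    Near k (pp (pat n r) o w j) := by
  induction k with
  | zero =>
    intro w j c h1 h2 h3 h4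
    rw [abs_le] at h4
    cases j
    · obtain ⟨y, hy, e⟩ := exists_nbr w false (c := c) (by omega)
      rw [← hy.pp_eq _ o]
      exact not_thin _ o ((dl_pat n r y).2 (e ▸ h2))
    · have := (cl_par w).2
      omega
  | succ k ih =>
    intro w j c h1 h2 h3 h4
    by_cases h5 : |cl w j - c| ≤ k + 1
    · exact Or.inl (ih w j c h1 h2 h3 h5)
    right
    rw [abs_le] at h4 h5
    push_cast at h4
    obtain ⟨y, hy, e⟩ := exists_nbr w j (c := if c < cl w j then cl w j - 1 else cl w j + 1)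
      (by split_ifs <;> simp)
    refine ⟨_, hy.pp_eq _ o ▸ adj_plane _ o y j, ih y _ c h1 h2 ?_ ?_⟩
    · rw [e]; split_ifs <;> omega
    · rw [e, abs_le]; split_ifs <;> omega

theorem inv_true (hr : 1 ≤ r) (hrn : r ≤ n) : Inv r (Bd o) := by
  intro π hπ
  obtain ⟨w, j, rfl⟩ := cutP_imp _ o hπ
  obtain ⟨c, h1, h2, h3⟩ : ∃ c, c % 2 = 0 ∧ Dz n r c ∧ |cl w j - c| ≤ r + 1 := by
    set M : ℤ := ((2 * n + 2 : ℕ) : ℤ) with hM
    have hM' : M = 2 * n + 2 := by rw [hM]; push_cast; ring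
    have p1 := Int.emod_nonneg (cl w j) (b := M) (by omega)
    have p2 := Int.emod_lt_of_pos (cl w j) (b := M) (by omega)
    have p3 := Int.mul_ediv_add_emod (cl w j) M
    generalize cl w j % M = ρ at p1 p2 p3
    generalize cl w j / M = q at p3
    have ev : M * q = 2 * ((n + 1) * q) := by rw [hM']; ring
    have hmod : ∀ a : ℤ, 0 ≤ a → a < M → (M * q + a) % M = a := by
      intro a a1 a2
      rw [Int.mul_add_emod_self_left, Int.emod_eq_of_lt a1 a2]
    by_cases c1 : ρ ≤ r + 1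
    · refine ⟨M * q + 0, by omega, Or.inl (hmod 0 le_rfl (by omega)), ?_⟩
      rw [abs_le]; omega
    by_cases c2 : ρ < 2 * r + 2
    · refine ⟨M * q + (2 * r + 2), by omega, ?_, by rw [abs_le]; omega⟩
      rcases hrn.lt_or_eq with h | h
      · exact Or.inr (hmod _ (by omega) (by omega)).ge
      · left
        rw [← hM, show (2 * r + 2 : ℤ) = M by omega]; simp
    by_cases c3 : ρ % 2 = 0
    · exact ⟨M * q + ρ, by omega, Or.inr (by rw [← hM, hmod ρ p1 p2]; omega), by rw [abs_le]; omega⟩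
    · exact ⟨M * q + (ρ - 1), by omega, Or.inr (by rw [← hM, hmod _ (by omega) (by omega)]; omega),
        by rw [abs_le]; omega⟩
  by_cases e : cl w j = c
  · obtain ⟨y, hy, e'⟩ := exists_nbr w j (Or.inl rfl)
    refine Near.mono hr (Or.inr ⟨_, hy.pp_eq _ o ▸ adj_plane _ o y j, ?_⟩)
    exact near_upper n r o 0 y _ c h1 h2 (by omega) (by rw [e', e]; simp)
  · exact near_upper n r o r w j c h1 h2 e h3

theorem inv_false (hrn : r ≤ n) {k : ℕ} (hk : k < r) : ¬ Inv k (Bd o) := by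
  intro h
  obtain ⟨w, j, e⟩ := exists_class (r + 1)
  obtain ⟨c, -, h2, h3⟩ := near_lower n r o k w j (h _ (cutP_pp _ o w j))
  rw [e, abs_le] at h3
  push_cast at h3
  have : c % ((2 * n + 2 : ℕ) : ℤ) = c := Int.emod_eq_of_lt (by omega) (by push_cast; omega)
  unfold Dz at h2
  omega

theorem main (n : ℕ) : ∃ (G : Type) (_ : Group G) (X : Fin n → Type) (_ : ∀ i, MetricSpace (X i))
    (_ : ∀ i, MulAction G (X i)),
    (∀ i, Admissible (X i) ∧ Geometric G (X i) ∧ ∃ σ : X i → X i → ℝ → X i, IsConvexBicombing σ) ∧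
    ∀ i j, i ≠ j → ∀ (σ : X i → X i → ℝ → X i) (τ : X j → X j → ℝ → X j),
      IsConvexBicombing σ → IsConvexBicombing τ → ∀ (o : X i) (o' : X j),
        IsEmpty (Boundary σ o ≃ₜ Boundary τ o') := by
  refine ⟨Gp (2 * n + 2), inferInstance, fun i => Sp (pat n (i + 1)), inferInstance, inferInstance,
    fun i => ⟨admissible_Sp _, geometric_Sp _, _, geo_bicombing⟩, ?_⟩
  intro i j hij σ τ hσ hτ o o'
  refine ⟨fun h => ?_⟩
  have h' := ((bdHomeo hσ o).symm.trans h).trans (bdHomeo hτ o')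
  rcases lt_or_gt_of_ne hij with hl | hl
  · exact inv_false n (j + 1) o' j.2 (k := i + 1) (by simpa using hl)
      ((inv_true n (i + 1) o (by omega) i.2).homeo h')
  · exact inv_false n (i + 1) o i.2 (k := j + 1) (by simpa using hl)
      ((inv_true n (j + 1) o' (by omega) j.2).homeo h'.symm)

end Pool.Agent.P.MP_318c20_al
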