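import Pool.Agent.P.MP_318c20_al.Box
import Pool.Agent.P.MP_318c20_al.Defs

namespace Pool.Agent.P.MP_318c20_al

open Set Filter Topology

variable {m : ℕ} (D : ZMod m → Bool)

/-- affine coordinates -/
noncomputable def ac (w : Pl) (j : Bool) (v : ℝ × ℝ) : ℝ := co j v - kap D w j * co (!j) v

theorem ac_lp (w : Pl) (l : Step) (s : ℝ) : ac D w l.1 (lp D w l s) = l.2 := by
  obtain ⟨j, k⟩ := l
  cases j <;> simp [ac, lp, nc, sw, co, kap]

theorem ac_lp' (w : Pl) (l : Step) (s : ℝ) : ac D w (!l.1) (lp D w l s) = s := by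
  obtain ⟨j, k⟩ := l
  cases j <;> simp [ac, lp, nc, sw, co, kap]

theorem ac_lip (w : Pl) (j : Bool) (v v' : ℝ × ℝ) : |ac D w j v - ac D w j v'| ≤ 2 * dist v v' := by
  have h1 := abs_le.1 (le_max_left |v.1 - v'.1| |v.2 - v'.2|)
  have h2 := abs_le.1 (le_max_right |v.1 - v'.1| |v.2 - v'.2|)
  rw [Prod.dist_eq, Real.dist_eq, Real.dist_eq, abs_le]
  rcases kap_cases D w j with h | h <;> cases j <;>
    simp only [ac, h, co, cond_true, cond_false, Bool.not_true, Bool.not_false] <;>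
    constructor <;> linarith

theorem Lam_eq (w : Pl) (l : Step) (s : ℝ) : Lam D w l s = e D w (lp D w l s) := rfl

theorem par_dist (w : Pl) {l l' : Step} (h : l.1 = l'.1) (hne : l ≠ l') (s s' : ℝ) :
    1 / 2 ≤ dist (Lam D w l s) (Lam D w l' s') := by
  rw [Lam_eq, Lam_eq, dist_e]
  have := ac_lip D w l.1 (lp D w l s) (lp D w l' s')
  rw [ac_lp, h, ac_lp] at this
  have h2 : l.2 ≠ l'.2 := fun e => hne (Prod.ext h e)
  have h3 : (1 : ℝ) ≤ |(l.2 : ℝ) - l'.2| := by
    exact_mod_cast Int.one_le_abs (sub_ne_zero.2 h2)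
  linarith

theorem cross_dist (w : Pl) {l l' : Step} (h : l.1 ≠ l'.1) (s s' : ℝ) :
    |s - l'.2| ≤ 2 * dist (Lam D w l s) (Lam D w l' s') := by
  rw [Lam_eq, Lam_eq, dist_e]
  have := ac_lip D w l'.1 (lp D w l s) (lp D w l' s')
  have e1 : l'.1 = !l.1 := by revert h; cases l.1 <;> cases l'.1 <;> simp
  rwa [ac_lp, e1, ac_lp'] at this

theorem cs_cases (w : Pl) (l : Step) : cs w l = 1 / 2 ∨ cs w l = -1 / 2 := by
  rcases line_cases w l with ⟨-, -, -, h, -⟩ | ⟨-, -, h, -⟩ <;> simp [cs, h] <;> norm_num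

theorem ne_bl {w g : Pl} {l l' : Step} (h : g ∈ Far w l) (h' : g ∈ Far (nb w l) l') :
    l' ≠ bl w l := by
  rintro rfl
  exact (far_back w l g).1 h' h

theorem sep_step {w g : Pl} {l : Step} (h : g ∈ Far w l) (vx v : ℝ × ℝ) :
    ∃ s, dist (e D g vx) (e D w v) = dist (e D g vx) (Lam D w l s) + dist (Lam D w l s) (e D w v) :=
  sep D h (self_not_far w l) vx v

theorem lines_finite (x : Sp D) (w : Pl) (R : ℝ) : {l : Step | ∃ s, dist x (Lam D w l s) ≤ R}.Finite := by
  obtain ⟨n, hn⟩ := exists_nat_ge (2 * (R + dist x (e D w 0)))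
  refine ((finite_univ (α := Bool)).prod (finite_Icc (-(n : ℤ)) n)).subset ?_
  rintro l ⟨s, hs⟩
  refine ⟨mem_univ _, ?_⟩
  have h1 := ac_lip D w l.1 (lp D w l s) 0
  rw [ac_lp, ← dist_e D w, ← Lam_eq] at h1
  have h0 : ac D w l.1 0 = 0 := by cases l.1 <;> simp [ac, co]
  rw [h0, sub_zero] at h1
  have h2 := dist_triangle_left (Lam D w l s) (e D w 0) x
  have h3 : |(l.2 : ℝ)| ≤ n := by linarith
  rw [mem_Icc, ← abs_le]
  exact_mod_cast h3

theorem planes_finite (x : Sp D) (R : ℝ) : {w : Pl | ∃ v, dist x (e D w v) ≤ R}.Finite := by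
  obtain ⟨g, vx, rfl⟩ := exists_e D x
  set x := e D g vx with hx
  have step : ∀ R : ℝ, {w : Pl | ∃ v, dist x (e D w v) ≤ R}.Finite →
      {w : Pl | ∃ v, dist x (e D w v) ≤ R + 1 / 4}.Finite := by
    intro R hR
    let Nb : Set Pl → Set Pl := fun A =>
      A ∪ ⋃ a ∈ A, nb a '' {l : Step | ∃ s, dist x (Lam D a l s) ≤ R + 1 / 4}
    have hNb : ∀ A, A.Finite → (Nb A).Finite := fun A hA =>
      hA.union (hA.biUnion fun a _ => (lines_finite D x a _).image _)
    have hin : ∀ A w l s, nb w l ∈ A → dist x (Lam D w l s) ≤ R + 1 / 4 → w ∈ Nb A := by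
      intro A w l s h1 h2
      right
      simp only [mem_iUnion]
      exact ⟨_, h1, bl w l, ⟨_, by rw [← Lam_glue]; exact h2⟩, nb_nb w l⟩
    refine (hNb _ (hNb _ (hR.insert g))).subset ?_
    rintro w ⟨v, hv⟩
    by_cases e0 : g = w
    · exact Or.inl (Or.inl (e0 ▸ mem_insert _ _))
    obtain ⟨l, hl⟩ := exists_far e0
    obtain ⟨s, hs⟩ := sep_step D hl vx v
    have a1 : dist x (Lam D w l s) ≤ R + 1 / 4 := by
      linarith [dist_nonneg (x := Lam D w l s) (y := e D w v)]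
    refine hin _ w l s ?_ a1
    by_cases e1 : g = nb w l
    · exact Or.inl (e1 ▸ mem_insert _ _)
    obtain ⟨l', hl'⟩ := exists_far e1
    obtain ⟨t, ht⟩ := sep_step D hl' vx (lp D (nb w l) (bl w l) (s + cs w l))
    rw [← Lam_eq, ← Lam_glue] at ht
    have a2 : dist x (Lam D (nb w l) l' t) ≤ R + 1 / 4 := by
      linarith [dist_nonneg (x := Lam D (nb w l) l' t) (y := Lam D w l s)]
    refine hin _ _ l' t ?_ a2
    by_cases e2 : g = nb (nb w l) l'
    · exact e2 ▸ mem_insert _ _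
    obtain ⟨l'', hl''⟩ := exists_far e2
    obtain ⟨r, hr⟩ := sep_step D hl'' vx
      (lp D (nb (nb w l) l') (bl (nb w l) l') (t + cs (nb w l) l'))
    rw [← Lam_eq, ← Lam_glue] at hr
    right
    refine ⟨lp D (nb (nb w l) l') l'' r, ?_⟩
    rw [← Lam_eq]
    have n1 := dist_nonneg (x := Lam D (nb w l) l' t) (y := Lam D w l s)
    have n2 := dist_nonneg (x := Lam D (nb (nb w l) l') l'' r) (y := Lam D (nb w l) l' t)
    suffices 1 / 4 ≤ dist (Lam D (nb w l) l' t) (Lam D w l s) +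
        dist (Lam D (nb (nb w l) l') l'' r) (Lam D (nb w l) l' t) by linarith
    by_cases p1 : l'.1 = (bl w l).1
    · have := par_dist D (nb w l) p1 (ne_bl hl hl') t (s + cs w l)
      rw [← Lam_glue] at this; linarith
    by_cases p2 : l''.1 = (bl (nb w l) l').1
    · have := par_dist D (nb (nb w l) l') p2 (ne_bl hl' hl'') r (t + cs (nb w l) l')
      rw [← Lam_glue] at this; linarith
    have c1 := cross_dist D (nb w l) p1 t (s + cs w l)
    have c2 := cross_dist D (nb (nb w l) l') (Ne.symm p2) (t + cs (nb w l) l') r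
    rw [← Lam_glue] at c1 c2
    rw [dist_comm] at c2
    have c3 : 1 / 2 ≤ |t - ((bl w l).2 : ℝ)| + |t + cs (nb w l) l' - (l''.2 : ℝ)| := by
      have q1 := abs_le.1 (le_refl |t - ((bl w l).2 : ℝ)|)
      have q2 := abs_le.1 (le_refl |t + cs (nb w l) l' - (l''.2 : ℝ)|)
      rcases cs_cases (nb w l) l' with h | h
      · rcases le_or_gt l''.2 (bl w l).2 with k | k
        · have : (l''.2 : ℝ) ≤ (bl w l).2 := by exact_mod_cast k
          linarith
        · have : ((bl w l).2 : ℝ) + 1 ≤ l''.2 := by exact_mod_cast k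
          linarith
      · rcases le_or_gt (bl w l).2 l''.2 with k | k
        · have : ((bl w l).2 : ℝ) ≤ l''.2 := by exact_mod_cast k
          linarith
        · have : (l''.2 : ℝ) + 1 ≤ (bl w l).2 := by exact_mod_cast k
          linarith
    linarith
  have A : ∀ n : ℕ, {w : Pl | ∃ v, dist x (e D w v) ≤ -1 + n / 4}.Finite := by
    intro n
    induction n with
    | zero =>
      convert finite_empty
      ext w
      simp only [mem_ofPred_eq, mem_empty_iff_false, iff_false, not_exists, not_le]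
      intro v
      have := dist_nonneg (x := x) (y := e D w v)
      simp only [Nat.cast_zero]; linarith
    | succ n ih =>
      have := step _ ih
      refine this.subset fun w ⟨v, hv⟩ => ⟨v, ?_⟩
      push_cast at hv; linarith
  obtain ⟨n, hn⟩ := exists_nat_ge (4 * (R + 1))
  exact (A n).subset fun w ⟨v, hv⟩ => ⟨v, by linarith⟩

instance : ProperSpace (Sp D) := by
  refine ⟨fun x R => ?_⟩
  have h := planes_finite D x R
  have hc : IsCompact (⋃ w ∈ {w : Pl | ∃ v, dist x (e D w v) ≤ R},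
      e D w '' Metric.closedBall 0 (R + dist x (e D w 0))) :=
    h.isCompact_biUnion fun w _ => (isCompact_closedBall _ _).image (isometry_e D w).continuous
  refine hc.of_isClosed_subset Metric.isClosed_closedBall fun y hy => ?_
  obtain ⟨w, v, rfl⟩ := exists_e D y
  rw [Metric.mem_closedBall, dist_comm] at hy
  simp only [mem_iUnion]
  refine ⟨w, ⟨v, hy⟩, v, ?_, rfl⟩
  rw [Metric.mem_closedBall, ← dist_e D w]
  linarith [dist_triangle_left (e D w v) (e D w 0) x]

theorem isClosed_plane (w : Pl) : IsClosed (range (e D w)) :=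
  (isometry_e D w).isClosedEmbedding.isClosed_range

theorem near_planes (y0 : Sp D) : ∃ δ > 0, ∀ w v, dist (e D w v) y0 < δ → ∃ v0, y0 = e D w v0 := by
  have h := planes_finite D y0 1
  have : ∀ᶠ y in 𝓝 y0, ∀ w ∈ {w : Pl | ∃ v, dist y0 (e D w v) ≤ 1},
      y ∈ range (e D w) → y0 ∈ range (e D w) := by
    rw [eventually_all_finite h]
    intro w _
    by_cases hy : y0 ∈ range (e D w)
    · exact Eventually.of_forall fun _ _ => hy
    · filter_upwards [(isClosed_plane D w).isOpen_compl.mem_nhds hy] with y h1 h2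
      exact absurd h2 h1
  obtain ⟨δ, hδ, H⟩ := Metric.eventually_nhds_iff.1 this
  refine ⟨min δ 1, by positivity, fun w v hv => ?_⟩
  obtain ⟨v0, h0⟩ := H (hv.trans_le (min_le_left _ _)) w
    ⟨v, by rw [dist_comm]; exact (hv.trans_le (min_le_right _ _)).le⟩ ⟨v, rfl⟩
  exact ⟨v0, h0.symm⟩

theorem lam_lip (i : Bool × Bool) (v v' : ℝ × ℝ) : lam i v - lam i v' ≤ dist v v' := by
  have h1 := abs_le.1 (le_max_left |v.1 - v'.1| |v.2 - v'.2|)
  have h2 := abs_le.1 (le_max_right |v.1 - v'.1| |v.2 - v'.2|)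
  rw [Prod.dist_eq, Real.dist_eq, Real.dist_eq]
  obtain ⟨j, b⟩ := i
  cases j <;> cases b <;> simp only [lam, co, cond_true, cond_false] <;> linarith

theorem li_Sp : LI (Sp D) := by
  intro x0 y0
  obtain ⟨δ1, hδ1, H1⟩ := near_planes D y0
  have h := planes_finite D y0 0
  have : ∀ᶠ δ in 𝓝[>] (0 : ℝ), ∀ w ∈ {w : Pl | ∃ v, dist y0 (e D w v) ≤ 0}, ∀ i : Bool × Bool,
      ∀ v0, y0 = e D w v0 → lam i v0 + bz D w i x0 < dist x0 y0 →
        lam i v0 + bz D w i x0 + 4 * δ < dist x0 y0 := by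
    rw [eventually_all_finite h]
    rintro w ⟨v0, hv0⟩
    rw [eventually_all]
    intro i
    have e0 : y0 = e D w v0 := dist_le_zero.1 hv0
    by_cases hi : lam i v0 + bz D w i x0 < dist x0 y0
    · have hc : ContinuousAt (fun δ : ℝ => lam i v0 + bz D w i x0 + 4 * δ) 0 := by fun_prop
      have := hc.eventually_lt (g := fun _ => dist x0 y0) continuousAt_const (by simpa using hi)
      filter_upwards [mem_nhdsWithin_of_mem_nhds this] with δ hδ v1 h1 _
      rwa [(isometry_e D w).injective (h1.symm.trans e0)]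
    · refine Eventually.of_forall fun δ v1 h1 h2 => ?_
      rw [(isometry_e D w).injective (h1.symm.trans e0)] at h2
      exact absurd h2 hi
  obtain ⟨δ, hδ, hδ0⟩ := (this.and self_mem_nhdsWithin).exists
  refine ⟨min δ δ1, lt_min hδ0 hδ1, fun x y hx hy => ?_⟩
  obtain ⟨w, v, rfl⟩ := exists_e D y
  obtain ⟨v0, rfl⟩ := H1 w v (hy.trans_le (min_le_right _ _))
  have hx' := hx.trans_le (min_le_left _ _)
  have hy' := hy.trans_le (min_le_left _ _)
  obtain ⟨i, hi⟩ := bz_ex D w x v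
  have a1 := bz_le D w x v0 i
  have a2 := bz_le D w x0 v i
  have a3 := bz_le D w x0 v0 i
  rcases a3.lt_or_eq with a4 | a4
  · exfalso
    have b1 := hδ w ⟨v0, by simp⟩ i v0 rfl a4
    have b2 := bz_lip D w i x x0
    have b3 := lam_lip i v v0
    have b4 := dist_triangle4 x0 x (e D w v) (e D w v0)
    rw [dist_comm x0 x] at b4
    rw [← dist_e D w] at b3
    linarith
  · linarith

theorem dimH_Sp : dimH (univ : Set (Sp D)) ≤ 2 := by
  have : (univ : Set (Sp D)) = ⋃ w, range (e D w) := by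
    ext x
    simp only [mem_univ, mem_iUnion, true_iff]
    obtain ⟨w, v, rfl⟩ := exists_e D x
    exact ⟨w, v, rfl⟩
  rw [this, dimH_iUnion]
  refine iSup_le fun w => (isometry_e D w).lipschitz.dimH_range_le.trans ?_
  rw [Real.dimH_univ_eq_finrank]
  simp

theorem finiteCombDim_of {X : Type} [MetricSpace X] (hH : Helly X) {n : ℕ}
    (hd : dimH (univ : Set X) ≤ n) : FiniteCombDim X := by
  refine ⟨n, fun Y => ?_⟩
  have hL : LipschitzWith 1 fun (z : X) (y : Y) => dist z (y : X) :=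
    LipschitzWith.of_dist_le_mul fun a b => by
      rw [NNReal.coe_one, one_mul, dist_pi_le_iff dist_nonneg]
      intro y
      rw [Real.dist_eq]; exact abs_dist_sub_le _ _ _
  refine (dimH_mono ?_).trans (hL.dimH_range_le.trans hd)
  intro f hf
  obtain ⟨z, hz⟩ := hH Y (fun y => (y : X)) f (fun i j => by
    have := (hf i).2 ⟨j, rfl⟩
    simp only at this; linarith)
  refine ⟨z, funext fun y => le_antisymm (hz y) ?_⟩
  obtain ⟨y', hy'⟩ := (hf y).1
  simp only at hy'
  have := hz y'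
  linarith [dist_triangle_left (y : X) (y' : X) z]

/-! ### the action -/

instance : MulAction (Gp m) (Pre D) where
  smul g p := (g.1 p.1, p.2)
  one_smul _ := rfl
  mul_smul _ _ _ := rfl

theorem dl_smul (g : Gp m) (ω : Ch) : dl D (g.1 ω).1 = dl D ω.1 := by simp only [dl, g.2.2 ω]
theorem kap_smul (g : Gp m) (ω : Ch) (j : Bool) : kap D (g.1 ω).1 j = kap D ω.1 j := by
  simp only [kap, dl_smul]

theorem Adm.smul {D : ZMod m → Bool} {f : Ch × (ℝ × ℝ) → ℝ} (hf : Adm D f) (g : Gp m) :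
    Adm D fun p => f (g.1 p.1, p.2) :=
  ⟨fun ω v v' => hf.1 _ v v', fun ω j t => by
    simp only; rw [g.2.1.1, ← kap_smul D g ω j]; exact hf.2.1 _ j t,
    fun b ω v => by simp only; rw [g.2.1.2, ← dl_smul D g ω]; exact hf.2.2 b _ v⟩

theorem dist_smul_le (g : Gp m) (p q : Pre D) : dist (g • p) (g • q) ≤ dist p q :=
  pd_le D fun _ hf => le_pd D (hf.smul g) p q

theorem isometry_smul_pre (g : Gp m) : Isometry fun p : Pre D => g • p :=
  Isometry.of_dist_eq fun p q => le_antisymm (dist_smul_le D g p q) (by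
    simpa using dist_smul_le D g⁻¹ (g • p) (g • q))

instance : ContinuousConstSMul (Gp m) (Pre D) := ⟨fun g => (isometry_smul_pre D g).continuous⟩

theorem smul_mkp (g : Gp m) (ω : Ch) (v : ℝ × ℝ) : g • mkp D ω v = mkp D (g.1 ω) v := rfl

theorem exists_cell (x : Sp D) : ∃ ω v, v ∈ Metric.closedBall (0 : ℝ × ℝ) 2 ∧ x = mkp D ω v := by
  obtain ⟨w, v, rfl⟩ := exists_e D x
  refine ⟨(w, (⌊v.1⌋, ⌊v.2 - dl D w * v.1⌋)), v - Aff (dl D w) (⌊v.1⌋, ⌊v.2 - dl D w * v.1⌋), ?_,
    by rw [mkp_e]; simp⟩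
  have a1 := Int.floor_le v.1
  have a2 := Int.lt_floor_add_one v.1
  have a3 := Int.floor_le (v.2 - dl D w * v.1)
  have a4 := Int.lt_floor_add_one (v.2 - dl D w * v.1)
  rw [Metric.mem_closedBall, Prod.dist_eq, Real.dist_eq, Real.dist_eq, max_le_iff, abs_le, abs_le]
  simp only [Aff, Prod.fst_sub, Prod.snd_sub, Prod.fst_zero, Prod.snd_zero]
  rcases dl_cases D w with h | h <;> rw [h] at a3 a4 ⊢ <;>
    refine ⟨⟨?_, ?_⟩, ?_, ?_⟩ <;> linarith

theorem charts_finite (x : Sp D) (R : ℝ) : {ω : Ch | dist x (mkp D ω 0) ≤ R}.Finite := by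
  have h := planes_finite D x R
  refine (h.biUnion (t := fun w => {w} ×ˢ (Icc (-⌈2 * (R + dist x (e D w 0))⌉) ⌈2 * (R + dist x (e D w 0))⌉
    ×ˢ Icc (-⌈2 * (R + dist x (e D w 0))⌉) ⌈2 * (R + dist x (e D w 0))⌉))
    fun w _ => (finite_singleton w).prod ((finite_Icc _ _).prod (finite_Icc _ _))).subset ?_
  rintro ⟨w, a⟩ hω
  rw [mem_ofPred_eq, mkp_e] at hω
  simp only [zero_add] at hω
  simp only [mem_iUnion]
  refine ⟨w, ⟨_, hω⟩, rfl, ?_⟩
  have h2 := dist_triangle_left (e D w (Aff (dl D w) a)) (e D w 0) x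
  rw [dist_e] at h2
  have k : ∀ j, |co j a| ≤ ⌈2 * (R + dist x (e D w 0))⌉ := by
    intro j
    have h1 := ac_lip D w j (Aff (dl D w) a) 0
    have h0 : ac D w j 0 = 0 := by cases j <;> simp [ac, co]
    have h3 : ac D w j (Aff (dl D w) a) = (co j a : ℤ) := by cases j <;> simp [ac, co, Aff, kap]
    rw [h0, h3, sub_zero] at h1
    have := Int.le_ceil (2 * (R + dist x (e D w 0)))
    have h4 : |((co j a : ℤ) : ℝ)| ≤ (⌈2 * (R + dist x (e D w 0))⌉ : ℤ) := by linarith
    exact_mod_cast h4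
  exact ⟨abs_le.1 (k false), abs_le.1 (k true)⟩

theorem geometric_Sp [NeZero m] : Geometric (Gp m) (Sp D) := by
  refine ⟨fun g => Isometry.of_dist_eq fun x y => ?_, fun K hK => ?_, ?_⟩
  · obtain ⟨p, rfl⟩ := SeparationQuotient.surjective_mk x
    obtain ⟨q, rfl⟩ := SeparationQuotient.surjective_mk y
    exact (isometry_smul_pre D g).dist_eq p q
  · obtain ⟨R, hR⟩ := hK.isBounded.subset_closedBall (e D root 0)
    have hf := charts_finite D (e D root 0) (R + 2)
    have hin : ∀ ω v, v ∈ Metric.closedBall (0 : ℝ × ℝ) 2 → mkp D ω v ∈ K →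
        ω ∈ {ω : Ch | dist (e D root 0) (mkp D ω 0) ≤ R + 2} := by
      intro ω v hv h
      have h1 := hR h
      have h2 := dist_mkp_le D ω v 0
      rw [Metric.mem_closedBall] at h1 hv
      rw [mem_ofPred_eq]
      linarith [dist_triangle_left (e D root 0) (mkp D ω 0) (mkp D ω v)]
    refine (hf.biUnion (t := fun ω => ⋃ ω' ∈ {ω : Ch | dist (e D root 0) (mkp D ω 0) ≤ R + 2},
      {g : Gp m | g.1 ω = ω'}) fun ω _ => hf.biUnion fun ω' _ => ?_).subset ?_
    · exact Set.Subsingleton.finite fun g hg g' hg' => Gp_ext (hg.trans hg'.symm)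
    · rintro g ⟨x, hx, hgx⟩
      obtain ⟨ω, v, hv, rfl⟩ := exists_cell D x
      simp only [mem_iUnion]
      exact ⟨ω, hin ω v hv hx, _, hin _ v hv hgx, rfl⟩
  · have : Nonempty Ch := ⟨(root, 0)⟩
    let rep : ZMod m × ZMod m → Ch := Function.invFun fun ω : Ch => stm m ω.1
    refine ⟨⋃ s, mkp D (rep s) '' Metric.closedBall 0 2, isCompact_iUnion fun s =>
      (isCompact_closedBall _ _).image ?_, fun x => ?_⟩
    · exact (LipschitzWith.of_dist_le_mul (K := 1) fun a b => by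
        simpa using dist_mkp_le D _ a b).continuous
    · obtain ⟨ω, v, hv, rfl⟩ := exists_cell D x
      obtain ⟨g, hg⟩ := exists_Gp m (ω1 := ω) (ω2 := rep (stm m ω.1))
        (Function.invFun_eq (f := fun ω : Ch => stm m ω.1) ⟨ω, rfl⟩)
      exact ⟨g, mem_iUnion.2 ⟨_, v, hv, by rw [smul_mkp, hg]⟩⟩

end Pool.Agent.P.MP_318c20_al
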