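import Pool.Agent.P.MP_318c20_al.Tree

namespace Pool.Agent.P.MP_318c20_al

open Set Filter Topology

variable {m : ℕ} (D : ZMod m → Bool)

noncomputable def dl (w : Pl) : ℝ := if D (stm m w).2 then 1 else 0
noncomputable def kap (w : Pl) (j : Bool) : ℝ := bif j then dl D w else 0
def Aff (δ : ℝ) (a : ℤ × ℤ) : ℝ × ℝ := (a.1, a.2 + δ * a.1)
def sw (j : Bool) (z : ℝ × ℝ) : ℝ × ℝ := bif j then (z.2, z.1) else z

theorem dl_cases (w : Pl) : dl D w = 0 ∨ dl D w = 1 := by
  unfold dl; split_ifs <;> simp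

theorem kap_cases (w : Pl) (j : Bool) : kap D w j = 0 ∨ kap D w j = 1 := by
  cases j
  · left; rfl
  · exact dl_cases D w

theorem kap_false (w : Pl) : kap D w false = 0 := rfl

theorem kap_nb (w : Pl) (l : Step) : kap D (nb w l) l.1 = kap D w l.1 := by
  obtain ⟨j, k⟩ := l
  cases j
  · rfl
  · simp [kap, dl, stm_nb, rfl2, pt, co]

theorem Aff_add (δ : ℝ) (a b : ℤ × ℤ) : Aff δ (a + b) = Aff δ a + Aff δ b := by
  simp only [Aff, Prod.fst_add, Prod.snd_add, Int.cast_add, Prod.mk_add_mk]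
  congr 1; ring

@[simp] theorem Aff_zero (δ : ℝ) : Aff δ 0 = 0 := by simp [Aff]

theorem sw_sw (j : Bool) (z : ℝ × ℝ) : sw j (sw j z) = z := by cases j <;> rfl
theorem sw_add (j : Bool) (z z' : ℝ × ℝ) : sw j (z + z') = sw j z + sw j z' := by cases j <;> rfl
theorem sw_not (j : Bool) (u s : ℝ) : sw (!j) (u, s) = sw j (s, u) := by cases j <;> rfl
theorem dist_sw (j : Bool) (z z' : ℝ × ℝ) : dist (sw j z) (sw j z') = dist z z' := by
  cases j
  · rfl
  · simp [sw, Prod.dist_eq, max_comm]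

theorem sw_Aff (w : Pl) (j : Bool) (k n : ℤ) :
    sw j (Aff (dl D w) (pt j k n)) = ((k : ℝ) + kap D w j * n, (n : ℝ) + kap D w (!j) * k) := by
  cases j <;> simp [sw, Aff, pt, kap]

def Pre (_ : ZMod m → Bool) : Type := Ch × (ℝ × ℝ)

def Adm (f : Ch × (ℝ × ℝ) → ℝ) : Prop :=
  (∀ ω v v', f (ω, v) - f (ω, v') ≤ dist v v') ∧
  (∀ ω j t, f (ω, sw j (kap D ω.1 j * (t + 1 / 2), t + 1 / 2))
    = f (S j ω, sw j (kap D ω.1 j * t, t))) ∧
  (∀ b ω v, f (T b ω, v) = f (ω, v + Aff (dl D ω.1) b))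

theorem adm_bdd (p q : Ch × (ℝ × ℝ)) : ∃ C, ∀ f, Adm D f → f p - f q ≤ C := by
  have A : ∀ ω v, ∃ C, ∀ f, Adm D f → |f (ω, v) - f ((root, 0), 0)| ≤ C := by
    refine ch_ind _ ?_ ?_ ?_
    · intro v
      refine ⟨dist v 0, fun f hf => abs_le.2 ⟨?_, hf.1 _ _ _⟩⟩
      have := hf.1 (root, 0) 0 v
      rw [dist_comm] at this; linarith
    · intro j ω ih v
      obtain ⟨C, hC⟩ := ih (sw j (kap D ω.1 j * (0 + 1 / 2), 0 + 1 / 2))
      refine ⟨C + dist v (sw j (kap D ω.1 j * 0, 0)), fun f hf => ?_⟩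
      have h1 := abs_le.1 (hC f hf)
      rw [hf.2.1] at h1
      have h2 := hf.1 (S j ω) v (sw j (kap D ω.1 j * 0, 0))
      have h3 := hf.1 (S j ω) (sw j (kap D ω.1 j * 0, 0)) v
      rw [dist_comm] at h3
      exact abs_le.2 ⟨by linarith, by linarith⟩
    · intro b ω ih v
      obtain ⟨C, hC⟩ := ih (v + Aff (dl D ω.1) b)
      exact ⟨C, fun f hf => by rw [hf.2.2]; exact hC f hf⟩
  obtain ⟨C, hC⟩ := A p.1 p.2
  obtain ⟨C', hC'⟩ := A q.1 q.2
  refine ⟨C + C', fun f hf => ?_⟩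
  have h1 := abs_le.1 (hC f hf)
  have h2 := abs_le.1 (hC' f hf)
  simp only [Prod.mk.eta] at h1 h2
  linarith

theorem adm_zero : Adm D fun _ => 0 := ⟨fun _ _ _ => by simp, fun _ _ _ => rfl, fun _ _ _ => rfl⟩

theorem Adm.neg {D : ZMod m → Bool} {f : Ch × (ℝ × ℝ) → ℝ} (hf : Adm D f) : Adm D fun p => - f p :=
  ⟨fun ω v v' => by have := hf.1 ω v' v; rw [dist_comm] at this; simp only; linarith,
    fun ω j t => by simp only [hf.2.1], fun b ω v => by simp only [hf.2.2]⟩

instance : Nonempty {f // Adm D f} := ⟨⟨_, adm_zero D⟩⟩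

noncomputable def pd (p q : Ch × (ℝ × ℝ)) : ℝ := ⨆ f : {f // Adm D f}, (f.1 p - f.1 q)

theorem le_pd {f : Ch × (ℝ × ℝ) → ℝ} (hf : Adm D f) (p q : Ch × (ℝ × ℝ)) :
    f p - f q ≤ pd D p q := by
  obtain ⟨C, hC⟩ := adm_bdd D p q
  exact le_ciSup (f := fun f : {f // Adm D f} => f.1 p - f.1 q)
    ⟨C, by rintro _ ⟨g, rfl⟩; exact hC g.1 g.2⟩ ⟨f, hf⟩

theorem pd_le {p q : Ch × (ℝ × ℝ)} {C : ℝ} (h : ∀ f, Adm D f → f p - f q ≤ C) : pd D p q ≤ C :=
  ciSup_le fun f => h f.1 f.2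

noncomputable instance : PseudoMetricSpace (Pre D) where
  dist p q := pd D p q
  dist_self p := le_antisymm (pd_le D fun f _ => by simp) (by simpa using le_pd D (adm_zero D) p p)
  dist_comm p q := le_antisymm
    (pd_le D fun f hf => by have := le_pd D hf.neg q p; linarith)
    (pd_le D fun f hf => by have := le_pd D hf.neg p q; linarith)
  dist_triangle p q r := pd_le D fun f hf => by
    have := le_pd D hf p q; have := le_pd D hf q r; linarith

/-- the space -/
abbrev Sp : Type := SeparationQuotient (Pre D)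

noncomputable def mkp (ω : Ch) (v : ℝ × ℝ) : Sp D := SeparationQuotient.mk (show Pre D from (ω, v))

theorem dist_mkp (ω ω' : Ch) (v v' : ℝ × ℝ) :
    dist (mkp D ω v) (mkp D ω' v') = pd D (ω, v) (ω', v') := rfl

theorem mkp_eq {ω ω' : Ch} {v v' : ℝ × ℝ} (h : ∀ f, Adm D f → f (ω, v) = f (ω', v')) :
    mkp D ω v = mkp D ω' v' := by
  rw [← dist_le_zero, dist_mkp]
  exact pd_le D fun f hf => by rw [h f hf]; simp

theorem dist_mkp_le (ω : Ch) (v v' : ℝ × ℝ) : dist (mkp D ω v) (mkp D ω v') ≤ dist v v' :=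
  pd_le D fun _ hf => hf.1 ω v v'

theorem mkp_T (b : ℤ × ℤ) (ω : Ch) (v : ℝ × ℝ) :
    mkp D (T b ω) v = mkp D ω (v + Aff (dl D ω.1) b) := mkp_eq D fun _ hf => hf.2.2 b ω v

theorem mkp_S (ω : Ch) (j : Bool) (t : ℝ) :
    mkp D ω (sw j (kap D ω.1 j * (t + 1 / 2), t + 1 / 2))
      = mkp D (S j ω) (sw j (kap D ω.1 j * t, t)) := mkp_eq D fun _ hf => hf.2.1 ω j t

/-- the plane `w` -/
noncomputable def e (w : Pl) (v : ℝ × ℝ) : Sp D := mkp D (w, 0) v

theorem mkp_e (ω : Ch) (v : ℝ × ℝ) : mkp D ω v = e D ω.1 (v + Aff (dl D ω.1) ω.2) := by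
  have := mkp_T D ω.2 (ω.1, 0) v
  simpa [T, e] using this

theorem exists_e (x : Sp D) : ∃ w v, x = e D w v := by
  obtain ⟨p, rfl⟩ := SeparationQuotient.surjective_mk x
  exact ⟨_, _, mkp_e D p.1 p.2⟩

/-- base coordinates of the normalised chart of the line `l` -/
noncomputable def nc (w : Pl) (l : Step) (z : ℝ × ℝ) : ℝ × ℝ :=
  sw l.1 (z + ((l.2 : ℝ), kap D w (!l.1) * l.2))

noncomputable def lp (w : Pl) (l : Step) (s : ℝ) : ℝ × ℝ := nc D w l (kap D w l.1 * s, s)

noncomputable def cs (w : Pl) (l : Step) : ℝ := sh w l - 1 / 2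

theorem cs_cs (w : Pl) (l : Step) : cs w l + cs (nb w l) (bl w l) = 0 := by
  have : (sh w l : ℝ) + sh (nb w l) (bl w l) = 1 := by exact_mod_cast sh_sh w l
  simp only [cs]; linarith

theorem dist_nc (w : Pl) (l : Step) (z z' : ℝ × ℝ) : dist (nc D w l z) (nc D w l z') = dist z z' := by
  simp [nc, dist_sw]

theorem nc_surj (w : Pl) (l : Step) (v : ℝ × ℝ) : ∃ z, nc D w l z = v :=
  ⟨sw l.1 v - ((l.2 : ℝ), kap D w (!l.1) * l.2), by simp [nc, sw_sw]⟩

theorem lp_chart (w : Pl) (j : Bool) (k n : ℤ) (t : ℝ) :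
    sw j (kap D w j * t, t) + Aff (dl D w) (pt j k n) = lp D w (j, k) (t + n) := by
  rw [← sw_sw j (Aff _ _), sw_Aff, ← sw_add]
  simp only [lp, nc, Prod.mk_add_mk]
  congr 2 <;> ring

theorem chart_S (ω : Ch) (j : Bool) (t : ℝ) :
    sw j (kap D ω.1 j * (t + 1 / 2), t + 1 / 2) + Aff (dl D ω.1) ω.2
      = lp D ω.1 (lin ω j) (t + 1 / 2 + (co (!j) ω.2 : ℤ)) ∧
    sw j (kap D ω.1 j * t, t) + Aff (dl D (S j ω).1) (S j ω).2
      = lp D (nb ω.1 (lin ω j)) (bl ω.1 (lin ω j))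
        (t + 1 / 2 + (co (!j) ω.2 : ℤ) + cs ω.1 (lin ω j)) := by
  constructor
  · conv_lhs => rw [← pt_co j ω.2]
    exact lp_chart D _ _ _ _ _
  · have := kap_nb D ω.1 (lin ω j)
    change kap D _ j = kap D _ j at this
    rw [← this]
    simp only [S]
    rw [lp_chart]
    simp only [bl, lin, cs]
    congr 1; push_cast; ring

theorem glue (w : Pl) (l : Step) (s : ℝ) :
    e D w (lp D w l s) = e D (nb w l) (lp D (nb w l) (bl w l) (s + cs w l)) := by
  have h := mkp_S D (w, pt l.1 l.2 0) l.1 (s - 1 / 2)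
  obtain ⟨h1, h2⟩ := chart_S D (w, pt l.1 l.2 0) l.1 (s - 1 / 2)
  rw [mkp_e, mkp_e, h1, h2] at h
  simpa [lin, S_fst] using h

/-- admissible functions from functions on planes -/
theorem adm_of_planes (F : Pl → ℝ × ℝ → ℝ) (h1 : ∀ w v v', F w v - F w v' ≤ dist v v')
    (h2 : ∀ w l s, F w (lp D w l s) = F (nb w l) (lp D (nb w l) (bl w l) (s + cs w l))) :
    Adm D fun p => F p.1.1 (p.2 + Aff (dl D p.1.1) p.1.2) := by
  refine ⟨fun ω v v' => ?_, fun ω j t => ?_, fun b ω v => ?_⟩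
  · simpa using h1 ω.1 (v + Aff (dl D ω.1) ω.2) (v' + Aff (dl D ω.1) ω.2)
  · obtain ⟨a1, a2⟩ := chart_S D ω j t
    simp only
    rw [a1, a2, h2]; rfl
  · simp only [T, Aff_add]; congr 1; abel

theorem le_dist_of_planes (F : Pl → ℝ × ℝ → ℝ) (h1 : ∀ w v v', F w v - F w v' ≤ dist v v')
    (h2 : ∀ w l s, F w (lp D w l s) = F (nb w l) (lp D (nb w l) (bl w l) (s + cs w l)))
    (w w' : Pl) (v v' : ℝ × ℝ) : F w v - F w' v' ≤ dist (e D w v) (e D w' v') := by
  have := le_pd D (adm_of_planes D F h1 h2) ((w, 0), v) ((w', 0), v')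
  simpa [e, dist_mkp] using this

noncomputable def par (w : Pl) (l : Step) (v : ℝ × ℝ) : ℝ := (sw l.1 v).2 - kap D w (!l.1) * l.2

theorem par_nc (w : Pl) (l : Step) (z : ℝ × ℝ) : par D w l (nc D w l z) = z.2 := by
  simp [par, nc, sw_sw]

theorem par_lip (w : Pl) (l : Step) (v v' : ℝ × ℝ) : |par D w l v - par D w l v'| ≤ dist v v' := by
  obtain ⟨z, rfl⟩ := nc_surj D w l v
  obtain ⟨z', rfl⟩ := nc_surj D w l v'
  rw [par_nc, par_nc, dist_nc, Prod.dist_eq, Real.dist_eq z.2]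
  exact le_max_right _ _

theorem dist_kap (w : Pl) (j : Bool) (s s' : ℝ) :
    dist (kap D w j * s, s) (kap D w j * s', s') = |s - s'| := by
  rcases kap_cases D w j with h | h <;> simp [h, Prod.dist_eq, Real.dist_eq]

theorem dist_lp (w : Pl) (l : Step) (s s' : ℝ) : dist (lp D w l s) (lp D w l s') = |s - s'| := by
  rw [lp, lp, dist_nc, dist_kap]

open Classical in
noncomputable def extF (g : Pl) (φ : ℝ × ℝ → ℝ) : Pl → ℝ × ℝ → ℝ :=
  (wf_toward g).fix fun w ih =>
    if h : ∃ l, g ∈ Far w l then fun v => ih (nb w h.choose) ⟨_, h.choose_spec, rfl⟩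
      (lp D (nb w h.choose) (bl w h.choose) (par D w h.choose v + cs w h.choose)) else φ

theorem extF_self (g : Pl) (φ : ℝ × ℝ → ℝ) : extF D g φ g = φ := by
  rw [extF, WellFounded.fix_eq, dif_neg]
  rintro ⟨l, hl⟩; exact self_not_far g l hl

theorem extF_far {g w : Pl} (φ : ℝ × ℝ → ℝ) {l : Step} (hl : g ∈ Far w l) (v : ℝ × ℝ) :
    extF D g φ w v = extF D g φ (nb w l) (lp D (nb w l) (bl w l) (par D w l v + cs w l)) := by
  have h : ∃ l, g ∈ Far w l := ⟨l, hl⟩
  conv_lhs => rw [extF, WellFounded.fix_eq, dif_pos h]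
  have : h.choose = l := far_uniq h.choose_spec hl
  simp only [this]
  rfl

theorem dist_e (g : Pl) (v v' : ℝ × ℝ) : dist (e D g v) (e D g v') = dist v v' := by
  refine le_antisymm (dist_mkp_le D _ _ _) ?_
  have := le_dist_of_planes D (extF D g fun z => dist z v') ?_ ?_ g g v v'
  · simpa [extF_self] using this
  · refine tree_ind g _ ?_ ?_
    · intro a b; rw [extF_self]; linarith [dist_triangle a b v']
    · intro w l hl ih a b
      rw [extF_far D _ hl, extF_far D _ hl]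
      refine (ih _ _).trans ?_
      rw [dist_lp, add_sub_add_right_eq_sub]
      exact par_lip D w l a b
  · intro w l s
    by_cases hl : g ∈ Far w l
    · rw [extF_far D _ hl, lp.eq_def D w, par_nc]
    · rw [extF_far D _ ((far_back w l g).2 hl), nb_nb, bl_bl, lp.eq_def D (nb w l), par_nc,
        add_assoc, cs_cs, add_zero]

theorem isometry_e (g : Pl) : Isometry (e D g) := Isometry.of_dist_eq (dist_e D g)

/-- normalised chart and line -/
noncomputable def N (w : Pl) (l : Step) (z : ℝ × ℝ) : Sp D := e D w (nc D w l z)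
noncomputable def Lam (w : Pl) (l : Step) (s : ℝ) : Sp D := N D w l (kap D w l.1 * s, s)

theorem dist_N (w : Pl) (l : Step) (z z' : ℝ × ℝ) : dist (N D w l z) (N D w l z') = dist z z' := by
  rw [N, N, dist_e, dist_nc]

theorem dist_Lam (w : Pl) (l : Step) (s s' : ℝ) : dist (Lam D w l s) (Lam D w l s') = |s - s'| := by
  rw [Lam, Lam, dist_N, dist_kap]

theorem Lam_glue (w : Pl) (l : Step) (s : ℝ) :
    Lam D w l s = Lam D (nb w l) (bl w l) (s + cs w l) := glue D w l s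

theorem exists_N (w : Pl) (l : Step) (v : ℝ × ℝ) : ∃ u s, e D w v = N D w l (u, s) := by
  obtain ⟨z, rfl⟩ := nc_surj D w l v
  exact ⟨z.1, z.2, rfl⟩

theorem exists_min_line {X : Type} [MetricSpace X] {L : ℝ → X}
    (hL : ∀ s s', dist (L s) (L s') = |s - s'|) (x y : X) :
    ∃ s0, ∀ s, dist x (L s0) + dist (L s0) y ≤ dist x (L s) + dist (L s) y := by
  have hc : Continuous L := (Isometry.of_dist_eq fun s s' => by rw [hL, Real.dist_eq]).continuous
  refine Continuous.exists_forall_le' (f := fun s => dist x (L s) + dist (L s) y) (by fun_prop) 0 ?_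
  filter_upwards [(isCompact_closedBall (0 : ℝ) (2 * (dist x (L 0) + dist (L 0) y))).compl_mem_cocompact]
    with s hs
  simp only [mem_compl_iff, Metric.mem_closedBall, Real.dist_eq, not_le] at hs
  have h1 := dist_triangle_left (L s) (L 0) x
  have h2 := dist_triangle_right (L s) (L 0) y
  rw [hL] at h1 h2
  linarith [dist_nonneg (x := x) (y := L 0), dist_nonneg (x := L 0) (y := y)]

theorem sep {w gx gy : Pl} {l : Step} (hx : gx ∈ Far w l) (hy : gy ∉ Far w l) (vx vy : ℝ × ℝ) :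
    ∃ s, dist (e D gx vx) (e D gy vy)
      = dist (e D gx vx) (Lam D w l s) + dist (Lam D w l s) (e D gy vy) := by
  classical
  set x := e D gx vx with hxd
  choose s0 hs0 using exists_min_line (dist_Lam D w l) x
  refine ⟨s0 (e D gy vy), le_antisymm (dist_triangle _ _ _) ?_⟩
  have hmu : ∀ s, dist x (Lam D w l (s0 (Lam D w l s))) + dist (Lam D w l (s0 (Lam D w l s)))
      (Lam D w l s) = dist x (Lam D w l s) := fun s =>
    le_antisymm (by simpa using hs0 (Lam D w l s) s) (dist_triangle _ _ _)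
  have := le_dist_of_planes D (fun g v => if g ∈ Far w l then dist x (e D g v) else
    dist x (Lam D w l (s0 (e D g v))) + dist (Lam D w l (s0 (e D g v))) (e D g v)) ?_ ?_ gy gx vy vx
  · simp only [hx, hy, if_true, if_false, ← hxd, dist_self, sub_zero] at this
    rwa [dist_comm (e D gy vy) x] at this
  · intro g v v'
    have h0 := dist_e D g v v'
    split_ifs
    · linarith [dist_triangle_right x (e D g v) (e D g v')]
    · have := hs0 (e D g v) (s0 (e D g v'))
      linarith [dist_triangle_right (Lam D w l (s0 (e D g v'))) (e D g v) (e D g v')]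
  · intro g l' s
    have hg := glue D g l' s
    by_cases a : g ∈ Far w l <;> by_cases b : nb g l' ∈ Far w l <;> simp only [a, b, if_true, if_false]
    · rw [hg]
    · rcases far_step a l' with h | ⟨rfl, rfl⟩
      · exact absurd h b
      · rw [← hg]
        have : e D (nb w l) (lp D (nb w l) (bl w l) s) = Lam D w l (s - cs w l) := by
          rw [Lam_glue, sub_add_cancel]; rfl
        rw [this, hmu]
    · rcases far_step b (bl g l') with h | ⟨h1, h2⟩
      · rw [nb_nb] at h; exact absurd h a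
      · have e1 : g = w := by rw [← nb_nb g l', h1, h2, nb_nb]
        subst e1
        have e2 : l' = l := by rw [← bl_bl g l', h1, h2, bl_bl]
        subst e2
        rw [← hg]
        exact hmu s
    · rw [hg]

end Pool.Agent.P.MP_318c20_al
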