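import Pool.Agent.P.MP_318c20_al.Cut

namespace Pool.Agent.P.MP_318c20_al

open Set Filter Topology

variable {m : ℕ} (D : ZMod m → Bool) (o : Sp D)

theorem bz_e (w : Pl) (i : Bool × Bool) (p : ℝ × ℝ) : bz D w i (e D w p) = - lam i p := by
  obtain ⟨t, h1, h2⟩ := ((bz_ev D w (e D w p) p i).and (eventually_ge_atTop 0)).exists
  rw [dist_e, dist_dirv, abs_of_nonneg h2] at h1
  linarith

theorem bz_sum (w : Pl) (j : Bool) (x : Sp D) : 0 ≤ bz D w (j, true) x + bz D w (j, false) x := by
  obtain ⟨t, h1, h2, h3⟩ := ((bz_ev D w x 0 (j, true)).and ((bz_ev D w x 0 (j, false)).and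
    (eventually_ge_atTop 0))).exists
  have h4 := dist_triangle_left (e D w (0 + t • dirv (j, true))) (e D w (0 + t • dirv (j, false))) x
  have h5 := lam_lip (j, true) (0 + t • dirv (j, true)) (0 + t • dirv (j, false))
  have h6 := lam_opp j (0 + t • dirv (j, false))
  have h7 := lam_opp j 0
  rw [lam_dirv] at h5 h6
  rw [dist_e] at h4
  linarith

theorem Blk.kap_eq {j : Bool} {w y : Pl} (h : Blk j w y) : kap D y j = kap D w j := by
  induction h with
  | refl => rfl
  | tail _ h ih =>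
    obtain ⟨k, rfl⟩ := h
    exact (kap_nb D _ (j, k)).trans ih

theorem Blk.bz_eq {j : Bool} {w y : Pl} (h : Blk j w y) (hk : kap D w j = 0) :
    ∃ c, ∀ x b, bz D w (!j, b) x = bz D y (!j, b) x + sg b * c := by
  induction h with
  | refl => exact ⟨0, by simp⟩
  | @tail y _ hy h ih =>
    obtain ⟨k, rfl⟩ := h
    obtain ⟨c, ih⟩ := ih
    have k1 : kap D y (j, k).1 = 0 := (Blk.kap_eq D hy).trans hk
    have k2 : kap D (nb y (j, k)) (bl y (j, k)).1 = 0 := (kap_nb D y (j, k)).trans k1
    refine ⟨c + co (!j) (lp D (nb y (j, k)) (bl y (j, k)) (0 + cs y (j, k))) - co (!j) (lp D y (j, k) 0),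
      fun x b => ?_⟩
    obtain ⟨t, h1, h2⟩ := ((bz_ev D y x (lp D y (j, k) 0) (!j, b)).and
      (bz_ev D (nb y (j, k)) x (lp D (nb y (j, k)) (bl y (j, k)) (0 + cs y (j, k))) (!j, b))).exists
    have e1 := nc_dir2 D y (j, k) b 0 0 t
    have e2 := nc_dir2 D (nb y (j, k)) (bl y (j, k)) b 0 (0 + cs y (j, k)) t
    rw [← lp_axis D k1, ← lp_axis D k1] at e1
    rw [← lp_axis D k2, ← lp_axis D k2] at e2
    change _ + t • dirv (!j, b) = _ at e1 e2
    rw [e1, ← Lam_eq, Lam_glue] at h1
    rw [e2, ← Lam_eq, add_right_comm, h1] at h2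
    rw [ih]
    simp only [lam] at h2
    simp only [sg]
    linarith

theorem height_linear {j : Bool} {w y : Pl} (h : Blk j w y) (hk : kap D w j = 0)
    {v : ℝ × ℝ} (hv : ‖v‖ = 1) {t : ℝ} (ht : 0 ≤ t) :
    bz D w (!j, false) ((dp D (e D w 0) y v).pt t) = t * co (!j) v := by
  obtain ⟨c, hc⟩ := h.bz_eq D hk
  set γ := dp D (e D w 0) y v with hγ
  have key : ∀ b t, 0 ≤ t → bz D w (!j, b) (γ.pt t) + sg b * co (!j) v * t ≤ 0 := by
    intro b t ht
    have aff : ConvexOn ℝ (Ici (0 : ℝ)) fun t : ℝ => sg b * co (!j) v * t := by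
      refine ⟨convex_Ici 0, fun x _ y _ p q _ _ _ => le_of_eq ?_⟩
      simp only [smul_eq_mul]; ring
    have := ConvexOn.le_init ((bz_convex D w (!j, b) γ.ray.2).add aff)
      (C := dist (e D w 0) (e D y 0) + sg b * c) (fun T => ⟨max T 0, le_max_left _ _, ?_⟩) ht
    · have l0 : lam (!j, b) 0 = 0 := by cases j <;> simp [lam, co]
      simpa [γ.zero, bz_e, l0] using this
    · have a1 := cls_dist (e D w 0) (isRay_ray D y 0 hv) (le_max_right T 0)
      rw [cls_ray D _ y 0 hv, ← hγ] at a1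
      have a2 := bz_lip D w (!j, b) (γ.pt (max T 0)) (ray D y 0 v (max T 0))
      have a3 := hc (ray D y 0 v (max T 0)) b
      rw [ray, bz_e] at a3
      have a4 : lam (!j, b) (0 + max T 0 • v) = sg b * co (!j) v * max T 0 := by
        cases j <;> simp [lam, co, sg] <;> ring
      simp only [ray, zero_smul, add_zero] at a1 a2
      simp only [Pi.add_apply]
      linarith
  have k1 := key true t ht
  have k2 := key false t ht
  have k3 := bz_sum D w (!j) (γ.pt t)
  simp only [sg, cond_true, cond_false] at k1 k2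
  linarith

theorem dp_base (o' : Sp D) (y : Pl) (v : ℝ × ℝ) {t : ℝ} (ht : 0 ≤ t) :
    dist ((dp D o y v).pt t) ((dp D o' y v).pt t) ≤ dist o o' := by
  have : dp D o y v = cls o (dp D o' y v).ray :=
    cls_eq_cls _ _ (D := dist o' (ray D y 0 (un v) 0)) fun T => ⟨max T 0, le_max_left _ _, by
      rw [dist_comm]; exact cls_dist o' _ (le_max_right _ _)⟩
  rw [this]
  simpa [Bd.zero] using cls_dist o (dp D o' y v).ray ht

theorem not_thin {w : Pl} (hw : dl D w = 1) : ¬ Thin (pp D o w false) := by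
  let y : ℤ → Pl := fun n => nb (nb w (false, n)) (false, bk w (false, n) + 1)
  have hb : ∀ n, Blk false w (y n) := fun n => (Blk.step w (false, n)).trans
    (Blk.step (nb w (false, n)) (false, bk w (false, n) + 1))
  have hd : ∀ n, dl D (y n) = 1 := fun n => by
    rw [← hw]; simp only [dl, y, stm_nb, rfl2_rfl2]
  have hf : ∀ n, y n ∈ Far w (false, n) := fun n =>
    far_nest (l' := (false, bk w (false, n) + 1)) (by simp [bl]) (nb_far _ _)
  let q : ℤ → Bd o × Bd o := fun n => (pole D o (y n) true true, pole D o (y n) true false)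
  have hq : Function.Injective q := by
    intro a b h
    have := (pole_eq_pole D o (congrArg Prod.fst h)).2.2
    exact congrArg Prod.snd (far_uniq (this.far (by simp) (hf a)) (hf b))
  set R := dist o (e D w 0) with hR
  have hR0 : 0 ≤ R + 1 := by positivity
  have hsep : ∀ n, 2 ≤ dist ((q n).1.pt (R + 1)) ((q n).2.pt (R + 1)) := by
    intro n
    have a1 := height_linear D (hb n) rfl (norm_dv D (y n) true true) hR0
    have a2 := height_linear D (hb n) rfl (norm_dv D (y n) true false) hR0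
    have a3 := dp_base D o (e D w 0) (y n) (dv D (y n) true true) hR0
    have a4 := dp_base D o (e D w 0) (y n) (dv D (y n) true false) hR0
    have a5 := bz_lip D w (!false, false) ((dp D (e D w 0) (y n) (dv D (y n) true true)).pt (R + 1))
      ((dp D (e D w 0) (y n) (dv D (y n) true false)).pt (R + 1))
    have a6 := dist_triangle4 ((dp D (e D w 0) (y n) (dv D (y n) true true)).pt (R + 1))
      ((q n).1.pt (R + 1)) ((q n).2.pt (R + 1))
      ((dp D (e D w 0) (y n) (dv D (y n) true false)).pt (R + 1))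
    rw [a1, a2] at a5
    have c1 : co (!false) (dv D (y n) true true) = 1 := by simp [co, dv, sw, sg, kap, hd]
    have c2 : co (!false) (dv D (y n) true false) = -1 := by simp [co, dv, sw, sg, kap, hd]
    rw [c1, c2] at a5
    rw [dist_comm] at a3
    simp only [q, pole] at a6 ⊢
    linarith
  obtain ⟨x, hx⟩ := (infinite_range_of_injective hq).exists_accPt_cofinite_inf_principal
  have hinf : ∀ U ∈ 𝓝 x, (U ∩ range q).Infinite := by
    intro U hU hfin
    have := (clusterPt_iff_nonempty.1 hx.clusterPt) hU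
      (inter_mem_inf hfin.compl_mem_cofinite (mem_principal_self _))
    obtain ⟨z, h1, h2, h3⟩ := this
    exact h2 ⟨h1, h3⟩
  intro hT
  have e1 := hT x fun U hU => (hinf U hU).mono (inter_subset_inter_right _ (by
    rintro _ ⟨n, rfl⟩
    refine ⟨fun h => by simpa using (pole_inj D o h).2, ?_⟩
    rw [← (hb n).pp_eq D o]
    exact adj_plane D o (y n) false))
  have hc : Continuous fun p : Bd o × Bd o => dist (p.1.pt (R + 1)) (p.2.pt (R + 1)) :=
    ((Bd.cont_pt _).comp continuous_fst).dist ((Bd.cont_pt _).comp continuous_snd)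
  obtain ⟨_, h1, n, rfl⟩ := (hinf _ ((isOpen_lt hc continuous_const (g := fun _ => 2)).mem_nhds
    (by simp [e1]))).nonempty
  exact absurd (hsep n) (not_le.2 h1)

theorem far_agree {w y : Pl} {j : Bool} (h : Blk j w y) (hk : kap D w j = 0)
    (hk' : kap D y (!j) = 0) {T : ℝ} (hT : 0 ≤ T) (hy : ∀ v, T < dist (e D w 0) (e D y v))
    (b b' : Bool) : (pole D (e D w 0) y (!j) b).pt T = (pole D (e D w 0) y (!j) b').pt T := by
  have hne : w ≠ y := by
    rintro rfl
    have := hy 0
    rw [dist_self] at this; linarith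
  obtain ⟨l, hl⟩ := exists_far hne
  have hj : l.1 = j := by
    by_contra hc
    exact self_not_far y l (h.far hc hl)
  obtain ⟨_, k⟩ := l
  subst hj
  rename_i j
  simp only at h hk hk' ⊢
  have hky : kap D y j = 0 := (h.kap_eq D).trans hk
  obtain ⟨c, hc⟩ := h.bz_eq D hk
  have key : ∀ b, ∃ t, 0 ≤ t ∧ (pole D (e D w 0) y (!j) b).pt t = Lam D y (j, k) c := by
    intro b
    set γ := pole D (e D w 0) y (!j) b with hγ
    have hex : ∃ t, 0 ≤ t ∧ γ.pt t ∈ side D (nb y (j, k)) (bl y (j, k)) := by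
      by_contra hcon
      push Not at hcon
      set t := 2 * dist (e D w 0) (e D y 0) + |(k : ℝ)| + 1 with ht
      have ht0 : 0 ≤ t := by positivity
      have a1 := cls_dist (e D w 0) (isRay_ray D y 0 (norm_dv D y (!j) b)) ht0
      rw [cls_ray D _ y 0 (norm_dv D y (!j) b)] at a1
      obtain ⟨s, hs⟩ := side_sep D ((mem_side_or D y (j, k) _).resolve_right (hcon t ht0))
        (e_mem_side D y (j, k) (0 + t • dv D y (!j) b))
      have a2 := ac_lip D y j (lp D y (j, k) s) (0 + t • dv D y (!j) b)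
      have a3 : ac D y j (lp D y (j, k) s) = k := ac_lp D y (j, k) s
      have a4 : ac D y j (0 + t • dv D y (!j) b) = sg b * t := by
        simp only [ac, hky, dv, hk']
        cases j <;> simp [co, sw] <;> ring
      rw [a3, a4, ← dist_e D y, ← Lam_eq] at a2
      have a5 : t ≤ |(k : ℝ) - sg b * t| + |(k : ℝ)| := by
        have := abs_sub ((k : ℝ) - sg b * t) k
        rwa [sub_sub_cancel_left, abs_neg, abs_mul, abs_sg, one_mul, abs_of_nonneg ht0] at this
      simp only [ray, zero_smul, add_zero] at a1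
      change dist (γ.pt t) _ ≤ _ at a1
      linarith [dist_nonneg (x := γ.pt t) (y := Lam D y (j, k) s)]
    obtain ⟨t1, ht1, h1⟩ := hex
    obtain ⟨t, ht, a1, a2⟩ := cross_gen (isClosed_side D y (j, k)) (isClosed_side D _ _)
      (side_union D y (j, k)) ht1 (γ.ray.2.1.mono fun s hs => hs.1)
      (by rw [γ.zero]; exact ⟨w, hl, _, rfl⟩) h1
    obtain ⟨s, hs⟩ := side_inter D a1 a2
    refine ⟨t, ht.1, ?_⟩
    have a3 := height_linear D h hk (norm_dv D y (!j) b) ht.1
    change bz D w (!j, false) (γ.pt t) = _ at a3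
    rw [← hs, hc, Lam_eq, bz_e] at a3
    have a4 : co (!j) (dv D y (!j) b) = 0 := by
      simp only [dv, hk']; cases j <;> simp [co, sw]
    have a5 : lam (!j, false) (lp D y (j, k) s) = -s := by
      simp only [lp, nc, hky, hk']; cases j <;> simp [co, sw, lam]
    rw [a4, a5] at a3
    simp only [sg, cond_false] at a3
    rw [← hs]; congr 1; linarith
  obtain ⟨t, ht, h1⟩ := key b
  obtain ⟨t', ht', h2⟩ := key b'
  have d1 := (pole D (e D w 0) y (!j) b).dist_o ht
  have d2 := (pole D (e D w 0) y (!j) b').dist_o ht'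
  rw [h1] at d1
  rw [h2, d1] at d2
  subst d2
  have := hy (lp D y (j, k) c)
  rw [← Lam_eq, d1] at this
  have h3 := ray_mono (pole D (e D w 0) y (!j) b).ray (pole D (e D w 0) y (!j) b').ray
    (by rw [Bd.zero, Bd.zero]) hT this.le
  rw [h1, h2, dist_self] at h3
  exact dist_le_zero.1 h3

theorem thin_pp {w : Pl} {j : Bool} (hk : kap D w j = 0)
    (hk' : ∀ y, Blk j w y → kap D y (!j) = 0) : Thin (pp D o w j) := by
  intro q hq
  by_contra hne
  obtain ⟨t, ht, hd⟩ : ∃ t, 0 ≤ t ∧ q.1.pt t ≠ q.2.pt t := by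
    by_contra hc
    push Not at hc
    exact hne (Bd.ext' hc)
  set ε := dist (q.1.pt t) (q.2.pt t) with hε
  have hε0 : 0 < ε := dist_pos.2 hd
  set R := dist o (e D w 0) with hR
  have hR0 : 0 ≤ R := dist_nonneg
  set T := t + t * (4 * R) / ε + 1 with hT
  have hq0 : 0 ≤ t * (4 * R) / ε := by positivity
  have hT0 : 0 ≤ T := by positivity
  have hc : Continuous fun p : Bd o × Bd o => dist (p.1.pt t) (p.2.pt t) :=
    ((Bd.cont_pt _).comp continuous_fst).dist ((Bd.cont_pt _).comp continuous_snd)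
  refine hq _ ((isOpen_lt continuous_const hc (f := fun _ => ε / 2)).mem_nhds
    (by change ε / 2 < ε; linarith)) ?_
  have hpf : ∀ y, (pp D o y (!j)).Finite := fun y => (finite_singleton _).insert _
  refine Finite.subset ((planes_finite D (e D w 0) T).biUnion
    (t := fun y => pp D o y (!j) ×ˢ pp D o y (!j)) fun y _ => (hpf y).prod (hpf y)) ?_
  rintro p ⟨h1, -, h2⟩
  obtain ⟨y, hy, e1⟩ := adj_imp D o h2
  have m1 : p.1 ∈ pp D o y (!j) := e1 ▸ mem_insert _ _
  have m2 : p.2 ∈ pp D o y (!j) := e1 ▸ mem_insert_of_mem _ rfl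
  refine mem_biUnion (x := y) ?_ ⟨m1, m2⟩
  by_contra hy'
  simp only [mem_ofPred_eq, not_exists, not_le] at hy'
  obtain ⟨b, hb⟩ := (mem_pp D o).1 m1
  obtain ⟨b', hb'⟩ := (mem_pp D o).1 m2
  have a1 := far_agree D hy hk (hk' y hy) hT0 hy' b b'
  have a2 := dp_base D o (e D w 0) y (dv D y (!j) b) hT0
  have a3 := dp_base D o (e D w 0) y (dv D y (!j) b') hT0
  change dist ((pole D o y (!j) b).pt T) ((pole D (e D w 0) y (!j) b).pt T) ≤ _ at a2
  change dist ((pole D o y (!j) b').pt T) ((pole D (e D w 0) y (!j) b').pt T) ≤ _ at a3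
  rw [← hb, a1] at a2
  rw [← hb'] at a3
  have a4 := dist_triangle_right (p.1.pt T) (p.2.pt T) ((pole D (e D w 0) y (!j) b').pt T)
  have a5 := ray_ratio p.1.ray p.2.ray (by rw [Bd.zero, Bd.zero]) ht (T := T) (by linarith)
  have h1' : ε / 2 < dist (p.1.pt t) (p.2.pt t) := h1
  have a6 : t * dist (p.1.pt T) (p.2.pt T) ≤ t * (2 * R) :=
    mul_le_mul_of_nonneg_left (by linarith) ht
  have a7 : t * (4 * R) / ε * ε = t * (4 * R) := div_mul_cancel₀ _ hε0.ne'
  have a8 : T * (ε / 2) ≤ T * dist (p.1.pt t) (p.2.pt t) := mul_le_mul_of_nonneg_left h1'.le hT0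
  rw [hT] at a8
  nlinarith

end Pool.Agent.P.MP_318c20_al
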