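import Mathlib

namespace Pool.Agent.P.MP_318c20_al

open Set

abbrev Step := Bool × ℤ

def IsBack (w : List Step) (l : Step) : Prop := l.2 = 0 ∧ ∃ k u, w = (l.1, k) :: u

def Red : List Step → Prop
  | [] => True
  | a :: w => ¬ IsBack w a ∧ Red w

/-- planes: reduced words -/
def Pl := {w : List Step // Red w}

instance : Countable Pl := by unfold Pl; infer_instance

def root : Pl := ⟨[], trivial⟩

theorem Red.tail {w : List Step} (h : Red w) : Red w.tail := by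
  cases w with
  | nil => trivial
  | cons a w => exact h.2

theorem Red.suffix {w x : List Step} (h : Red x) (hs : w <:+ x) : Red w := by
  induction x with
  | nil => rw [List.suffix_nil.1 hs]; trivial
  | cons a x ih =>
    rcases List.suffix_cons_iff.1 hs with rfl | h'
    · exact h
    · exact ih h.2 h'

open Classical in
noncomputable def nb (w : Pl) (l : Step) : Pl :=
  if h : IsBack w.1 l then ⟨w.1.tail, w.2.tail⟩ else ⟨l :: w.1, h, w.2⟩

open Classical in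
noncomputable def bk (w : Pl) (l : Step) : ℤ :=
  if IsBack w.1 l then (w.1.headD (false, 0)).2 else 0

open Classical in
noncomputable def sh (w : Pl) (l : Step) : ℤ := if IsBack w.1 l then 1 else 0

open Classical in
def Far (w : Pl) (l : Step) : Set Pl :=
  {x | if IsBack w.1 l then ¬ w.1 <:+ x.1 else l :: w.1 <:+ x.1}

noncomputable def bl (w : Pl) (l : Step) : Step := (l.1, bk w l)

theorem line_cases (w : Pl) (l : Step) :
    (¬ IsBack w.1 l ∧ (nb w l).1 = l :: w.1 ∧ bk w l = 0 ∧ sh w l = 0 ∧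
      ∀ x, x ∈ Far w l ↔ l :: w.1 <:+ x.1) ∨
    (l.2 = 0 ∧ w.1 = bl w l :: (nb w l).1 ∧ sh w l = 1 ∧ ∀ x, x ∈ Far w l ↔ ¬ w.1 <:+ x.1) := by
  by_cases h : IsBack w.1 l
  · right
    obtain ⟨h0, k, u, hu⟩ := id h
    refine ⟨h0, ?_, by simp [sh, h], fun x => by simp [Far, h]⟩
    simp only [bl, bk, nb, h, if_true, dif_pos]
    rw [hu]; simp
  · left
    exact ⟨h, by simp [nb, h], by simp [bk, h], by simp [sh, h], fun x => by simp [Far, h]⟩

theorem back_facts (w : Pl) (l : Step) :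
    nb (nb w l) (bl w l) = w ∧ bk (nb w l) (bl w l) = l.2 ∧ sh w l + sh (nb w l) (bl w l) = 1 ∧
      ∀ x, x ∈ Far (nb w l) (bl w l) ↔ x ∉ Far w l := by
  rcases line_cases w l with ⟨h1, h2, h3, h4, h5⟩ | ⟨h1, h2, h4, h5⟩
  · rcases line_cases (nb w l) (bl w l) with ⟨a1, -⟩ | ⟨a1, a2, a4, a5⟩
    · exact absurd ⟨h3, l.2, w.1, h2⟩ a1
    · rw [h2] at a2
      simp only [List.cons.injEq] at a2
      refine ⟨Subtype.ext a2.2.symm, ?_, by omega, fun x => by rw [a5, h5, h2]⟩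
      have := congrArg Prod.snd a2.1
      exact this.symm
  · have hr := w.2
    rw [h2] at hr
    rcases line_cases (nb w l) (bl w l) with ⟨a1, a2, a3, a4, a5⟩ | ⟨a1, a2, a4, a5⟩
    · refine ⟨Subtype.ext (a2.trans h2.symm), by rw [a3, h1], by omega, fun x => ?_⟩
      rw [a5, h5, ← h2, not_not]
    · exact absurd ⟨a1, _, _, a2⟩ hr.1

theorem nb_nb (w : Pl) (l : Step) : nb (nb w l) (bl w l) = w := (back_facts w l).1
theorem bk_bk (w : Pl) (l : Step) : bk (nb w l) (bl w l) = l.2 := (back_facts w l).2.1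
theorem bl_bl (w : Pl) (l : Step) : bl (nb w l) (bl w l) = l := by
  simp only [bl]; exact Prod.ext rfl (bk_bk w l)
theorem sh_sh (w : Pl) (l : Step) : sh w l + sh (nb w l) (bl w l) = 1 := (back_facts w l).2.2.1
theorem far_back (w : Pl) (l : Step) (x : Pl) : x ∈ Far (nb w l) (bl w l) ↔ x ∉ Far w l :=
  (back_facts w l).2.2.2 x

theorem self_not_far (w : Pl) (l : Step) : w ∉ Far w l := by
  rcases line_cases w l with ⟨-, -, -, -, h5⟩ | ⟨-, -, -, h5⟩
  · rw [h5]; intro h; have := h.length_le; simp at this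
  · rw [h5]; simp

theorem nb_far (w : Pl) (l : Step) : nb w l ∈ Far w l := by
  by_contra h
  exact self_not_far _ _ ((far_back w l _).2 h)

theorem far_uniq {w x : Pl} {l l' : Step} (h : x ∈ Far w l) (h' : x ∈ Far w l') : l = l' := by
  rcases line_cases w l with ⟨-, -, -, -, h5⟩ | ⟨h1, h2, -, h5⟩ <;>
  rcases line_cases w l' with ⟨-, -, -, -, a5⟩ | ⟨a1, a2, -, a5⟩
  · have := (List.suffix_of_suffix_length_le ((h5 x).1 h) ((a5 x).1 h') (by simp)).eq_of_length
      (by simp)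
    simpa using this
  · exact absurd ((List.suffix_cons _ _).trans ((h5 x).1 h)) ((a5 x).1 h')
  · exact absurd ((List.suffix_cons _ _).trans ((a5 x).1 h')) ((h5 x).1 h)
  · rw [h2] at a2
    simp only [List.cons.injEq, bl, Prod.mk.injEq] at a2
    exact Prod.ext a2.1.1 (h1.trans a1.symm)

theorem exists_child {w x : List Step} (h : w <:+ x) (hne : x ≠ w) : ∃ a, a :: w <:+ x := by
  induction x with
  | nil => exact absurd (List.suffix_nil.1 h).symm hne
  | cons b x ih =>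
    rcases List.suffix_cons_iff.1 h with h' | h'
    · exact absurd h'.symm hne
    · by_cases e : x = w
      · exact ⟨b, e ▸ List.suffix_refl _⟩
      · obtain ⟨a, ha⟩ := ih h' e
        exact ⟨a, ha.trans (List.suffix_cons _ _)⟩

theorem far_of_child {w x : Pl} {a : Step} (h : a :: w.1 <:+ x.1) :
    x ∈ Far w a ∧ (nb w a).1 = a :: w.1 := by
  have hr := (x.2.suffix h).1
  rcases line_cases w a with ⟨-, h2, -, -, h5⟩ | ⟨h1, h2, -, h5⟩
  · exact ⟨(h5 x).2 h, h2⟩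
  · exact absurd ⟨h1, _, _, h2⟩ hr

theorem far_of_not_suffix {w x : Pl} (h : ¬ w.1 <:+ x.1) :
    ∃ l, x ∈ Far w l ∧ w.1 = bl w l :: (nb w l).1 := by
  obtain ⟨w, hw⟩ := w
  cases w with
  | nil => exact absurd (List.nil_suffix) h
  | cons a u =>
    rcases line_cases ⟨a :: u, hw⟩ (a.1, 0) with ⟨h1, -⟩ | ⟨-, h2, -, h5⟩
    · exact absurd ⟨rfl, a.2, u, rfl⟩ h1
    · exact ⟨_, (h5 x).2 h, h2⟩

theorem exists_far {w x : Pl} (h : x ≠ w) : ∃ l, x ∈ Far w l := by
  by_cases hs : w.1 <:+ x.1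
  · obtain ⟨a, ha⟩ := exists_child hs (fun e => h (Subtype.ext e))
    exact ⟨a, (far_of_child ha).1⟩
  · obtain ⟨l, hl, -⟩ := far_of_not_suffix hs
    exact ⟨l, hl⟩

theorem far_step {w x : Pl} {l : Step} (h : x ∈ Far w l) (l' : Step) :
    nb x l' ∈ Far w l ∨ (x = nb w l ∧ l' = bl w l) := by
  rcases line_cases w l with ⟨-, h2, h3, -, h5⟩ | ⟨h1, h2, -, h5⟩ <;>
  rcases line_cases x l' with ⟨-, a2, -, -, -⟩ | ⟨a1, a2, -, -⟩
  · left; rw [h5, a2]; exact ((h5 x).1 h).trans (List.suffix_cons _ _)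
  · have := (h5 x).1 h
    rw [a2] at this
    rcases List.suffix_cons_iff.1 this with e | e
    · right
      refine ⟨Subtype.ext (by rw [h2, a2, e]), ?_⟩
      simp only [List.cons.injEq] at e
      have := congrArg Prod.fst e.1
      exact Prod.ext this.symm (a1.trans h3.symm)
    · left; exact (h5 _).2 e
  · by_cases e : w.1 <:+ (nb x l').1
    · right
      rw [a2] at e
      rcases List.suffix_cons_iff.1 e with e | e
      · rw [h2] at e
        simp only [List.cons.injEq] at e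
        exact ⟨Subtype.ext e.2.symm, e.1.symm⟩
      · exact absurd e ((h5 x).1 h)
    · left; exact (h5 _).2 e
  · left
    rw [h5]
    intro e
    apply (h5 x).1 h
    rw [a2]; exact e.trans (List.suffix_cons _ _)

theorem tree_ind (g : Pl) (Q : Pl → Prop) (h0 : Q g)
    (hs : ∀ w l, g ∈ Far w l → Q (nb w l) → Q w) : ∀ w, Q w := by
  have A : ∀ n, ∀ w : Pl, w.1 <:+ g.1 → g.1.length - w.1.length = n → Q w := by
    intro n
    induction n with
    | zero =>
      intro w hw hn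
      have : w = g := Subtype.ext (hw.eq_of_length (by have := hw.length_le; omega))
      exact this ▸ h0
    | succ n ih =>
      intro w hw hn
      obtain ⟨a, ha⟩ := exists_child hw (fun e => by rw [e] at hn; omega)
      obtain ⟨b1, b2⟩ := far_of_child ha
      exact hs w a b1 (ih _ (b2 ▸ ha) (by rw [b2]; simp; omega))
  have B : ∀ n, ∀ w : Pl, w.1.length = n → Q w := by
    intro n
    induction n with
    | zero =>
      intro w hw
      exact A _ w (by rw [List.length_eq_zero_iff.1 hw]; exact List.nil_suffix) rfl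
    | succ n ih =>
      intro w hw
      by_cases e : w.1 <:+ g.1
      · exact A _ w e rfl
      · obtain ⟨l, h1, h2⟩ := far_of_not_suffix e
        exact hs w l h1 (ih _ (by rw [h2] at hw; simpa using hw))
  exact fun w => B _ w rfl

theorem far_nest {w x : Pl} {l l' : Step} (hl : l' ≠ bl w l) (h : x ∈ Far (nb w l) l') :
    x ∈ Far w l := by
  by_contra e
  exact hl (far_uniq h ((far_back w l x).2 e))

theorem wf_toward (g : Pl) : WellFounded fun w' w : Pl => ∃ l, g ∈ Far w l ∧ w' = nb w l := by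
  refine ⟨tree_ind g _ ⟨_, ?_⟩ ?_⟩
  · rintro _ ⟨l, hl, -⟩; exact absurd hl (self_not_far g l)
  · intro w l hl ih
    refine ⟨_, ?_⟩
    rintro _ ⟨l', hl', rfl⟩
    rwa [far_uniq hl' hl]

/-! ### charts -/

def co {α : Type} (j : Bool) (a : α × α) : α := bif j then a.2 else a.1
def pt {α : Type} (j : Bool) (k m : α) : α × α := bif j then (m, k) else (k, m)

@[simp] theorem co_pt {α : Type} (j : Bool) (k m : α) : co j (pt j k m) = k := by cases j <;> rfl
@[simp] theorem co_not_pt {α : Type} (j : Bool) (k m : α) : co (!j) (pt j k m) = m := by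
  cases j <;> rfl
theorem pt_co {α : Type} (j : Bool) (a : α × α) : pt j (co j a) (co (!j) a) = a := by
  cases j <;> rfl
@[simp] theorem co_add (j : Bool) (a b : ℤ × ℤ) : co j (a + b) = co j a + co j b := by
  cases j <;> rfl
theorem pt_add (j : Bool) (k m k' m' : ℤ) : pt j k m + pt j k' m' = pt j (k + k') (m + m') := by
  cases j <;> rfl
@[simp] theorem co_zero (j : Bool) : co j (0 : ℤ × ℤ) = 0 := by cases j <;> rfl
@[simp] theorem pt_zero (j : Bool) : pt j (0 : ℤ) 0 = 0 := by cases j <;> rfl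

abbrev Ch := Pl × (ℤ × ℤ)

def lin (ω : Ch) (j : Bool) : Step := (j, co j ω.2)

noncomputable def S (j : Bool) (ω : Ch) : Ch :=
  (nb ω.1 (lin ω j), pt j (bk ω.1 (lin ω j)) (co (!j) ω.2 + sh ω.1 (lin ω j)))

def T (b : ℤ × ℤ) (ω : Ch) : Ch := (ω.1, ω.2 + b)

theorem lin_S (j : Bool) (ω : Ch) : lin (S j ω) j = bl ω.1 (lin ω j) := by
  simp [lin, S, bl]

theorem S_fst (j : Bool) (ω : Ch) : (S j ω).1 = nb ω.1 (lin ω j) := rfl

theorem S_S (j : Bool) (ω : Ch) : S j (S j ω) = T (pt j 0 1) ω := by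
  have h := sh_sh ω.1 (lin ω j)
  rw [S, lin_S, S_fst, nb_nb, bk_bk, T]
  refine Prod.ext rfl ?_
  simp only [S, co_not_pt]
  conv_rhs => rw [← pt_co j ω.2, pt_add]
  rw [add_assoc, h]; simp [lin]

theorem lin_T (j : Bool) (m : ℤ) (ω : Ch) : lin (T (pt j 0 m) ω) j = lin ω j := by
  simp [lin, T]

theorem S_T (j : Bool) (m : ℤ) (ω : Ch) : S j (T (pt j 0 m) ω) = T (pt j 0 m) (S j ω) := by
  rw [S, lin_T]
  simp only [T, S, co_add, co_not_pt, pt_add, add_zero]
  congr 2; ring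

theorem T_T (a b : ℤ × ℤ) (ω : Ch) : T a (T b ω) = T (b + a) ω := by simp [T, add_assoc]
@[simp] theorem T_zero (ω : Ch) : T 0 ω = ω := by simp [T]

theorem S_surj (j : Bool) (ω : Ch) : ∃ ω', S j ω' = ω :=
  ⟨S j (T (pt j 0 (-1)) ω), by rw [S_S, T_T, pt_add]; simp⟩

theorem S_child (w : Pl) (a : Step) (h : ¬ IsBack w.1 a) :
    S a.1 (w, pt a.1 a.2 0) = (⟨a :: w.1, h, w.2⟩, 0) := by
  rcases line_cases w a with ⟨-, h2, h3, h4, -⟩ | ⟨h1, h2, -, -⟩
  · simp only [S, lin, co_pt, co_not_pt, Prod.mk.eta, h3, h4, add_zero, pt_zero]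
    exact Prod.ext (Subtype.ext h2) rfl
  · exact absurd ⟨h1, _, _, h2⟩ h

theorem ch_ind (Q : Ch → Prop) (h0 : Q (root, 0)) (hS : ∀ j ω, Q ω → Q (S j ω))
    (hT : ∀ b ω, Q ω → Q (T b ω)) : ∀ ω, Q ω := by
  have A : ∀ (w : List Step) (hw : Red w), Q (⟨w, hw⟩, 0) := by
    intro w
    induction w with
    | nil => intro _; exact h0
    | cons a w ih =>
      intro hw
      have := hS a.1 _ (hT (pt a.1 a.2 0) _ (ih hw.2))
      simp only [T, zero_add] at this
      rwa [S_child ⟨w, hw.2⟩ a hw.1] at this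
  intro ω
  simpa [T] using hT ω.2 _ (A ω.1.1 ω.1.2)

theorem ch_ind' (Q : Ch → Prop) (ω0 : Ch) (h0 : Q ω0) (hS : ∀ j ω, Q ω → Q (S j ω))
    (hT : ∀ b ω, Q ω → Q (T b ω)) : ∀ ω, Q ω := by
  have hT' : ∀ b ω, Q (T b ω) → Q ω := fun b ω h => by
    simpa [T_T] using hT (-b) _ h
  have A : ∀ ω, Q ω → Q (root, 0) := by
    refine ch_ind _ id (fun j ω ih h => ih ?_) (fun b ω ih h => ih (hT' _ _ h))
    have := hS j _ h
    rw [S_S] at this
    exact hT' _ _ this
  exact ch_ind Q (A ω0 h0) hS hT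

def Comm (f : Ch → Ch) : Prop :=
  (∀ j ω, f (S j ω) = S j (f ω)) ∧ ∀ b ω, f (T b ω) = T b (f ω)

theorem Comm.ext {f g : Ch → Ch} (hf : Comm f) (hg : Comm g) {ω0 : Ch} (h : f ω0 = g ω0) :
    f = g := by
  funext ω
  exact ch_ind' (fun ω => f ω = g ω) ω0 h (fun j ω ih => by rw [hf.1, hg.1, ih])
    (fun b ω ih => by rw [hf.2, hg.2, ih]) ω

theorem Comm.comp {f g : Ch → Ch} (hf : Comm f) (hg : Comm g) : Comm (f ∘ g) :=
  ⟨fun j ω => by simp [hf.1, hg.1], fun b ω => by simp [hf.2, hg.2]⟩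

theorem comm_id : Comm id := ⟨fun _ _ => rfl, fun _ _ => rfl⟩

noncomputable def dev (ω0 : Ch) : List Step → Ch
  | [] => ω0
  | a :: w => S a.1 (T (pt a.1 a.2 0) (dev ω0 w))

theorem dev_comm (ω0 : Ch) : Comm fun ω => T ω.2 (dev ω0 ω.1.1) := by
  refine ⟨fun j ω => ?_, fun b ω => by simp [T, add_assoc]⟩
  rcases line_cases ω.1 (lin ω j) with ⟨-, h2, h3, h4, -⟩ | ⟨h1, h2, h4, -⟩
  · simp only [S_fst, h2, dev]
    simp only [S, h3, h4, add_zero]
    change T _ (S j _) = S j _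
    rw [← S_T, T_T]
    simp only [lin, pt_add, add_zero, zero_add, pt_co]
  · beta_reduce
    rw [h2]
    simp only [dev, S_fst]
    have e : ω.2 = pt j 0 (co (!j) ω.2) := by
      conv_lhs => rw [← pt_co j ω.2]
      congr 1
    have e2 : (S j ω).2 = pt j (bk ω.1 (lin ω j)) (co (!j) ω.2 + 1) := by simp [S, h4]
    rw [e2]
    conv_rhs => rw [e]
    change _ = S j (T _ (S j _))
    rw [S_T, S_S, T_T, T_T]
    simp only [bl, lin, pt_add, add_zero, zero_add, add_comm]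

theorem exists_comm (ω1 : Ch) : ∀ ω2, ∃ f, Comm f ∧ f ω1 = ω2 := by
  refine ch_ind (fun ω1 => ∀ ω2, ∃ f, Comm f ∧ f ω1 = ω2) ?_ ?_ ?_ ω1
  · intro ω2; exact ⟨_, dev_comm ω2, by simp [root, dev]⟩
  · intro j ω ih ω2
    obtain ⟨ω', h⟩ := S_surj j ω2
    obtain ⟨f, hf, e⟩ := ih ω'
    exact ⟨f, hf, by rw [hf.1, e, h]⟩
  · intro b ω ih ω2
    obtain ⟨f, hf, e⟩ := ih (T (-b) ω2)
    exact ⟨f, hf, by rw [hf.2, e, T_T]; simp⟩

theorem exists_perm (ω1 ω2 : Ch) : ∃ g : Equiv.Perm Ch, Comm g ∧ g ω1 = ω2 := by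
  obtain ⟨f, hf, e⟩ := exists_comm ω1 ω2
  obtain ⟨f', hf', e'⟩ := exists_comm ω2 ω1
  have h1 : f' ∘ f = id := (hf'.comp hf).ext comm_id (ω0 := ω1) (by simp [e, e'])
  have h2 : f ∘ f' = id := (hf.comp hf').ext comm_id (ω0 := ω2) (by simp [e, e'])
  exact ⟨⟨f, f', fun x => congrFun h1 x, fun x => congrFun h2 x⟩, hf, e⟩

/-! ### classes -/

def rfl2 {R : Type} [Ring R] (j : Bool) (c : R × R) : R × R :=
  pt j (co j c) (2 * co j c - co (!j) c)

theorem rfl2_rfl2 {R : Type} [Ring R] (j : Bool) (c : R × R) : rfl2 j (rfl2 j c) = c := by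
  simp [rfl2, pt_co]

def stl : List Step → ℤ × ℤ
  | [] => (1, 0)
  | a :: w => rfl2 a.1 (stl w)

def st (w : Pl) : ℤ × ℤ := stl w.1

theorem st_nb (w : Pl) (l : Step) : st (nb w l) = rfl2 l.1 (st w) := by
  rcases line_cases w l with ⟨-, h2, -⟩ | ⟨-, h2, -⟩
  · simp [st, h2, stl]
  · simp only [st]; rw [h2]; simp [stl, bl, rfl2_rfl2]

theorem st_inv (w : Pl) : (st w).1 % 2 = 1 ∧ (st w).2 % 2 = 0 ∧
    ((st w).1 = (st w).2 + 1 ∨ (st w).1 = (st w).2 - 1) := by
  refine tree_ind root (fun w => (st w).1 % 2 = 1 ∧ (st w).2 % 2 = 0 ∧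
    ((st w).1 = (st w).2 + 1 ∨ (st w).1 = (st w).2 - 1)) (by simp [st, root, stl]) ?_ w
  intro w l _ ih
  rw [st_nb] at ih
  obtain ⟨j, k⟩ := l
  cases j <;> simp only [rfl2, pt, co, cond_true, cond_false, Bool.not_true, Bool.not_false] at ih <;>
    omega

def stm (m : ℕ) (w : Pl) : ZMod m × ZMod m := (((st w).1 : ZMod m), ((st w).2 : ZMod m))

theorem stm_nb (m : ℕ) (w : Pl) (l : Step) : stm m (nb w l) = rfl2 l.1 (stm m w) := by
  obtain ⟨j, k⟩ := l
  cases j <;> simp [stm, st_nb, rfl2, pt, co]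

/-- the group -/
def Gp (m : ℕ) : Subgroup (Equiv.Perm Ch) where
  carrier := {g | Comm g ∧ ∀ ω, stm m (g ω).1 = stm m ω.1}
  mul_mem' := fun {a b} ha hb => ⟨ha.1.comp hb.1, fun ω => by
    rw [Equiv.Perm.mul_apply, ha.2, hb.2]⟩
  one_mem' := ⟨comm_id, fun _ => rfl⟩
  inv_mem' := fun {a} ha => ⟨⟨fun j ω => a.injective (by rw [ha.1.1]; simp),
    fun b ω => a.injective (by rw [ha.1.2]; simp)⟩, fun ω => by rw [← ha.2]; simp⟩

theorem exists_Gp (m : ℕ) {ω1 ω2 : Ch} (h : stm m ω2.1 = stm m ω1.1) :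
    ∃ g : Gp m, g.1 ω1 = ω2 := by
  obtain ⟨g, hg, e⟩ := exists_perm ω1 ω2
  refine ⟨⟨g, hg, ?_⟩, e⟩
  refine ch_ind' _ ω1 (by rw [e, h]) (fun j ω ih => ?_) (fun b ω ih => ?_)
  · rw [hg.1, S_fst, S_fst, stm_nb, stm_nb, ih]; rfl
  · rw [hg.2]; exact ih

theorem Gp_ext {m : ℕ} {g g' : Gp m} {ω : Ch} (h : g.1 ω = g'.1 ω) : g = g' :=
  Subtype.ext (Equiv.ext (congrFun (g.2.1.ext g'.2.1 h)))

end Pool.Agent.P.MP_318c20_al
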